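import Pool.Agent.Lib.MP_ab96eb_gt.Spec
import Pool.Agent.Lib.MP_b00168_gt.Transfer

section
set_option autoImplicit false

/-! # MP_ab96eb_gt : module LIFT -/

namespace TCMM

namespace Lift

open MPb00168 MPb00168.Transfer

variable {H : Type} [Group H] {X : Type} [TopologicalSpace X]

/-- Two lifts of a map on a connected space differ by an element of the group. -/
lemma exists_smul (C : GCov H X) {A : Type} [TopologicalSpace A] [PreconnectedSpace A] (a₀ : A)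
    (f g : C(A, C.T)) (h : ∀ a, C.p (f a) = C.p (g a)) : ∃ k : H, ∀ a, g a = k • f a := by
  obtain ⟨k, hk⟩ := (C.orbit (f a₀) (g a₀)).mp (h a₀)
  refine ⟨k, fun a => ?_⟩
  have h1 : (fun a => g a) = fun a => (smC C k).comp f a := by
    refine C.cov.eq_of_comp_eq g.continuous ((smC C k).comp f).continuous ?_ a₀ hk.symm
    funext a
    change C.p (g a) = C.p (k • f a)
    rw [← h a]
    exact (C.orbit _ _).mpr ⟨k, rfl⟩
  exact congrFun h1 a

lemma exists_lift (C : GCov H X) {k : ℕ} (σ : Sing X k) : ∃ τ : Sing C.T k, C.p.comp τ = σ := by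
  obtain ⟨e, he⟩ := C.surj (σ (vertsD k 0))
  obtain ⟨τ, hτ, -⟩ := (lifts_bij C.p C.cov σ (vertsD k 0)).surjOn (show e ∈ _ from he)
  exact ⟨τ, hτ⟩

lemma unique_lift (C : GCov H X) {k : ℕ} (τ τ' : Sing C.T k) (h : C.p.comp τ = C.p.comp τ') :
    ∃ g : H, ∀ t, τ' t = g • τ t :=
  exists_smul C (vertsD k 0) τ τ' fun a => congrArg (fun f : Sing X k => f a) h

end Lift

theorem specLift : SpecLift := fun _ _ _ _ C _ =>
  ⟨Lift.exists_lift C, Lift.unique_lift C⟩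

theorem specELift : SpecELift := by
  intro H _ X _ C e
  obtain ⟨x, hx⟩ := C.surj (e 0)
  obtain ⟨F, ⟨-, hF⟩, -⟩ := C.cov.existsUnique_continuousMap_lifts e 0 x hx
  exact ⟨F, fun v => congrFun hF v⟩

end TCMM
end

section
set_option autoImplicit false

/-! # MP_ab96eb_gt : modules PLAN and VAN -/

namespace TCMM

namespace Plan

open MPb00168 MPb00168.Transfer unitInterval

variable {H : Type} [Group H] {X : Type} [TopologicalSpace X]

/-- The end of the lift of the path `γ` from `p x` to `p y` starting at `x` is `k • y` for a unique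
element `k` of the group. -/
lemma exists_end (C : GCov H X) (x y : C.T) (γ : C(I, X)) (h0 : γ 0 = C.p x) (h1 : γ 1 = C.p y) :
    ∃ k : H, C.cov.liftPath γ x h0 1 = k • y := by
  have h2 : C.p y = C.p (C.cov.liftPath γ x h0 1) := by
    have := congrFun (C.cov.liftPath_lifts γ x h0) 1
    rw [← h1]
    exact this.symm
  obtain ⟨k, hk⟩ := (C.orbit _ _).mp h2
  exact ⟨k, hk.symm⟩

lemma smul_left_cancel' (C : GCov H X) {k k' : H} {y : C.T} (h : k • y = k' • y) : k = k' := by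
  have h1 : (k'⁻¹ * k) • y = y := by
    rw [mul_smul, h, inv_smul_smul]
  have h2 := C.free _ _ h1
  rw [inv_mul_eq_one] at h2
  exact h2.symm

/-- The group element attached to a path. -/
noncomputable def en (C : GCov H X) (x y : C.T) (γ : C(I, X)) (h0 : γ 0 = C.p x)
    (h1 : γ 1 = C.p y) : H := (exists_end C x y γ h0 h1).choose

lemma en_spec (C : GCov H X) (x y : C.T) (γ : C(I, X)) (h0 : γ 0 = C.p x) (h1 : γ 1 = C.p y) :
    C.cov.liftPath γ x h0 1 = en C x y γ h0 h1 • y := (exists_end C x y γ h0 h1).choose_spec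

lemma p_smul (C : GCov H X) (g : H) (x : C.T) : C.p (g • x) = C.p x :=
  ((C.orbit x (g • x)).mpr ⟨g, rfl⟩).symm

lemma en_eq (C : GCov H X) (x y : C.T) (γ : C(I, X)) (h0 : γ 0 = C.p x) (h1 : γ 1 = C.p y)
    (Γ : C(I, C.T)) (hΓ : ∀ t, C.p (Γ t) = γ t) (hx : Γ 0 = x) (k : H) (hy : Γ 1 = k • y) :
    en C x y γ h0 h1 = k := by
  apply smul_left_cancel' C (y := y)
  rw [← en_spec, ← hy]
  have h2 : Γ = C.cov.liftPath γ x h0 := (C.cov.eq_liftPath_iff' h0).mpr ⟨funext hΓ, hx⟩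
  rw [← h2]

lemma en_smul (C : GCov H X) (g h : H) (x y : C.T) (γ : C(I, X)) (h0 : γ 0 = C.p x)
    (h1 : γ 1 = C.p y) (h0' : γ 0 = C.p (g • x)) (h1' : γ 1 = C.p (h • y)) :
    en C (g • x) (h • y) γ h0' h1' = g * en C x y γ h0 h1 * h⁻¹ := by
  refine en_eq C _ _ γ h0' h1' ((smC C g).comp (C.cov.liftPath γ x h0)) ?_ ?_ _ ?_
  · intro t
    change C.p (g • C.cov.liftPath γ x h0 t) = γ t
    rw [p_smul]
    exact congrFun (C.cov.liftPath_lifts γ x h0) t
  · change g • C.cov.liftPath γ x h0 0 = g • x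
    rw [C.cov.liftPath_zero]
  · change g • C.cov.liftPath γ x h0 1 = _
    rw [en_spec, mul_smul, mul_smul, inv_smul_smul]

lemma en_congr (C : GCov H X) {x x' y y' : C.T} {γ γ' : C(I, X)} (hx : x = x') (hy : y = y')
    (hγ : γ = γ') (h0 : γ 0 = C.p x) (h1 : γ 1 = C.p y) (h0' : γ' 0 = C.p x')
    (h1' : γ' 1 = C.p y') : en C x y γ h0 h1 = en C x' y' γ' h0' h1' := by
  subst hx; subst hy; subst hγ; rfl

/-- Constancy on connected sets. -/
lemma en_const (C : GCov H X) {A : Type} [TopologicalSpace A] [PreconnectedSpace A] (a₀ : A)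
    (F : C(I × A, X)) (f g : C(A, C.T)) (hf : ∀ a, F (0, a) = C.p (f a))
    (hg : ∀ a, F (1, a) = C.p (g a)) :
    ∃ k : H, ∀ (a : A) (γ : C(I, X)) (h0 : γ 0 = C.p (f a)) (h1 : γ 1 = C.p (g a)),
      (∀ t, γ t = F (t, a)) → en C (f a) (g a) γ h0 h1 = k := by
  let Φ : C(I × A, C.T) := C.cov.liftHomotopy F f hf
  have hΦ : ∀ z, C.p (Φ z) = F z := fun z => congrFun (C.cov.liftHomotopy_lifts F f hf) z
  have hΦ0 : ∀ a, Φ (0, a) = f a := fun a => C.cov.liftHomotopy_zero F f hf a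
  obtain ⟨k, hk⟩ := Lift.exists_smul C a₀ g ⟨fun a => Φ (1, a), by fun_prop⟩ (fun a => by
    change C.p (g a) = C.p (Φ (1, a))
    rw [hΦ, hg])
  refine ⟨k, fun a γ h0 h1 hγ => ?_⟩
  refine en_eq C _ _ γ h0 h1 ⟨fun t => Φ (t, a), by fun_prop⟩ ?_ (hΦ0 a) k (hk a)
  intro t
  change C.p (Φ (t, a)) = γ t
  rw [hΦ, hγ]

end Plan

open MPb00168 MPb00168.Transfer Plan in
theorem specPlan : SpecPlan := by
  intro H _ X _ _ C hTC
  obtain ⟨U, s, hU, hcov, hs⟩ := hTC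
  obtain ⟨ε, hε, hL⟩ := lebesgue_number_lemma_of_metric (isCompact_univ (X := X × X)) hU
    (fun z _ => Set.mem_iUnion.mpr (hcov z))
  have hL' : ∀ z, ∃ j, Metric.ball z ε ⊆ U j := fun z => hL z trivial
  choose col hcol using hL'
  have hmem : ∀ x y : C.T, (C.p x, C.p y) ∈ U (col (C.p x, C.p y)) := fun x y =>
    hcol _ (Metric.mem_ball_self hε)
  let φ : C.T → C.T → H := fun x y =>
    en C x y (s _ ⟨_, hmem x y⟩) (hs _ ⟨_, hmem x y⟩).1 (hs _ ⟨_, hmem x y⟩).2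
  have hφ : ∀ (x y : C.T) (j : Fin 6) (hj : (C.p x, C.p y) ∈ U j),
      col (C.p x, C.p y) = j → φ x y = en C x y (s j ⟨_, hj⟩) (hs j ⟨_, hj⟩).1 (hs j ⟨_, hj⟩).2 := by
    intro x y j hj h
    subst h
    rfl
  refine ⟨φ, ε, col, hε, ?_, ?_⟩
  · intro g h x y
    have h1 : (C.p (g • x), C.p (h • y)) = (C.p x, C.p y) := by rw [p_smul, p_smul]
    have hm : (C.p (g • x), C.p (h • y)) ∈ U (col (C.p x, C.p y)) := by
      rw [h1]; exact hmem x y
    rw [hφ (g • x) (h • y) (col (C.p x, C.p y)) hm (by rw [h1]), hφ x y _ (hmem x y) rfl,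
      ← en_smul C g h x y _ _ _ ?_ ?_]
    · refine en_congr C rfl rfl ?_ _ _ _ _
      congr 1
      exact Subtype.ext h1
    · rw [p_smul]; exact (hs _ ⟨_, hmem x y⟩).1
    · rw [p_smul]; exact (hs _ ⟨_, hmem x y⟩).2
  · intro σ τ hσ hτ a a' b b' hab
    set j := col (C.p (σ a), C.p (τ b)) with hj
    have hin : ∀ c d, (C.p (σ c), C.p (τ d)) ∈ U j := by
      intro c d
      apply hcol
      rw [Metric.mem_ball, Prod.dist_eq, max_lt_iff]
      exact ⟨hσ c a, hτ d b⟩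
    let q : C(stdSimplex ℝ (Fin (3 + 1)) × stdSimplex ℝ (Fin (3 + 1)), U j) :=
      ⟨fun z => ⟨(C.p (σ z.1), C.p (τ z.2)), hin z.1 z.2⟩, by fun_prop⟩
    let F : C(unitInterval × (stdSimplex ℝ (Fin (3 + 1)) × stdSimplex ℝ (Fin (3 + 1))), X) :=
      ⟨fun z => s j (q z.2) z.1, by fun_prop⟩
    obtain ⟨k, hk⟩ := en_const C (a, b) F ⟨fun z => σ z.1, by fun_prop⟩
      ⟨fun z => τ z.2, by fun_prop⟩ (fun z => (hs j (q z)).1) (fun z => (hs j (q z)).2)
    rw [hφ (σ a) (τ b) j (hin a b) rfl, hφ (σ a') (τ b') j (hin a' b') hab.symm]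
    have e1 := hk (a, b) (s j ⟨_, hin a b⟩) (hs j ⟨_, hin a b⟩).1 (hs j ⟨_, hin a b⟩).2
      (fun t => rfl)
    have e2 := hk (a', b') (s j ⟨_, hin a' b'⟩) (hs j ⟨_, hin a' b'⟩).1 (hs j ⟨_, hin a' b'⟩).2
      (fun t => rfl)
    exact e1.trans e2.symm

open MPb00168 in
theorem specVan (hP : SpecPlan) (hL : SpecLift) : SpecVan := by
  intro H _ X _ _ C hTC
  obtain ⟨φ, ε, col, hε, hφ, hconst⟩ := hP H X C hTC
  refine ⟨φ, ε, hε, hφ, ?_⟩
  intro u hu c hc
  have hlft : ∀ σ : Sing X 3, ∃ σ' : Sing C.T 3, C.p.comp σ' = σ ∧ lft C σ = vt σ' := by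
    intro σ
    have h := (hL H X C 3).1 σ
    refine ⟨h.choose, h.choose_spec, ?_⟩
    rw [lft, dif_pos h]
  rw [ev2, Finsupp.sum]
  refine Finset.sum_eq_zero fun σ hσ => ?_
  rw [Finsupp.sum]
  refine Finset.sum_eq_zero fun τ hτ => ?_
  obtain ⟨σ', hσ1, hσ2⟩ := hlft σ
  obtain ⟨τ', hτ1, hτ2⟩ := hlft τ
  rw [hσ2, hτ2, Om, Finset.sum_eq_zero, mul_zero]
  intro s _
  rw [hu, mul_zero]
  obtain ⟨m, n, hmn, hcol⟩ := Fintype.exists_ne_map_eq_of_card_lt (fun m : Fin 7 =>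
    col (C.p (σ' (vertsD 3 (px 3 s m))), C.p (τ' (vertsD 3 (py 3 s m))))) (by simp)
  refine ⟨m, n, hmn, ?_⟩
  refine hconst σ' τ' ?_ ?_ _ _ _ _ hcol
  · intro a b
    have := hc σ hσ a b
    rw [← hσ1] at this
    exact this
  · intro a b
    have := hc τ hτ a b
    rw [← hτ1] at this
    exact this

end TCMM
end
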