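import Pool.Agent.Lib.MP_ab96eb_gt.Statement
import Pool.Agent.Lib.MP_b00168_gt.Defs

set_option autoImplicit false

/-!
# MP_ab96eb_gt : auxiliary definitions
-/

namespace TCMM

open MPb00168

/-! ## The free product -/

/-- The free product of the two groups. -/
abbrev FP (G : Bool → Type) [∀ i, Group (G i)] : Type := Monoid.CoprodI G

variable {G : Bool → Type} [∀ i, Group (G i)]

/-- The inclusions of the factors. -/
abbrev inc (i : Bool) : G i →* FP G := Monoid.CoprodI.of

open Classical in
/-- The first letter of the reduced word of `w` if it belongs to `G i`, and `1` otherwise. -/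
noncomputable def hd (i : Bool) (w : FP G) : G i :=
  (Monoid.CoprodI.Word.equivPair i (Monoid.CoprodI.Word.equiv w)).head

variable (G) in
/-- Vertices of the Bass-Serre tree: `(i, w)` stands for the coset `w G_i`. -/
abbrev Vx : Type := Bool × FP G

/-- The properties of (twice) the distance of the Bass-Serre tree. -/
structure TreeD (d : Vx G → Vx G → ℕ) : Prop where
  symm : ∀ x y, d x y = d y x
  tri : ∀ x y z, d x z ≤ d x y + d y z
  four : ∀ x y z t, d x y + d z t ≤ max (d x z + d y t) (d x t + d y z)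
  inv : ∀ (γ : FP G) (i j : Bool) (w w' : FP G), d (i, γ * w) (j, γ * w') = d (i, w) (j, w')
  zero : ∀ (i j : Bool) (w w' : FP G), d (i, w) (j, w') = 0 ↔ i = j ∧ ∃ g : G i, w' = w * inc i g
  two : ∀ x y, d x y ≠ 0 → 2 ≤ d x y
  adj : d (false, 1) (true, 1) = 2
  /-- `(i, g)` separates two other vertices iff these are seen from it in different directions -/
  sep : ∀ (i : Bool) (g : FP G) (j k : Bool) (x y : FP G), d (i, g) (j, x) ≠ 0 →
    d (i, g) (k, y) ≠ 0 →
    (d (j, x) (k, y) = d (j, x) (i, g) + d (i, g) (k, y) ↔ hd i (g⁻¹ * x) ≠ hd i (g⁻¹ * y))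
  fin : ∀ x y, ∃ S : Finset (Vx G), ∀ z, d x z + d z y = d x y → ∃ s ∈ S, d s z = 0

/-- The factor `G i` as a subgroup. -/
def HH (i : Bool) : Subgroup (FP G) := (inc (G := G) i).range

/-! ## Cocycles -/

/-- Alternating, left invariant (homogeneous) real `n`-cocycles of a group. -/
structure Coc {H : Type} [Group H] (n : ℕ) (α : (Fin (n + 1) → H) → ℝ) : Prop where
  inv : ∀ (g : H) (x : Fin (n + 1) → H), α (fun i => g * x i) = α x
  alt : ∀ (π : Equiv.Perm (Fin (n + 1))) (x : Fin (n + 1) → H),
    α (x ∘ π) = ((Equiv.Perm.sign π : ℤ) : ℝ) * α x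
  coc : ∀ x : Fin (n + 2) → H, ∑ k : Fin (n + 2), (-1 : ℝ) ^ (k : ℕ) * α (x ∘ k.succAbove) = 0

/-- The indices `0, 1, 2, 3`. -/
def i0 (m : Fin 4) : Fin 7 := Fin.castLE (by norm_num) m

/-- The indices `3, 4, 5, 6`. -/
def i3 (m : Fin 4) : Fin 7 := Fin.natAdd 3 m

/-- The product of `α` evaluated on first letters and `β` evaluated on (inverse) last letters. -/
noncomputable def Fc (α : (Fin 4 → G false) → ℝ) (β : (Fin 4 → G true) → ℝ)
    (w : Fin 7 → FP G) : ℝ :=
  α (fun m => hd false (w (i0 m))) * β (fun m => hd true (w (i3 m))⁻¹)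

/-- The function `u` of the paper proof: the sum of `Fc` over all pairs of vertices
`(g G_false, b G_true)`. -/
noncomputable def uc (α : (Fin 4 → G false) → ℝ) (β : (Fin 4 → G true) → ℝ)
    (v : Fin 7 → FP G) : ℝ :=
  ∑ᶠ q : (FP G ⧸ HH (G := G) false) × (FP G ⧸ HH (G := G) true),
    Fc α β (fun m => (q.1.out)⁻¹ * v m * q.2.out)

/-- Antisymmetrisation. -/
noncomputable def Alt {Γ : Type} (u : (Fin 7 → Γ) → ℝ) (v : Fin 7 → Γ) : ℝ :=
  ∑ π : Equiv.Perm (Fin 7), ((Equiv.Perm.sign π : ℤ) : ℝ) * u (v ∘ π)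

/-- Bi-invariant alternating 6-cocycles. -/
structure BiCoc {Γ : Type} [Group Γ] (u : (Fin 7 → Γ) → ℝ) : Prop where
  inv : ∀ (g h : Γ) (v : Fin 7 → Γ), u (fun m => g * v m * h) = u v
  coc : ∀ v : Fin 8 → Γ, ∑ k : Fin 8, (-1 : ℝ) ^ (k : ℕ) * u (v ∘ k.succAbove) = 0

/-! ## Shuffles -/

/-- Shuffles: subsets with `p` elements of `Fin n` (the steps in the first direction). -/
def Sh (p n : ℕ) : Finset (Finset (Fin n)) := Finset.univ.powersetCard p

/-- First coordinate of the `m`-th vertex of the lattice path of the shuffle `s`. -/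
def px (p : ℕ) {n : ℕ} (s : Finset (Fin n)) (m : Fin (n + 1)) : Fin (p + 1) :=
  Fin.ofNat (p + 1) (s.filter fun k : Fin n => (k : ℕ) < (m : ℕ)).card

/-- Second coordinate of the `m`-th vertex of the lattice path of the shuffle `s`. -/
def py (q : ℕ) {n : ℕ} (s : Finset (Fin n)) (m : Fin (n + 1)) : Fin (q + 1) := px q sᶜ m

/-- The sign of a shuffle. -/
def sg {n : ℕ} (s : Finset (Fin n)) : ℤ :=
  (-1) ^ ((Finset.univ : Finset (Fin n × Fin n)).filter
    fun ab => ab.1 ∉ s ∧ ab.2 ∈ s ∧ ab.1 < ab.2).card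

/-- Evaluation of `u` on the (triangulated) product of two 3-simplices, for the labelling `φ`. -/
noncomputable def Om {Γ S S' : Type} (u : (Fin 7 → Γ) → ℝ) (φ : S → S' → Γ) (x : Fin 4 → S)
    (y : Fin 4 → S') : ℝ :=
  ∑ s ∈ Sh 3 6, (sg s : ℝ) * u (fun m => φ (x (px 3 s m)) (y (py 3 s m)))

/-! ## Singular simplices -/

section Top

variable {H : Type} [Group H] {X : Type} [TopologicalSpace X]

/-- The vertices of a singular simplex. -/
noncomputable def vt {T : Type} [TopologicalSpace T] {k : ℕ} (σ : Sing T k) : Fin (k + 1) → T :=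
  fun m => σ (vertsD k m)

open Classical in
/-- A lift of a singular simplex to a covering (junk value if there is none). -/
noncomputable def lft (C : GCov H X) {k : ℕ} (σ : Sing X k) : Fin (k + 1) → C.T :=
  if h : ∃ τ : Sing C.T k, C.p.comp τ = σ then vt h.choose
  else fun _ => (C.surj (σ (vertsD k 0))).choose

/-- The value on a chain of `X` of an invariant function on tuples of points of the covering. -/
noncomputable def evl (C : GCov H X) {k : ℕ} (W : (Fin (k + 1) → C.T) → ℝ) :
    Chain X k →ₗ[ℤ] ℝ :=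
  Finsupp.linearCombination ℤ fun σ => W (lft C σ)

/-- The value on a pair of 3-chains of `X` of a function on pairs of tuples. -/
noncomputable def ev2 (C : GCov H X) (W : (Fin 4 → C.T) → (Fin 4 → C.T) → ℝ)
    (c c' : Chain X 3) : ℝ :=
  c.sum fun σ a => c'.sum fun τ b => ((a * b : ℤ) : ℝ) * W (lft C σ) (lft C τ)

/-- All the simplices of the chain have diameter less than `ε`. -/
def SmallCh {X : Type} [MetricSpace X] (ε : ℝ) {k : ℕ} (c : Chain X k) : Prop :=
  ∀ σ ∈ c.support, ∀ s t, dist (σ s) (σ t) < ε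

end Top

/-- The action of an element of the group, as a continuous map. -/
def smC {H : Type} [Group H] {X : Type} [TopologicalSpace X] (C : GCov H X) (g : H) :
    C(C.T, C.T) := ⟨fun t => g • t, continuous_const_smul g⟩

/-- The inclusion of `Dom (e i)`. -/
def incD {M : Type} [TopologicalSpace M] (e : R3 → M) : C(Dom e, M) := ⟨Subtype.val, by fun_prop⟩

variable {M : Bool → Type} [∀ i, TopologicalSpace (M i)] {X : Type} [TopologicalSpace X]

/-- The inclusion of a piece of the connected sum. -/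
def jC (S : ConnSum M X) (i : Bool) : C(Dom (S.e i), X) := ⟨S.j i, (S.jemb i).continuous⟩

/-- The chart of a piece of the connected sum. -/
def eC (S : ConnSum M X) (i : Bool) : C(R3, M i) := ⟨S.e i, (S.emb i).continuous⟩

/-- The part of the covering of `M i` over the piece of the connected sum. -/
def Pre (S : ConnSum M X) (A : ∀ i, GCov (G i) (M i)) (i : Bool) : Set (A i).T :=
  {t | (A i).p t ∈ Dom (S.e i)}

/-- The covering of a connected sum, with the free product as group, glued from the coverings of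
the pieces. `el i` is a lift of the chart `e i`. -/
structure Glued (S : ConnSum M X) (A : ∀ i, GCov (G i) (M i)) (el : ∀ i, C(R3, (A i).T)) where
  /-- the covering -/
  C : GCov (FP G) X
  /-- the inclusions of the coverings of the pieces -/
  J : ∀ i, C(Pre S A i, C.T)
  pJ : ∀ i (t : Pre S A i), C.p (J i t) = S.j i ⟨(A i).p t.1, t.2⟩
  eqv : ∀ i (g : G i) (t t' : Pre S A i), (t' : (A i).T) = g • (t : (A i).T) →
    J i t' = inc (G := G) i g • J i t
  mat : ∀ (v : R3) (t : Pre S A false) (t' : Pre S A true), 1 / 2 < ‖v‖ → ‖v‖ < 2 →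
    (t : (A false).T) = el false v → (t' : (A true).T) = el true (inv3 v) →
    J false t = J true t'

end TCMM
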