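import Pool.Agent.Lib.MP_ab96eb_gt.Spec

set_option autoImplicit false

/-!
# MP_ab96eb_gt : module GLUE

The covering of the connected sum is the set `X × (G_false * G_true)` with the finest topology such
that all translates of the inclusions of the coverings of the pieces are continuous.
-/

namespace TCMM

open MPb00168 Topology

namespace GlueM

/-! ## Inversion -/

lemma norm_inv3 {v : R3} (hv : v ≠ 0) : ‖inv3 v‖ = ‖v‖⁻¹ := by
  have h : ‖v‖ ≠ 0 := norm_ne_zero_iff.2 hv
  unfold inv3
  rw [norm_smul, norm_inv, norm_pow, norm_norm]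
  field_simp

lemma inv3_inv3 {v : R3} (hv : v ≠ 0) : inv3 (inv3 v) = v := by
  have h : ‖v‖ ≠ 0 := norm_ne_zero_iff.2 hv
  have h2 := norm_inv3 hv
  unfold inv3 at h2 ⊢
  rw [h2, smul_smul]
  have : ((‖v‖⁻¹ ^ 2)⁻¹ * (‖v‖ ^ 2)⁻¹) = 1 := by
    field_simp
  rw [this, one_smul]

/-- The annulus. -/
def Ann : Set R3 := {v | 1 / 2 < ‖v‖ ∧ ‖v‖ < 2}

lemma Ann.ne {v : R3} (hv : v ∈ Ann) : v ≠ 0 := by
  rintro rfl
  have := hv.1
  simp at this
  linarith

lemma Ann.inv {v : R3} (hv : v ∈ Ann) : inv3 v ∈ Ann := by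
  have h0 : (0 : ℝ) < ‖v‖ := norm_pos_iff.2 (Ann.ne hv)
  obtain ⟨h1, h2⟩ := hv
  constructor
  · rw [norm_inv3 (Ann.ne ⟨h1, h2⟩)]
    rw [one_div]
    exact inv_strictAnti₀ h0 h2
  · rw [norm_inv3 (Ann.ne ⟨h1, h2⟩)]
    have := inv_strictAnti₀ (by norm_num : (0 : ℝ) < 1 / 2) h1
    simpa using this

lemma isOpen_Ann : IsOpen Ann :=
  (isOpen_lt continuous_const continuous_norm).inter (isOpen_lt continuous_norm continuous_const)

lemma contOn_inv3 : ContinuousOn inv3 Ann := by
  unfold inv3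
  refine ContinuousOn.smul (ContinuousOn.inv₀ (continuous_norm.pow 2).continuousOn ?_)
    continuousOn_id
  intro v hv
  exact pow_ne_zero 2 (norm_ne_zero_iff.2 (Ann.ne hv))

lemma isOpen_image_inv3 {W : Set R3} (hW : IsOpen W) : IsOpen (inv3 '' (W ∩ Ann)) := by
  have h : inv3 '' (W ∩ Ann) = Ann ∩ inv3 ⁻¹' W := by
    ext v
    constructor
    · rintro ⟨u, ⟨h1, h2⟩, rfl⟩
      refine ⟨Ann.inv h2, ?_⟩
      rw [Set.mem_preimage, inv3_inv3 (Ann.ne h2)]
      exact h1
    · rintro ⟨h1, h2⟩
      exact ⟨inv3 v, ⟨h2, Ann.inv h1⟩, inv3_inv3 (Ann.ne h1)⟩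
  rw [h]
  exact contOn_inv3.isOpen_inter_preimage isOpen_Ann hW

/-! ## Coordinates -/

section Cov

variable {H : Type} [Group H] {Y : Type} [TopologicalSpace Y] (C : GCov H Y)

lemma p_smul (g : H) (t : C.T) : C.p (g • t) = C.p t :=
  ((C.orbit t (g • t)).2 ⟨g, rfl⟩).symm

lemma smul_inj {g g' : H} {t : C.T} (h : g • t = g' • t) : g = g' := by
  have h1 : (g'⁻¹ * g) • t = t := by rw [mul_smul, h, inv_smul_smul]
  have h2 := C.free _ _ h1
  rw [inv_mul_eq_one] at h2
  exact h2.symm

lemma exists_coord {e : R3 → Y} (he : Function.Injective e) (el : C(R3, C.T))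
    (hel : ∀ v, C.p (el v) = e v) :
    ∃ ai : C.T → H, (∀ g t, ai (g • t) = g * ai t) ∧ ∀ v, ai (el v) = 1 := by
  have h1 : ∀ m : Y, ∃ r : C.T, C.p r = m ∧ ∀ v, e v = m → r = el v := by
    intro m
    by_cases h : ∃ v, e v = m
    · obtain ⟨v, rfl⟩ := h
      refine ⟨el v, hel v, fun u hu => ?_⟩
      rw [he hu]
    · obtain ⟨r, hr⟩ := C.surj m
      exact ⟨r, hr, fun v hv => absurd ⟨v, hv⟩ h⟩
  choose r hr hr' using h1
  have h2 : ∀ t : C.T, ∃ g : H, g • r (C.p t) = t := fun t => (C.orbit _ _).1 (hr _)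
  choose ai hai using h2
  refine ⟨ai, fun g t => ?_, fun v => ?_⟩
  · have h3 := hai (g • t)
    rw [p_smul] at h3
    apply smul_inj C (t := r (C.p t))
    rw [h3, mul_smul, hai]
  · have h3 := hai (el v)
    rw [hr' (C.p (el v)) v (hel v).symm] at h3
    exact C.free _ _ h3

end Cov

variable {G : Bool → Type} [∀ i, Group (G i)] {M : Bool → Type} [∀ i, TopologicalSpace (M i)]
  {X : Type} [TopologicalSpace X] (S : ConnSum M X) (A : ∀ i, GCov (G i) (M i))
  (ai : ∀ i, (A i).T → G i)

lemma glue' {i k : Bool} (hik : i ≠ k) (m : Dom (S.e i)) (m' : Dom (S.e k)) :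
    S.j i m = S.j k m' ↔ ∃ v : R3, v ∈ Ann ∧ (m : M i) = S.e i v ∧ (m' : M k) = S.e k (inv3 v) := by
  cases i <;> cases k
  · exact absurd rfl hik
  · rw [S.glue]
    constructor
    · rintro ⟨v, h1, h2, h3, h4⟩
      exact ⟨v, ⟨h1, h2⟩, h3, h4⟩
    · rintro ⟨v, ⟨h1, h2⟩, h3, h4⟩
      exact ⟨v, h1, h2, h3, h4⟩
  · rw [eq_comm, S.glue]
    constructor
    · rintro ⟨v, h1, h2, h3, h4⟩
      have hv : v ∈ Ann := ⟨h1, h2⟩
      refine ⟨inv3 v, Ann.inv hv, h4, ?_⟩
      rw [inv3_inv3 (Ann.ne hv)]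
      exact h3
    · rintro ⟨v, hv, h3, h4⟩
      refine ⟨inv3 v, (Ann.inv hv).1, (Ann.inv hv).2, h4, ?_⟩
      rw [inv3_inv3 (Ann.ne hv)]
      exact h3
  · exact absurd rfl hik

/-- The total space. -/
def TS (_S : ConnSum M X) (A : ∀ i, GCov (G i) (M i)) (_ai : ∀ i, (A i).T → G i) : Type := X × FP G

/-- The translates of the inclusions of the coverings of the pieces. -/
def gm (i : Bool) (w : FP G) (t : Pre S A i) : TS S A ai :=
  (S.j i ⟨(A i).p t.1, t.2⟩, w * inc (G := G) i (ai i t.1))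

instance instTop : TopologicalSpace (TS S A ai) :=
  ⨆ i : Bool, ⨆ w : FP G, TopologicalSpace.coinduced (gm S A ai i w) inferInstance

instance instAct : MulAction (FP G) (TS S A ai) where
  smul g t := (t.1, g * t.2)
  one_smul _ := Prod.ext rfl (one_mul _)
  mul_smul _ _ _ := Prod.ext rfl (mul_assoc _ _ _)

lemma smul_def (g : FP G) (t : TS S A ai) : g • t = ((t.1, g * t.2) : X × FP G) := rfl

lemma isOpen_iff (O : Set (TS S A ai)) :
    IsOpen O ↔ ∀ i w, IsOpen (gm S A ai i w ⁻¹' O) := by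
  rw [isOpen_iSup_iff]
  refine forall_congr' fun i => ?_
  rw [isOpen_iSup_iff]
  exact forall_congr' fun w => isOpen_coinduced

lemma continuous_gm (i : Bool) (w : FP G) : Continuous (gm S A ai i w) :=
  ⟨fun O hO => (isOpen_iff S A ai O).1 hO i w⟩

lemma continuous_of {Z : Type} [TopologicalSpace Z] (f : TS S A ai → Z)
    (hf : ∀ i w, Continuous (f ∘ gm S A ai i w)) : Continuous f := by
  refine ⟨fun O hO => (isOpen_iff S A ai _).2 fun i w => ?_⟩
  exact (hf i w).isOpen_preimage O hO

lemma smul_gm (g : FP G) (i : Bool) (w : FP G) (t : Pre S A i) :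
    g • gm S A ai i w t = gm S A ai i (g * w) t :=
  Prod.ext rfl (mul_assoc _ _ _).symm

instance instCont : ContinuousConstSMul (FP G) (TS S A ai) where
  continuous_const_smul g := by
    refine continuous_of S A ai _ fun i w => ?_
    have : (fun x : TS S A ai => g • x) ∘ gm S A ai i w = gm S A ai i (g * w) := by
      ext t
      exact smul_gm S A ai g i w t
    rw [this]
    exact continuous_gm S A ai i (g * w)

/-- The projection. -/
def pr (t : TS S A ai) : X := t.1

lemma continuous_jp (i : Bool) :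
    Continuous (fun t : Pre S A i => S.j i ⟨(A i).p t.1, t.2⟩) :=
  (S.jemb i).continuous.comp
    (Continuous.subtype_mk ((A i).p.continuous.comp continuous_subtype_val) _)

lemma isOpenMap_jp (i : Bool) :
    IsOpenMap (fun t : Pre S A i => S.j i ⟨(A i).p t.1, t.2⟩) :=
  (S.jemb i).isOpenMap.comp ((A i).cov.isOpenMap.restrictPreimage (Dom (S.e i)))

lemma continuous_pr : Continuous (pr S A ai) :=
  continuous_of S A ai _ fun i _ => continuous_jp S A i

lemma isOpenMap_pr : IsOpenMap (pr S A ai) := by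
  intro O hO
  have h : pr S A ai '' O = ⋃ i : Bool, ⋃ w : FP G,
      (fun t : Pre S A i => S.j i ⟨(A i).p t.1, t.2⟩) '' (gm S A ai i w ⁻¹' O) := by
    ext x
    simp only [Set.mem_image, Set.mem_iUnion, Set.mem_preimage]
    constructor
    · rintro ⟨⟨x, w⟩, h1, rfl⟩
      obtain ⟨i, m, rfl⟩ := S.cover x
      obtain ⟨t, ht⟩ := (A i).surj m
      have ht' : t ∈ Pre S A i := by
        change (A i).p t ∈ Dom (S.e i)
        rw [ht]
        exact m.2
      refine ⟨i, w * (inc (G := G) i (ai i t))⁻¹, ⟨t, ht'⟩, ?_, ?_⟩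
      · have : gm S A ai i (w * (inc (G := G) i (ai i t))⁻¹) ⟨t, ht'⟩ = (S.j i m, w) := by
          refine Prod.ext ?_ ?_
          · exact congrArg (S.j i) (Subtype.ext ht)
          · exact inv_mul_cancel_right _ _
        rw [this]
        exact h1
      · exact congrArg (S.j i) (Subtype.ext ht)
    · rintro ⟨i, w, t, h1, rfl⟩
      exact ⟨gm S A ai i w t, h1, rfl⟩
  rw [h]
  exact isOpen_iUnion fun i => isOpen_iUnion fun w =>
    isOpenMap_jp S A i _ ((isOpen_iff S A ai O).1 hO i w)

lemma exists_gm (z : TS S A ai) : ∃ i w t, gm S A ai i w t = z := by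
  obtain ⟨x, w⟩ := z
  obtain ⟨i, m, rfl⟩ := S.cover x
  obtain ⟨t, ht⟩ := (A i).surj m
  have ht' : t ∈ Pre S A i := by
    change (A i).p t ∈ Dom (S.e i)
    rw [ht]
    exact m.2
  refine ⟨i, w * (inc (G := G) i (ai i t))⁻¹, ⟨t, ht'⟩, Prod.ext ?_ ?_⟩
  · exact congrArg (S.j i) (Subtype.ext ht)
  · exact inv_mul_cancel_right _ _

/-- The translates of the inclusions are open. -/
lemma isOpenMap_gm (hai : ∀ i (g : G i) t, ai i (g • t) = g * ai i t)
    (el : ∀ i, C(R3, (A i).T)) (hel : ∀ i v, (A i).p (el i v) = S.e i v)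
    (hai1 : ∀ i v, ai i (el i v) = 1) (i : Bool) (w : FP G) : IsOpenMap (gm S A ai i w) := by
  intro O hO
  obtain ⟨O', hO', rfl⟩ := isOpen_induced_iff.1 hO
  rw [isOpen_iff]
  intro k w'
  by_cases hik : i = k
  · subst hik
    have h : gm S A ai i w' ⁻¹' (gm S A ai i w '' (Subtype.val ⁻¹' O')) =
        ⋃ g : G i, ⋃ _ : w * inc (G := G) i g = w',
          (fun t : Pre S A i => g • (t : (A i).T)) ⁻¹' O' := by
      ext t'
      simp only [Set.mem_preimage, Set.mem_image, Set.mem_iUnion]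
      constructor
      · rintro ⟨t, h1, h2⟩
        have h3 : (A i).p t'.1 = (A i).p t.1 :=
          (congrArg Subtype.val ((S.jemb i).injective (congrArg Prod.fst h2))).symm
        obtain ⟨g, hg⟩ := ((A i).orbit _ _).1 h3
        refine ⟨g, ?_, ?_⟩
        · have h4 : w * inc (G := G) i (ai i t.1) = w' * inc (G := G) i (ai i t'.1) :=
            congrArg Prod.snd h2
          rw [← hg, hai, map_mul, ← mul_assoc] at h4
          exact mul_right_cancel h4
        · rw [hg]
          exact h1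
      · rintro ⟨g, h1, h2⟩
        have h3 : g • (t' : (A i).T) ∈ Pre S A i := by
          change (A i).p _ ∈ Dom (S.e i)
          rw [p_smul]
          exact t'.2
        refine ⟨⟨g • (t' : (A i).T), h3⟩, h2, Prod.ext ?_ ?_⟩
        · exact congrArg (S.j i) (Subtype.ext (p_smul _ _ _))
        · change w * inc (G := G) i (ai i (g • t'.1)) = w' * inc (G := G) i (ai i t'.1)
          rw [hai, map_mul, ← mul_assoc, h1]
    rw [h]
    exact isOpen_iUnion fun g => isOpen_iUnion fun _ =>
      hO'.preimage ((continuous_const_smul g).comp continuous_subtype_val)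
  · have hopen : IsOpenMap (el k) := by
      refine (IsLocalHomeomorph.of_comp (g := (A k).p) (f := el k) ?_
        (A k).cov.isLocalHomeomorph (el k).continuous).isOpenMap
      have : (A k).p ∘ el k = S.e k := funext (hel k)
      rw [this]
      exact (S.emb k).isLocalHomeomorph
    have h : gm S A ai k w' ⁻¹' (gm S A ai i w '' (Subtype.val ⁻¹' O')) =
        ⋃ g : G i, ⋃ g' : G k, ⋃ _ : w * inc (G := G) i g = w' * inc (G := G) k g',
          Subtype.val ⁻¹' ((fun t => g' • t) ''
            (el k '' (inv3 '' (((fun v => g • el i v) ⁻¹' O') ∩ Ann)))) := by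
      ext t'
      simp only [Set.mem_preimage, Set.mem_image, Set.mem_iUnion, Set.mem_inter_iff]
      constructor
      · rintro ⟨t, h1, h2⟩
        obtain ⟨v, hv, h3, h4⟩ := (glue' S hik _ _).1 (congrArg Prod.fst h2)
        obtain ⟨g, hg⟩ := ((A i).orbit (el i v) t.1).1 ((hel i v).trans h3.symm)
        obtain ⟨g', hg'⟩ := ((A k).orbit (el k (inv3 v)) t'.1).1 ((hel k _).trans h4.symm)
        refine ⟨g, g', ?_, el k (inv3 v), ⟨inv3 v, ⟨v, ⟨?_, hv⟩, rfl⟩, rfl⟩, hg'⟩
        · have h5 : w * inc (G := G) i (ai i t.1) = w' * inc (G := G) k (ai k t'.1) :=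
            congrArg Prod.snd h2
          rw [← hg, ← hg', hai, hai, hai1, hai1, mul_one, mul_one] at h5
          exact h5
        · rw [hg]
          exact h1
      · rintro ⟨g, g', h1, _, ⟨_, ⟨v, ⟨h2, hv⟩, rfl⟩, rfl⟩, h3⟩
        have h4 : (A i).p (g • el i v) = S.e i v := by rw [p_smul, hel]
        have h4' : (A k).p t'.1 = S.e k (inv3 v) := by rw [← h3, p_smul, hel]
        have h5 : g • el i v ∈ Pre S A i := by
          change (A i).p _ ∈ Dom (S.e i)
          rw [h4]
          rintro ⟨u, hu, hu'⟩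
          rw [(S.emb i).injective hu'] at hu
          have := hv.1
          rw [mem_closedBall_zero_iff] at hu
          linarith
        refine ⟨⟨g • el i v, h5⟩, h2, Prod.ext ?_ ?_⟩
        · exact (glue' S hik _ _).2 ⟨v, hv, h4, h4'⟩
        · change w * inc (G := G) i (ai i (g • el i v)) = w' * inc (G := G) k (ai k t'.1)
          rw [← h3, hai, hai, hai1, hai1, mul_one, mul_one, h1]
    rw [h]
    refine isOpen_iUnion fun g => isOpen_iUnion fun g' => isOpen_iUnion fun _ => ?_
    refine IsOpen.preimage continuous_subtype_val ?_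
    refine isOpenMap_smul g' _ (hopen _ (isOpen_image_inv3 ?_))
    exact hO'.preimage ((continuous_const_smul g).comp (el i).continuous)

end GlueM

open GlueM in
theorem specGlue : SpecGlue := by
  intro G _ M _ _ X _ S A el hel
  have h0 := fun i => exists_coord (A i) (S.emb i).injective (el i) (hel i)
  choose ai hai hai1 using h0
  have horb : ∀ {x y : TS S A ai}, pr S A ai x = pr S A ai y ↔
      x ∈ MulAction.orbit (FP G) y := by
    intro x y
    constructor
    · intro h
      refine ⟨x.2 * y.2⁻¹, Prod.ext h.symm ?_⟩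
      exact inv_mul_cancel_right _ _
    · rintro ⟨g, rfl⟩
      rfl
  have hdis : ∀ z : TS S A ai, ∃ U ∈ 𝓝 z, ∀ g : FP G, ((g • ·) '' U ∩ U).Nonempty → g = 1 := by
    intro z
    obtain ⟨i, w, t, rfl⟩ := exists_gm S A ai z
    obtain ⟨O, hO, hO1, hO2⟩ := (A i).cov.isLocalHomeomorph.isLocallyInjective t.1
    refine ⟨gm S A ai i w '' (Subtype.val ⁻¹' O), ?_, ?_⟩
    · exact (isOpenMap_gm S A ai hai el hel hai1 i w _
        (hO.preimage continuous_subtype_val)).mem_nhds ⟨t, hO1, rfl⟩
    · rintro g ⟨_, ⟨_, ⟨t1, ht1, rfl⟩, rfl⟩, t2, ht2, h⟩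
      have h : gm S A ai i w t2 = g • gm S A ai i w t1 := h
      rw [smul_gm] at h
      have h3 : (A i).p t2.1 = (A i).p t1.1 :=
        congrArg Subtype.val ((S.jemb i).injective (congrArg Prod.fst h))
      have h4 : t2.1 = t1.1 := hO2 ht2 ht1 h3
      have h5 : w * inc (G := G) i (ai i t2.1) = (g * w) * inc (G := G) i (ai i t1.1) :=
        congrArg Prod.snd h
      rw [h4] at h5
      have h6 := mul_right_cancel h5
      exact mul_eq_right.1 h6.symm
  have hsurj : Function.Surjective (pr S A ai) := fun x => ⟨(x, 1), rfl⟩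
  have hq : IsQuotientCoveringMap (pr S A ai) (FP G) :=
    { toIsQuotientMap := (isOpenMap_pr S A ai).isQuotientMap (continuous_pr S A ai) hsurj
      toContinuousConstSMul := inferInstance
      apply_eq_iff_mem_orbit := horb
      disjoint := hdis }
  let C : GCov (FP G) X :=
    { T := TS S A ai
      p := ⟨pr S A ai, continuous_pr S A ai⟩
      cov := hq.isCoveringMap
      surj := hsurj
      orbit := fun x y => by
        constructor
        · intro h
          exact horb.1 h.symm
        · intro h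
          exact (horb.2 h).symm
      free := fun g x h => by
        have h1 : g * x.2 = x.2 := congrArg Prod.snd h
        exact mul_eq_right.1 h1 }
  refine ⟨{ C := C, J := fun i => ⟨gm S A ai i 1, continuous_gm S A ai i 1⟩, pJ := fun i t => rfl,
            eqv := fun i g t t' h => ?_, mat := fun v t t' h1 h2 h3 h4 => ?_ }⟩
  · refine Prod.ext ?_ ?_
    · refine congrArg (S.j i) (Subtype.ext ?_)
      change (A i).p t'.1 = (A i).p t.1
      rw [h, p_smul]
    · change 1 * inc (G := G) i (ai i t'.1) = inc (G := G) i g * (1 * inc (G := G) i (ai i t.1))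
      rw [h, hai, map_mul, one_mul, one_mul]
  · refine Prod.ext ?_ ?_
    · refine (S.glue _ _).2 ⟨v, h1, h2, ?_, ?_⟩
      · change (A false).p t.1 = _
        rw [h3, hel]
      · change (A true).p t'.1 = _
        rw [h4, hel]
    · change 1 * inc (G := G) false (ai false t.1) = 1 * inc (G := G) true (ai true t'.1)
      rw [h3, h4, hai1, hai1, map_one, map_one]

end TCMM
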