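import Pool.Agent.Lib.MP_ab96eb_gt.Spec
import Pool.Agent.Lib.MP_b00168_gt.ZC

set_option autoImplicit false

/-!
# MP_ab96eb_gt : module HOM
The equivariant chain map defined by `ψ` is homotopic to `288` times the identity.
-/

namespace TCMM

open MPb00168

namespace HomM

lemma vt_face {T : Type} [TopologicalSpace T] {k : ℕ} (i : Fin (k + 2)) (τ : Sing T (k + 1)) :
    vt (face i τ) = vt τ ∘ i.succAbove := by
  funext m
  exact congrArg τ (congrFun (SS.faceMap_vertsD k i) m)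

variable {H : Type} [Group H] {X : Type} [TopologicalSpace X] {C : GCov H X}

lemma smC_mul (g g' : H) : smC C (g * g') = (smC C g).comp (smC C g') := by
  ext t
  exact mul_smul g g' t

lemma push_smC_mul (g g' : H) {k : ℕ} (c : Chain C.T k) :
    push (smC C (g * g')) c = push (smC C g) (push (smC C g') c) := by
  rw [smC_mul, push_comp]

lemma smC_one : smC C (1 : H) = ContinuousMap.id C.T := by
  ext t
  exact one_smul H t

lemma p_comp_smC (g : H) : C.p.comp (smC C g) = C.p := by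
  ext t
  exact ((C.orbit t (g • t)).2 ⟨g, rfl⟩).symm

lemma push_p_smC (g : H) {k : ℕ} (c : Chain C.T k) :
    push C.p (push (smC C g) c) = push C.p c := by
  rw [← push_comp, p_comp_smC]

/-- Equivariant linear maps. -/
def Eqv {n m : ℕ} (L : Chain C.T n →ₗ[ℤ] Chain C.T m) : Prop :=
  ∀ (g : H) (c : Chain C.T n), L (push (smC C g) c) = push (smC C g) (L c)

lemma eqv_of {n m : ℕ} (h : Sing C.T n → Chain C.T m)
    (hh : ∀ (g : H) τ, h ((smC C g).comp τ) = push (smC C g) (h τ)) :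
    Eqv (Finsupp.linearCombination ℤ h) := by
  intro g c
  have := linext_apply (f := (Finsupp.linearCombination ℤ h).comp (push (smC C g)))
    (g := (push (smC C g)).comp (Finsupp.linearCombination ℤ h)) (c := c) (by
      intro τ
      simp [hh])
  simpa using this

/-- Equivariant choice. -/
lemma eqv_choice (a : C.T → H) (ha : ∀ (g : H) t, a (g • t) = g * a t) {n m : ℕ}
    (P : Sing C.T n → Chain C.T m → Prop) (hP : ∀ τ, ∃ b, P τ b)
    (hg : ∀ (g : H) τ b, P τ b → P ((smC C g).comp τ) (push (smC C g) b)) :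
    ∃ h : Sing C.T n → Chain C.T m, (∀ τ, P τ (h τ)) ∧
      ∀ (g : H) τ, h ((smC C g).comp τ) = push (smC C g) (h τ) := by
  choose K hK using hP
  refine ⟨fun τ => push (smC C (a (vt τ 0))) (K ((smC C (a (vt τ 0))⁻¹).comp τ)), ?_, ?_⟩
  · intro τ
    have h1 := hg (a (vt τ 0)) _ _ (hK ((smC C (a (vt τ 0))⁻¹).comp τ))
    rw [← ContinuousMap.comp_assoc, ← smC_mul, mul_inv_cancel, smC_one,
      ContinuousMap.id_comp] at h1
    exact h1
  · intro g τ
    have h1 : a (vt ((smC C g).comp τ) 0) = g * a (vt τ 0) := ha g _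
    simp only [h1]
    rw [push_smC_mul, ← ContinuousMap.comp_assoc, ← smC_mul, mul_inv_rev, inv_mul_cancel_right]

/-- One step of the construction of the homotopy. -/
lemma step (hA : Acyc C.T) (a : C.T → H) (ha : ∀ (g : H) t, a (g • t) = g * a t) {n : ℕ}
    (F : Chain C.T n →ₗ[ℤ] Chain C.T n) (F' : Chain C.T (n + 1) →ₗ[ℤ] Chain C.T (n + 1))
    (hF' : Eqv F') (hFF : ∀ c, bd (F' c) = F (bd c))
    (L : Chain C.T n →ₗ[ℤ] Chain C.T (n + 1)) (hL : Eqv L)
    (hb : ∀ c : Chain C.T (n + 1), bd (L (bd c)) = F (bd c)) :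
    ∃ L' : Chain C.T (n + 1) →ₗ[ℤ] Chain C.T (n + 2), Eqv L' ∧
      ∀ c, bd (L' c) = F' c - L (bd c) := by
  obtain ⟨h, h1, h2⟩ := eqv_choice a ha
    (fun (τ : Sing C.T (n + 1)) (b : Chain C.T (n + 2)) =>
      bd b = F' (Finsupp.single τ 1) - L (bd (Finsupp.single τ 1))) (by
      intro τ
      apply hA.1 n
      rw [map_sub, hFF, hb, sub_self]) (by
      intro g τ b hb
      have e : (Finsupp.single ((smC C g).comp τ) (1 : ℤ) : Chain C.T (n + 1)) =
        push (smC C g) (Finsupp.single τ 1) := by rw [push_single]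
      rw [← push_bd, hb, e, hF', ← push_bd, hL, map_sub])
  refine ⟨Finsupp.linearCombination ℤ h, eqv_of h h2, fun c => ?_⟩
  have := linext_apply (f := bd.comp (Finsupp.linearCombination ℤ h)) (g := F' - L.comp bd)
    (c := c) (by
      intro τ
      simp only [LinearMap.comp_apply, Finsupp.linearCombination_single, one_smul, h1,
        LinearMap.sub_apply])
  simpa using this

/-- The first step. -/
lemma step0 (hA : Acyc C.T) (a : C.T → H) (ha : ∀ (g : H) t, a (g • t) = g * a t)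
    (F : Chain C.T 0 →ₗ[ℤ] Chain C.T 0) (hF : Eqv F)
    (h0 : ∀ τ, ((F (Finsupp.single τ 1)).sum fun _ x => x) = 0) :
    ∃ L : Chain C.T 0 →ₗ[ℤ] Chain C.T 1, Eqv L ∧ ∀ c, bd (L c) = F c := by
  obtain ⟨h, h1, h2⟩ := eqv_choice a ha
    (fun (τ : Sing C.T 0) (b : Chain C.T 1) => bd b = F (Finsupp.single τ 1)) (by
      intro τ
      exact hA.2 _ (h0 τ)) (by
      intro g τ b hb
      have e : (Finsupp.single ((smC C g).comp τ) (1 : ℤ) : Chain C.T 0) =
        push (smC C g) (Finsupp.single τ 1) := by rw [push_single]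
      rw [← push_bd, hb, e, hF])
  refine ⟨Finsupp.linearCombination ℤ h, eqv_of h h2, fun c => ?_⟩
  have := linext_apply (f := bd.comp (Finsupp.linearCombination ℤ h)) (g := F)
    (c := c) (by
      intro τ
      simp only [LinearMap.comp_apply, Finsupp.linearCombination_single, one_smul, h1])
  simpa using this

/-- Equivariant maps descend to chains of `X`. -/
lemma push_zero (hL : ∀ {k : ℕ} (σ : Sing X k), ∃ τ : Sing C.T k, C.p.comp τ = σ)
    (hU : ∀ {k : ℕ} (τ τ' : Sing C.T k), C.p.comp τ = C.p.comp τ' → ∃ g : H, ∀ t, τ' t = g • τ t)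
    {n m : ℕ} (L : Chain C.T n →ₗ[ℤ] Chain C.T m) (h : Eqv L) (w : Chain C.T n)
    (hw : push C.p w = 0) : push C.p (L w) = 0 := by
  choose lf hlf using fun σ : Sing X n => hL σ
  have := linext_apply (f := (push C.p).comp L)
    (g := (Finsupp.linearCombination ℤ fun σ => push C.p (L (Finsupp.single (lf σ) 1))).comp
      (push C.p)) (c := w) (by
      intro τ
      obtain ⟨g, hg⟩ := hU τ (lf (C.p.comp τ)) (hlf _).symm
      have e : lf (C.p.comp τ) = (smC C g).comp τ := by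
        ext t
        exact hg t
      simp only [LinearMap.comp_apply, push_single, Finsupp.linearCombination_single, one_smul, e]
      rw [← push_single (smC C g) τ 1, h, push_p_smC])
  rw [LinearMap.comp_apply, LinearMap.comp_apply, hw, map_zero] at this
  exact this

/-- The chain map defined by `ψ`. -/
noncomputable def Ph (a : C.T → H) (ψ : ∀ n : ℕ, (Fin (n + 1) → H) → Chain C.T n) (n : ℕ) :
    Chain C.T n →ₗ[ℤ] Chain C.T n :=
  Finsupp.linearCombination ℤ fun τ => ψ n (a ∘ vt τ)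

lemma Ph_eqv (a : C.T → H) (ha : ∀ (g : H) t, a (g • t) = g * a t)
    (ψ : ∀ n : ℕ, (Fin (n + 1) → H) → Chain C.T n) (hψ : Psi C ψ) (n : ℕ) : Eqv (Ph a ψ n) := by
  apply eqv_of
  intro g τ
  rw [← hψ.eqv]
  congr 1
  funext m
  exact ha g _

lemma bd_Ph (a : C.T → H) (ψ : ∀ n : ℕ, (Fin (n + 1) → H) → Chain C.T n) (hψ : Psi C ψ) (n : ℕ)
    (c : Chain C.T (n + 1)) :
    bd (Ph a ψ (n + 1) c) = ((n + 2).factorial : ℤ) • Ph a ψ n (bd c) := by
  have := linext_apply (f := bd.comp (Ph a ψ (n + 1)))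
    (g := ((n + 2).factorial : ℤ) • (Ph a ψ n).comp bd) (c := c) (by
      intro τ
      simp only [LinearMap.comp_apply, LinearMap.smul_apply, Ph,
        Finsupp.linearCombination_single, one_smul, bd_single, map_sum, map_smul, hψ.bdy, vt_face]
      rfl)
  simpa using this

/-- The difference. -/
noncomputable def Fd (a : C.T → H) (ψ : ∀ n : ℕ, (Fin (n + 1) → H) → Chain C.T n) (n : ℕ)
    (κ : ℤ) : Chain C.T n →ₗ[ℤ] Chain C.T n :=
  κ • Ph a ψ n - (288 : ℤ) • LinearMap.id

lemma Fd_eqv (a : C.T → H) (ha : ∀ (g : H) t, a (g • t) = g * a t)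
    (ψ : ∀ n : ℕ, (Fin (n + 1) → H) → Chain C.T n) (hψ : Psi C ψ) (n : ℕ) (κ : ℤ) :
    Eqv (Fd a ψ n κ) := by
  intro g c
  simp only [Fd, LinearMap.sub_apply, LinearMap.smul_apply, LinearMap.id_apply, map_sub, map_smul,
    Ph_eqv a ha ψ hψ n g c]

lemma bd_Fd (a : C.T → H) (ψ : ∀ n : ℕ, (Fin (n + 1) → H) → Chain C.T n) (hψ : Psi C ψ) (n : ℕ)
    (κ κ' : ℤ) (h : κ' * ((n + 2).factorial : ℤ) = κ) (c : Chain C.T (n + 1)) :
    bd (Fd a ψ (n + 1) κ' c) = Fd a ψ n κ (bd c) := by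
  simp only [Fd, LinearMap.sub_apply, LinearMap.smul_apply, LinearMap.id_apply, map_sub, map_smul,
    bd_Ph a ψ hψ]
  rw [smul_smul, h]

end HomM

open HomM in
/-- module HOM -/
theorem specHom (hLift : SpecLift) : SpecHom := by
  intro H _ X _ C hA ψ hψ a ha z hz
  have hL : ∀ {k : ℕ} (σ : Sing X k), ∃ τ : Sing C.T k, C.p.comp τ = σ :=
    fun {k} => (hLift H X C k).1
  have hU : ∀ {k : ℕ} (τ τ' : Sing C.T k), C.p.comp τ = C.p.comp τ' →
    ∃ g : H, ∀ t, τ' t = g • τ t := fun {k} => (hLift H X C k).2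
  obtain ⟨L0, e0, b0⟩ := step0 hA a ha (Fd a ψ 0 288) (Fd_eqv a ha ψ hψ 0 288) (by
    intro τ
    have e : Fd a ψ 0 288 (Finsupp.single τ 1) =
        (288 : ℤ) • (ψ 0 (a ∘ vt τ) - Finsupp.single τ 1) := by
      simp only [Fd, Ph, LinearMap.sub_apply, LinearMap.smul_apply, LinearMap.id_apply,
        Finsupp.linearCombination_single, one_smul, smul_sub]
    rw [e, Finsupp.sum_smul_index' (fun _ => rfl)]
    have h2 : ((ψ 0 (a ∘ vt τ) - Finsupp.single τ 1).sum fun _ x => x) = 0 := by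
      rw [Finsupp.sum_sub_index (fun _ _ _ => rfl), hψ.aug, Finsupp.sum_single_index rfl, sub_self]
    rw [Finsupp.sum] at h2 ⊢
    rw [← Finset.smul_sum, h2, smul_zero])
  obtain ⟨L1, e1, b1⟩ := step hA a ha (Fd a ψ 0 288) (Fd a ψ 1 144) (Fd_eqv a ha ψ hψ 1 144)
    (bd_Fd a ψ hψ 0 288 144 (by norm_num [Nat.factorial])) L0 e0 (fun c => b0 _)
  obtain ⟨L2, e2, b2⟩ := step hA a ha (Fd a ψ 1 144) (Fd a ψ 2 24) (Fd_eqv a ha ψ hψ 2 24)
    (bd_Fd a ψ hψ 1 144 24 (by norm_num [Nat.factorial])) L1 e1 (fun c => by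
      rw [b1, bd_bd, map_zero, sub_zero])
  obtain ⟨L3, e3, b3⟩ := step hA a ha (Fd a ψ 2 24) (Fd a ψ 3 1) (Fd_eqv a ha ψ hψ 3 1)
    (bd_Fd a ψ hψ 2 24 1 (by norm_num [Nat.factorial])) L2 e2 (fun c => by
      rw [b2, bd_bd, map_zero, sub_zero])
  -- the lift of the cycle
  let lf : Sing X 3 → Sing C.T 3 := fun σ => (hL σ).choose
  have hlf : ∀ σ, C.p.comp (lf σ) = σ := fun σ => (hL σ).choose_spec
  have hlft : ∀ σ : Sing X 3, lft C σ = vt (lf σ) := by
    intro σ
    unfold lft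
    rw [dif_pos (hL σ)]
  let zt : Chain C.T 3 := Finsupp.linearCombination ℤ (fun σ => Finsupp.single (lf σ) (1 : ℤ)) z
  have hzt : push C.p zt = z := by
    have := linext_apply (f := (push C.p).comp
      (Finsupp.linearCombination ℤ (fun σ => (Finsupp.single (lf σ) (1 : ℤ) : Chain C.T 3))))
      (g := LinearMap.id) (c := z) (by
        intro σ
        simp [hlf])
    simpa using this
  have h1 : push C.p (L2 (bd zt)) = 0 := by
    apply push_zero hL hU L2 e2
    rw [push_bd, hzt, hz]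
  have h2 := congrArg (push C.p) (b3 zt)
  rw [map_sub, h1, sub_zero, push_bd] at h2
  refine ⟨push C.p (L3 zt), ?_⟩
  rw [h2]
  have h3 : Fd a ψ 3 1 zt = Ph a ψ 3 zt - (288 : ℤ) • zt := by
    simp only [Fd, LinearMap.sub_apply, LinearMap.smul_apply, LinearMap.id_apply, one_smul]
  rw [h3, map_sub, map_smul, hzt, add_sub_cancel]
  have := linext_apply (f := Finsupp.linearCombination ℤ
      (fun σ : Sing X 3 => push C.p (ψ 3 (a ∘ lft C σ))))
      (g := ((push C.p).comp (Ph a ψ 3)).comp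
        (Finsupp.linearCombination ℤ (fun σ => (Finsupp.single (lf σ) (1 : ℤ) : Chain C.T 3))))
        (c := z) (by
        intro σ
        simp [Ph, hlft])
  simpa using this

end TCMM
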