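import Pool.Agent.Lib.MP_ab96eb_gt.Spec
import Pool.Agent.Lib.MP_b00168_gt.Local
import Pool.Agent.Lib.MP_b00168_gt.SDT
import Pool.Agent.Lib.MP_b00168_gt.ZC

section
set_option autoImplicit false

/-!
# MP_ab96eb_gt : module SPLIT
-/

namespace TCMM

open MPb00168 MPb00168.Local

namespace SplitM

theorem hSS : SpecSS.{0} := specSS specSdMap specSdHomot

/-- The inverse of an embedding on its range, as a continuous map. -/
noncomputable def invMap {Y X : Type} [TopologicalSpace Y] [TopologicalSpace X] (f : C(Y, X))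
    (hf : Topology.IsEmbedding f) : C(Set.range f, Y) :=
  ⟨hf.toHomeomorph.symm, hf.toHomeomorph.symm.continuous⟩

theorem apply_invMap {Y X : Type} [TopologicalSpace Y] [TopologicalSpace X] (f : C(Y, X))
    (hf : Topology.IsEmbedding f) (w : Set.range f) : f (invMap f hf w) = w := by
  have h := hf.toHomeomorph.apply_symm_apply w
  exact congrArg Subtype.val h

theorem push_lft {T M : Type} [TopologicalSpace T] [TopologicalSpace M] {W : Set M}
    (s : C(W, T)) (p : C(T, M)) (hs : ∀ w : W, p (s w) = w) {k : ℕ} {c : Chain M k}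
    (hc : c ∈ S W k) : push p (Local.lft s c) = c := by
  refine lin_eq ((push p).comp (Local.lft s)) LinearMap.id {σ | Set.range σ ⊆ W} (fun σ hσ => ?_) hc
  have h : ∀ t, σ t ∈ W := fun t => hσ ⟨t, rfl⟩
  rw [LinearMap.comp_apply, lft_single s σ h, Local.push_single, LinearMap.id_apply]
  congr 1
  ext t
  exact hs _

/-- A chain supported in the range of an embedding comes from a chain of the source. -/
theorem exists_push {Y X : Type} [TopologicalSpace Y] [TopologicalSpace X] (f : C(Y, X))
    (hf : Topology.IsEmbedding f) {k : ℕ} {c : Chain X k} (hc : c ∈ S (Set.range f) k) :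
    ∃ d : Chain Y k, push f d = c :=
  ⟨Local.lft (invMap f hf) c, push_lft _ f (apply_invMap f hf) hc⟩

/-- A chain supported in the image of a set comes from a chain supported in this set. -/
theorem exists_push_mem {Y X : Type} [TopologicalSpace Y] [TopologicalSpace X] (f : C(Y, X))
    (hf : Topology.IsEmbedding f) (A : Set Y) {k : ℕ} {c : Chain X k} (hc : c ∈ S (f '' A) k) :
    ∃ d : Chain Y k, d ∈ S A k ∧ push f d = c := by
  have hc' : c ∈ S (Set.range f) k := S_mono (Set.image_subset_range f A) k hc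
  refine ⟨Local.lft (invMap f hf) c, lft_mem _ ?_ hc' hc, push_lft _ f (apply_invMap f hf) hc'⟩
  rintro w ⟨a, ha, haw⟩
  have h1 : f (invMap f hf w) = f a := by rw [apply_invMap, haw]
  rw [hf.injective h1]
  exact ha

theorem push_inj {Y X : Type} [TopologicalSpace Y] [TopologicalSpace X] (f : C(Y, X))
    (hf : Function.Injective f) (k : ℕ) : Function.Injective (push f : Chain Y k → Chain X k) := by
  apply Finsupp.mapDomain_injective
  intro σ τ h
  ext t
  exact hf (congrArg (fun ρ : Sing X k => ρ t) h)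

/-- Iterated subdivision of a cycle is a homologous cycle. -/
theorem SdI_hom {X : Type} [TopologicalSpace X] {k : ℕ} (c : Chain X (k + 1)) (hc : bd c = 0)
    (r : ℕ) : ∃ b : Chain X (k + 2), bd b = SdI r c - c := by
  obtain ⟨T, hT, -, -⟩ := (hSS X).2.2
  induction r with
  | zero => exact ⟨0, by rw [SdI_zero, sub_self, map_zero]⟩
  | succ r ih =>
      obtain ⟨b, hb⟩ := ih
      refine ⟨T (k + 1) (SdI r c) + b, ?_⟩
      have h1 : bd (SdI r c) = 0 := by rw [bd_SdI hSS, hc, map_zero]
      rw [map_add, hT, h1, map_zero, sub_zero, hb, SdI_succ]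
      abel

theorem isOrient_of_hom {X : Type} [TopologicalSpace X] {c c' : Chain X 3} (h : IsOrient c)
    (b : Chain X 4) (hb : bd b = c' - c) : IsOrient c' := by
  have hc' : c' = c + bd b := by rw [hb]; abel
  refine ⟨by rw [hc', map_add, h.1, bd_bd, add_zero], ?_⟩
  rintro x k hk ⟨b', e, he, hbe⟩
  refine h.2 x k hk ⟨b' - k • b, e, he, ?_⟩
  have h1 : k • c = k • c' - k • bd b := by rw [hc', smul_add]; abel
  rw [h1, hbe, map_sub, map_smul]
  abel

theorem isOrient_SdI {X : Type} [TopologicalSpace X] {c : Chain X 3} (h : IsOrient c) (r : ℕ) :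
    IsOrient (SdI r c) := by
  obtain ⟨b, hb⟩ := SdI_hom c h.1 r
  exact isOrient_of_hom h b hb

end SplitM

open SplitM in
theorem specSplit : SpecSplit := by
  intro M _ X _ _ S c hc ε hε
  classical
  obtain ⟨r, hr⟩ := specSmall X
    {U : Set X | ∃ (i : Bool) (x : X), U = Set.range (S.j i) ∩ Metric.ball x (ε / 2)}
    (by
      rintro _ ⟨i, x, rfl⟩
      exact (S.jemb i).isOpen_range.inter Metric.isOpen_ball)
    (by
      intro x
      obtain ⟨i, m, hm⟩ := S.cover x
      exact ⟨_, ⟨i, x, rfl⟩, ⟨m, hm⟩, Metric.mem_ball_self (by linarith)⟩) 3 c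
  have hr' := hr r le_rfl
  rw [SdI_coe] at hr'
  have hsmall : SmallCh ε (SdI r c) := by
    intro σ hσ s t
    obtain ⟨U, ⟨i, x, rfl⟩, hU⟩ := hr' σ hσ
    have h1 := (hU ⟨s, rfl⟩).2
    have h2 := (hU ⟨t, rfl⟩).2
    rw [Metric.mem_ball] at h1 h2
    have h3 := dist_triangle_right (σ s) (σ t) x
    linarith
  obtain ⟨c0, c1, h0, h1, h01⟩ := Local.split (Set.range (S.j false)) (Set.range (S.j true))
    (SdI r c) (by
      intro σ hσ
      obtain ⟨U, ⟨i, x, rfl⟩, hU⟩ := hr' σ hσ
      cases i
      · exact Or.inl fun y hy => (hU hy).1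
      · exact Or.inr fun y hy => (hU hy).1)
  obtain ⟨k0, hk0⟩ := exists_push (jC S false) (S.jemb false).isEmbedding (c := c0) h0
  obtain ⟨k1, hk1⟩ := exists_push (jC S true) (S.jemb true).isEmbedding (c := c1) h1
  refine ⟨fun i => match i with
    | false => k0
    | true => k1, ?_, ?_⟩
  · change IsOrient (push (jC S false) k0 + push (jC S true) k1)
    rw [hk0, hk1, ← h01]
    exact isOrient_SdI hc r
  · change SmallCh ε (push (jC S false) k0 + push (jC S true) k1)
    rw [hk0, hk1, ← h01]
    exact hsmall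

end TCMM
end

section
set_option autoImplicit false

/-!
# MP_ab96eb_gt : module NONBD
-/

namespace TCMM

open MPb00168 MPb00168.Local SplitM

namespace NonbdM

theorem mem_of_push_mem {Y X : Type} [TopologicalSpace Y] [TopologicalSpace X] (f : C(Y, X))
    (hf : Function.Injective f) {k : ℕ} {w : Chain Y k} {B : Set X} {A : Set Y}
    (hA : ∀ y, f y ∈ B → y ∈ A) (hw : push f w ∈ S B k) : w ∈ S A k := by
  classical
  intro σ hσ
  have hinj : Function.Injective fun τ : Sing Y k => f.comp τ := by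
    intro τ τ' h
    ext t
    exact hf (congrArg (fun ρ : Sing X k => ρ t) h)
  have h1 : f.comp σ ∈ (push f w).support := by
    have h2 : push f w = Finsupp.mapDomain (fun τ : Sing Y k => f.comp τ) w := rfl
    rw [h2, Finsupp.mapDomain_support_of_injective hinj]
    exact Finset.mem_image_of_mem _ hσ
  rintro _ ⟨t, rfl⟩
  exact hA _ (hw _ h1 ⟨t, rfl⟩)

theorem push_mem_range {Y X : Type} [TopologicalSpace Y] [TopologicalSpace X] (f : C(Y, X))
    {k : ℕ} (c : Chain Y k) : push f c ∈ S (Set.range f) k :=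
  push_mem f (Y := Set.univ) (Y' := Set.range f) (fun y _ => ⟨y, rfl⟩)
    (fun _ _ => Set.subset_univ _)

theorem norm_inv3 (v : R3) : ‖inv3 v‖ = ‖v‖⁻¹ := by
  unfold inv3
  rw [norm_smul, norm_inv, norm_pow, norm_norm]
  by_cases h : ‖v‖ = 0
  · rw [h]; simp
  · field_simp

variable {M : Bool → Type} [∀ i, TopologicalSpace (M i)] {X : Type} [TopologicalSpace X]

/-- The overlap of the two pieces lies in the ball of radius 2 of the chart. -/
theorem overlap (S : ConnSum M X) (i : Bool) (m : Dom (S.e i)) (h : S.j i m ∈ Set.range (S.j !i)) :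
    ∃ v : R3, ‖v‖ < 2 ∧ S.e i v = m := by
  obtain ⟨m', hm'⟩ := h
  cases i
  · obtain ⟨v, -, h2, h3, -⟩ := (S.glue m m').1 hm'.symm
    exact ⟨v, h2, h3.symm⟩
  · obtain ⟨v, h1, -, -, h3⟩ := (S.glue m' m).1 hm'
    refine ⟨inv3 v, ?_, h3.symm⟩
    rw [norm_inv3]
    have h4 : (0 : ℝ) < 1 / 2 := by norm_num
    calc ‖v‖⁻¹ < (1 / 2 : ℝ)⁻¹ := by
          exact inv_strictAnti₀ h4 h1
      _ = 2 := by norm_num

theorem main (hA : SpecAcy) [∀ i, T2Space (M i)] (S : ConnSum M X) (i : Bool)
    (k : Chain (Dom (S.e i)) 3) (k' : Chain (Dom (S.e !i)) 3)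
    (hz : IsOrient (push (jC S i) k + push (jC S !i) k')) :
    ∃ b : Chain R3 3, bd (push (incD (S.e i)) k + push (eC S i) b) = 0 ∧
      ∀ n : ℤ, n ≠ 0 → ¬ ∃ t : Chain (M i) 4,
        bd t = n • (push (incD (S.e i)) k + push (eC S i) b) := by
  classical
  have einj : Function.Injective (eC S i) := (S.emb i).injective
  have dinj : Function.Injective (incD (S.e i)) := Subtype.val_injective
  have jinj : Function.Injective (jC S i) := (S.jemb i).injective
  have demb : Topology.IsEmbedding (incD (S.e i)) := Topology.IsEmbedding.subtypeVal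
  -- the boundary of `k` lies near the ball
  have h1 : push (jC S i) (bd k) = - push (jC S !i) (bd k') := by
    have h2 := hz.1
    rw [map_add, ← Local.push_bd, ← Local.push_bd] at h2
    exact eq_neg_of_add_eq_zero_left h2
  have h2 : bd k ∈ Local.S {m : Dom (S.e i) | ∃ v : R3, ‖v‖ < 2 ∧ S.e i v = m} 2 := by
    refine mem_of_push_mem (jC S i) jinj (B := Set.range (S.j !i)) (fun m hm => overlap S i m hm) ?_
    rw [h1]
    exact Submodule.neg_mem _ (push_mem_range (jC S !i) _)
  have h3 : push (incD (S.e i)) (bd k) ∈ Local.S (eC S i '' Metric.ball 0 2) 2 := by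
    refine push_mem (incD (S.e i)) ?_ h2
    rintro m ⟨v, hv, hvm⟩
    exact ⟨v, by rwa [Metric.mem_ball, dist_zero_right], hvm⟩
  obtain ⟨d, hd, hpd⟩ := exists_push_mem (eC S i) (S.emb i).isEmbedding (Metric.ball 0 2) h3
  have hbd : bd d = 0 := by
    apply push_inj (eC S i) einj
    rw [Local.push_bd, hpd, ← Local.push_bd, bd_bd, map_zero, map_zero]
  -- fill in the ball
  have hcontr : ContractibleSpace (Metric.ball (0 : R3) 2) :=
    (convex_ball (0 : R3) 2).contractibleSpace ⟨0, Metric.mem_ball_self (by norm_num)⟩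
  have hinc : push (inclY (Metric.ball (0 : R3) 2)) (restr _ d) = d := push_incl_restr d hd
  have hbd' : bd (restr (Metric.ball (0 : R3) 2) d) = 0 := by
    apply push_inj (inclY (Metric.ball (0 : R3) 2)) Subtype.val_injective
    rw [Local.push_bd, hinc, hbd, map_zero]
  obtain ⟨b', hb'⟩ := (hA (Metric.ball (0 : R3) 2)).1 1 (-restr _ d)
    (by rw [map_neg, hbd', neg_zero])
  set b : Chain R3 3 := push (inclY (Metric.ball (0 : R3) 2)) b' with hb
  have hbb : bd b = -d := by
    rw [hb, ← Local.push_bd, hb', map_neg, hinc]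
  have hbS : b ∈ Local.S (Metric.ball (0 : R3) 2) 3 := suppIn_push_incl b'
  refine ⟨b, ?_, ?_⟩
  · rw [map_add, ← Local.push_bd, ← Local.push_bd, hbb, map_neg, hpd, add_neg_cancel]
  rintro n hn ⟨t, ht⟩
  -- a point far from the ball
  obtain ⟨v, hv⟩ : ∃ v : R3, ‖v‖ = 3 := by
    refine ⟨PiLp.single 2 0 3, ?_⟩
    rw [PiLp.norm_single]
    norm_num
  have hmD : S.e i v ∈ Dom (S.e i) := by
    rintro ⟨w, hw, hwv⟩
    rw [(S.emb i).injective hwv, Metric.mem_closedBall, dist_zero_right, hv] at hw
    norm_num at hw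
  have hopen : IsOpen (Dom (S.e i)) :=
    (((isCompact_closedBall (0 : R3) (1 / 2)).image (S.emb i).continuous).isClosed).isOpen_compl
  obtain ⟨r, hr⟩ := small2 specSmall hopen (isOpen_compl_singleton (x := S.e i v)) (by
    intro x
    by_cases hx : x = S.e i v
    · exact Or.inl (hx ▸ hmD)
    · exact Or.inr hx) t
  obtain ⟨t1, t2, ht1, ht2, ht12⟩ := hr r le_rfl
  obtain ⟨t1', ht1'⟩ := exists_push (incD (S.e i)) demb (c := t1) (by
    refine S_mono ?_ 4 ht1
    intro x hx
    exact ⟨⟨x, hx⟩, rfl⟩)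
  have heq : push (incD (S.e i)) (n • SdI r k - bd t1') =
      bd t2 - n • push (eC S i) (SdI r b) := by
    have h4 := bd_SdI hSS t r
    rw [ht12, ht, map_smul, map_add, map_add, ← ht1', ← push_SdI, ← push_SdI,
      ← Local.push_bd] at h4
    rw [map_sub, map_smul]
    rw [smul_add] at h4
    have h5 : bd t2 = n • push (incD (S.e i)) (SdI r k) + n • push (eC S i) (SdI r b) -
        push (incD (S.e i)) (bd t1') := by rw [← h4]; abel
    rw [h5]
    abel
  have hw : n • SdI r k - bd t1' ∈ Local.S ({⟨S.e i v, hmD⟩}ᶜ : Set (Dom (S.e i))) 3 := by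
    refine mem_of_push_mem (incD (S.e i)) dinj (B := {S.e i v}ᶜ) ?_ ?_
    · intro y hy hy'
      rw [Set.mem_singleton_iff] at hy'
      apply hy
      rw [hy']
      rfl
    · rw [heq]
      refine Submodule.sub_mem _ (bd_mem ht2) (Submodule.smul_mem _ _ ?_)
      refine push_mem (eC S i) ?_ (SdI_mem hbS r)
      intro w hw hw'
      have : w = v := (S.emb i).injective hw'
      rw [this, Metric.mem_ball, dist_zero_right, hv] at hw
      norm_num at hw
  refine (isOrient_SdI hz r).2 (S.j i ⟨S.e i v, hmD⟩) n hn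
    ⟨push (jC S i) t1', push (jC S i) (n • SdI r k - bd t1') + n • push (jC S !i) (SdI r k'),
      ?_, ?_⟩
  · rw [avoids_iff]
    refine Submodule.add_mem _ (push_mem (jC S i) ?_ hw) (Submodule.smul_mem _ _ ?_)
    · intro y hy hy'
      exact hy (jinj hy')
    · refine S_mono ?_ 3 (push_mem_range (jC S !i) (SdI r k'))
      rintro y hy rfl
      obtain ⟨w, hw2, hwv⟩ := overlap S i _ hy
      rw [(S.emb i).injective hwv, hv] at hw2
      norm_num at hw2
  · rw [map_add, ← push_SdI, ← push_SdI, smul_add, map_sub, map_smul, Local.push_bd]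
    abel

end NonbdM

theorem specNonbd (hA : SpecAcy) : SpecNonbd := by
  intro M _ _ X _ S k hz i
  cases i
  · exact NonbdM.main hA S false (k false) (k true) hz
  · refine NonbdM.main hA S true (k true) (k false) ?_
    rw [add_comm]
    exact hz

end TCMM
end
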