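import Pool.Agent.Lib.MP_ab96eb_gt.Spec
import Pool.Agent.Lib.MP_b00168_gt.Transfer

section
set_option autoImplicit false

/-!
# MP_ab96eb_gt : module ALPHA
Cocycles of the group of a contractible covering which detect a given cycle.
-/

namespace TCMM

open MPb00168

namespace AlphaM

variable {H : Type} [Group H] {X : Type} [TopologicalSpace X] (C : GCov H X)

lemma p_comp_smC (g : H) : C.p.comp (smC C g) = C.p := by
  ext t
  exact ((C.orbit t (g • t)).2 ⟨g, rfl⟩).symm

lemma push_p_smC (g : H) {k : ℕ} (c : Chain C.T k) :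
    push C.p (push (smC C g) c) = push C.p c := by
  rw [← push_comp, p_comp_smC]

end AlphaM

open AlphaM in
/-- module ALPHA -/
theorem specAlpha (hA : SpecAcy) (hE : SpecExt) (hP : SpecPsi) (hH : SpecHom) : SpecAlpha := by
  intro H _ X _ C _ a ha z hz hz'
  have ac : Acyc C.T := hA C.T
  have : Nonempty C.T := PathConnectedSpace.nonempty
  have : Nonempty X := ⟨C.p (Classical.arbitrary C.T)⟩
  obtain ⟨ψ, hψ⟩ := hP H X C ac
  obtain ⟨μ, h1, h2⟩ := hE X z hz'
  refine ⟨fun x => μ (push C.p (ψ 3 x)), ⟨?_, ?_, ?_⟩, ?_⟩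
  · intro g x
    have h := hψ.eqv 3 g x
    change μ (push C.p (ψ 3 fun m => g * x m)) = _
    rw [h, push_p_smC]
  · intro π x
    rw [hψ.alt, map_smul, map_smul, zsmul_eq_mul]
  · intro x
    have h := hψ.bdy 3 x
    have h3 : μ (push C.p (bd (ψ 4 x))) = 0 := by rw [push_bd, h1]
    rw [h, map_smul, map_smul, zsmul_eq_mul, map_sum, map_sum] at h3
    have h4 : (((3 + 2).factorial : ℤ) : ℝ) ≠ 0 := by
      norm_num [Nat.factorial]
    have h5 := (mul_eq_zero.mp h3).resolve_left h4
    rw [← h5]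
    refine Finset.sum_congr rfl fun k _ => ?_
    rw [map_smul, map_smul, zsmul_eq_mul]
    push_cast
    rfl
  · have h3 : evl C (fun x => μ (push C.p (ψ 3 (a ∘ x)))) z =
        μ (Finsupp.linearCombination ℤ
          (fun σ : Sing X 3 => push C.p (ψ 3 (a ∘ lft C σ))) z) := by
      rw [Finsupp.apply_linearCombination]
      rfl
    change evl C (fun x => μ (push C.p (ψ 3 (a ∘ x)))) z ≠ 0
    obtain ⟨t, ht⟩ := hH H X C ac ψ hψ a ha z hz
    rw [h3, ht, map_add, h1, add_zero, map_smul, zsmul_eq_mul]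
    exact mul_ne_zero (by norm_num) h2

end TCMM
end

section
set_option autoImplicit false

/-! # MP_ab96eb_gt : module CYC -/

namespace TCMM

namespace Cyc

open MPb00168

variable {H : Type} [Group H] {X : Type} [TopologicalSpace X]

lemma evl_eq (C : GCov H X) {k : ℕ} (W : (Fin (k + 1) → C.T) → ℝ) (c : Chain X k) :
    evl C W c = ∑ σ ∈ c.support, (c σ : ℝ) * W (lft C σ) := by
  rw [evl, Finsupp.linearCombination_apply, Finsupp.sum]
  exact Finset.sum_congr rfl fun σ _ => zsmul_eq_mul _ _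

lemma ev2_left (C : GCov H X) (W : (Fin 4 → C.T) → (Fin 4 → C.T) → ℝ) (c c' : Chain X 3) :
    ev2 C W c c' = ∑ τ ∈ c'.support, (c' τ : ℝ) * evl C (fun x => W x (lft C τ)) c := by
  simp only [evl_eq, Finset.mul_sum]
  rw [Finset.sum_comm, ev2, Finsupp.sum]
  refine Finset.sum_congr rfl fun σ _ => ?_
  rw [Finsupp.sum]
  refine Finset.sum_congr rfl fun τ _ => ?_
  push_cast
  ring

lemma ev2_right (C : GCov H X) (W : (Fin 4 → C.T) → (Fin 4 → C.T) → ℝ) (c c' : Chain X 3) :
    ev2 C W c c' = ∑ σ ∈ c.support, (c σ : ℝ) * evl C (fun y => W (lft C σ) y) c' := by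
  simp only [evl_eq, Finset.mul_sum]
  rw [ev2, Finsupp.sum]
  refine Finset.sum_congr rfl fun σ _ => ?_
  rw [Finsupp.sum]
  refine Finset.sum_congr rfl fun τ _ => ?_
  push_cast
  ring

lemma ev2_add (C : GCov H X) (W W' : (Fin 4 → C.T) → (Fin 4 → C.T) → ℝ) (c c' : Chain X 3) :
    ev2 C (fun x y => W x y - W' x y) c c' = ev2 C W c c' - ev2 C W' c c' := by
  simp only [ev2, Finsupp.sum]
  rw [← Finset.sum_sub_distrib]
  refine Finset.sum_congr rfl fun σ _ => ?_
  rw [← Finset.sum_sub_distrib]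
  refine Finset.sum_congr rfl fun τ _ => ?_
  ring

/-- The first part of the boundary. -/
noncomputable def W1 {T : Type} (W : (Fin 6 → T × T) → ℝ) (x : Fin 3 → T) (y : Fin 4 → T) : ℝ :=
  ∑ s ∈ Sh 2 5, (sg s : ℝ) * W (fun m => (x (px 2 s m), y (py 3 s m)))

/-- The second part of the boundary. -/
noncomputable def W2 {T : Type} (W : (Fin 6 → T × T) → ℝ) (x : Fin 4 → T) (y : Fin 3 → T) : ℝ :=
  ∑ s ∈ Sh 3 5, (sg s : ℝ) * W (fun m => (x (px 3 s m), y (py 2 s m)))

end Cyc

open MPb00168 Cyc in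
theorem specCyc (hE : SpecEvl) (hZ : SpecEZ) (hP : SpecPri) : SpecCyc := by
  intro H _ X _ C u hu φ φ' hφ hφ' c hc
  obtain ⟨W, hW, hinv⟩ := hP (C.T × C.T) H u hu.coc (fun z => φ z.1 z.2) (fun z => φ' z.1 z.2)
  have hWi : ∀ (g h : H) (Q : Fin 6 → C.T × C.T),
      W (fun m => (g • (Q m).1, h • (Q m).2)) = W Q := by
    intro g h Q
    refine hinv (fun z => (g • z.1, h • z.2)) (fun k => g * k * h⁻¹) ?_ ?_ ?_ Q
    · intro v
      exact hu.inv g h⁻¹ v
    · intro z
      exact hφ g h z.1 z.2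
    · intro z
      exact hφ' g h z.1 z.2
  have key : ∀ x y : Fin 4 → C.T, Om u φ x y - Om u φ' x y =
      (∑ j : Fin 4, (-1 : ℝ) ^ (j : ℕ) * W1 W (x ∘ j.succAbove) y) -
        ∑ j : Fin 4, (-1 : ℝ) ^ (j : ℕ) * W2 W x (y ∘ j.succAbove) := by
    intro x y
    have h1 := hZ C.T C.T W x y
    rw [Om, Om, ← Finset.sum_sub_distrib]
    refine Eq.trans ?_ h1
    refine Finset.sum_congr rfl fun s _ => ?_
    rw [← mul_sub]
    congr 1
    exact hW fun m => (x (px 3 s m), y (py 3 s m))
  rw [← sub_eq_zero, ← ev2_add]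
  have h2 : (fun x y : Fin 4 → C.T => Om u φ x y - Om u φ' x y) = fun x y =>
      (∑ j : Fin 4, (-1 : ℝ) ^ (j : ℕ) * W1 W (x ∘ j.succAbove) y) -
        ∑ j : Fin 4, (-1 : ℝ) ^ (j : ℕ) * W2 W x (y ∘ j.succAbove) := by
    funext x y
    exact key x y
  rw [h2, ev2_add, ev2_left, ev2_right, Finset.sum_eq_zero, Finset.sum_eq_zero, sub_zero]
  · intro σ _
    have h3 := (hE H X C 2 (fun y => W2 W (lft C σ) y) ?_).2 c
    · rw [hc, map_zero] at h3
      rw [← h3, mul_zero]
    · intro g y
      exact Finset.sum_congr rfl fun s _ => by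
        have := hWi 1 g fun m => ((lft C σ) (px 3 s m), y (py 2 s m))
        simp only [one_smul] at this
        rw [this]
  · intro τ _
    have h3 := (hE H X C 2 (fun x => W1 W x (lft C τ)) ?_).2 c
    · rw [hc, map_zero] at h3
      rw [← h3, mul_zero]
    · intro g x
      exact Finset.sum_congr rfl fun s _ => by
        have := hWi g 1 fun m => (x (px 2 s m), (lft C τ) (py 3 s m))
        simp only [one_smul] at this
        rw [this]

end TCMM
end

section
set_option autoImplicit false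

/-! # MP_ab96eb_gt : module EVL -/

namespace TCMM

namespace Evl

open MPb00168

variable {H : Type} [Group H] {X : Type} [TopologicalSpace X]

lemma verts_face {k : ℕ} (i : Fin (k + 2)) (m : Fin (k + 1)) :
    faceMap k i (vertsD k m) = vertsD (k + 1) (i.succAbove m) :=
  stdSimplex.map_vertex (S := ℝ) i.succAbove m

/-- There is a lift whose vertices are the chosen tuple. -/
lemma exists_vt (hL : SpecLift) (C : GCov H X) {k : ℕ} (σ : Sing X k) :
    ∃ τ : Sing C.T k, C.p.comp τ = σ ∧ lft C σ = vt τ := by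
  have h := (hL H X C k).1 σ
  refine ⟨h.choose, h.choose_spec, ?_⟩
  rw [lft, dif_pos h]

lemma vt_face {T : Type} [TopologicalSpace T] {k : ℕ} (τ : Sing T (k + 1)) (i : Fin (k + 2)) :
    vt (face i τ) = vt τ ∘ i.succAbove := by
  funext m
  exact congrArg τ (verts_face i m)

lemma lft_proj (hL : SpecLift) (C : GCov H X) {k : ℕ} (W : (Fin (k + 1) → C.T) → ℝ)
    (hW : ∀ (g : H) x, W (fun m => g • x m) = W x) (τ : Sing C.T k) :
    W (lft C (C.p.comp τ)) = W (vt τ) := by
  obtain ⟨τ', h1, h2⟩ := exists_vt hL C (C.p.comp τ)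
  obtain ⟨g, hg⟩ := (hL H X C k).2 τ τ' h1.symm
  rw [h2, ← hW g (vt τ)]
  congr 1
  funext m
  exact hg _

end Evl

open MPb00168 Evl in
theorem specEvl (hL : SpecLift) : SpecEvl := by
  intro H _ X _ C k W hW
  refine ⟨lft_proj hL C W hW, fun c => ?_⟩
  refine linext_apply (f := (evl C W).comp bd) (g := evl C (fun x : Fin (k + 2) → C.T =>
    ∑ i : Fin (k + 2), (-1 : ℝ) ^ (i : ℕ) * W (x ∘ i.succAbove))) (c := c) fun σ => ?_
  obtain ⟨τ, hτ, hv⟩ := exists_vt hL C σ
  simp only [LinearMap.comp_apply, bd_single, evl, map_sum, map_smul,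
    Finsupp.linearCombination_single, one_smul, hv]
  refine Finset.sum_congr rfl fun i _ => ?_
  rw [← vt_face τ i, ← lft_proj hL C W hW (face i τ)]
  have h3 : C.p.comp (face i τ) = face i σ := by rw [← hτ]; rfl
  rw [h3, zsmul_eq_mul]
  push_cast
  rfl

end TCMM
end

section
set_option autoImplicit false

/-!
# MP_ab96eb_gt : module EVX
-/

namespace TCMM

open MPb00168

namespace EVXM

section bilinear

variable {H : Type} [Group H] {X : Type} [TopologicalSpace X] (C : GCov H X)
  (W : (Fin 4 → C.T) → (Fin 4 → C.T) → ℝ)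

theorem ev2_add_left (c₁ c₂ c' : Chain X 3) :
    ev2 C W (c₁ + c₂) c' = ev2 C W c₁ c' + ev2 C W c₂ c' := by
  unfold ev2
  rw [Finsupp.sum_add_index']
  · intro σ
    simp [Finsupp.sum]
  · intro σ b₁ b₂
    rw [← Finsupp.sum_add]
    refine Finsupp.sum_congr fun τ _ => ?_
    push_cast
    ring

theorem ev2_add_right (c c₁ c₂ : Chain X 3) :
    ev2 C W c (c₁ + c₂) = ev2 C W c c₁ + ev2 C W c c₂ := by
  unfold ev2
  rw [← Finsupp.sum_add]
  refine Finsupp.sum_congr fun σ _ => ?_
  rw [Finsupp.sum_add_index']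
  · intro τ
    simp
  · intro τ b₁ b₂
    push_cast
    ring

theorem ev2_zero_left (c' : Chain X 3) : ev2 C W 0 c' = 0 := by
  unfold ev2
  rw [Finsupp.sum_zero_index]

theorem ev2_zero_right (c : Chain X 3) : ev2 C W c 0 = 0 := by
  unfold ev2
  simp [Finsupp.sum]

theorem ev2_single (σ τ : Sing X 3) (a b : ℤ) :
    ev2 C W (Finsupp.single σ a) (Finsupp.single τ b) =
      (a : ℝ) * (b : ℝ) * W (lft C σ) (lft C τ) := by
  unfold ev2
  rw [Finsupp.sum_single_index, Finsupp.sum_single_index]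
  · push_cast; ring
  · simp
  · simp [Finsupp.sum]

/-- the value of `ev2` on push-forwards is determined by the simplices -/
theorem ev2_push {Y Y' : Type} [TopologicalSpace Y] [TopologicalSpace Y'] (f : C(Y, X))
    (f' : C(Y', X)) (L : Chain Y 3 →ₗ[ℤ] ℝ) (L' : Chain Y' 3 →ₗ[ℤ] ℝ) (r : ℝ)
    (h : ∀ (σ : Sing Y 3) (τ : Sing Y' 3), W (lft C (f.comp σ)) (lft C (f'.comp τ)) =
      r * (L (Finsupp.single σ 1) * L' (Finsupp.single τ 1))) (k : Chain Y 3)
    (k' : Chain Y' 3) :
    ev2 C W (push f k) (push f' k') = r * (L k * L' k') := by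
  induction k using Finsupp.induction_linear with
  | zero => rw [map_zero, map_zero, ev2_zero_left]; ring
  | add k₁ k₂ h₁ h₂ => rw [map_add, map_add, ev2_add_left, h₁, h₂]; ring
  | single σ a =>
    induction k' using Finsupp.induction_linear with
    | zero => rw [map_zero, map_zero, ev2_zero_right]; ring
    | add k₁ k₂ h₁ h₂ => rw [map_add, map_add, ev2_add_right, h₁, h₂]; ring
    | single τ b =>
      rw [push_single, push_single, ev2_single, h]
      have e1 : (Finsupp.single σ a : Chain Y 3) = a • Finsupp.single σ 1 := by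
        rw [Finsupp.smul_single, smul_eq_mul, mul_one]
      have e2 : (Finsupp.single τ b : Chain Y' 3) = b • Finsupp.single τ 1 := by
        rw [Finsupp.smul_single, smul_eq_mul, mul_one]
      rw [e1, e2, map_smul, map_smul]
      simp only [zsmul_eq_mul]
      ring

end bilinear

section lifts

variable {G : Bool → Type} [∀ i, Group (G i)] {M : Bool → Type}
  [∀ i, TopologicalSpace (M i)] {X : Type} [TopologicalSpace X]
  {S : ConnSum M X} {A : ∀ i, GCov (G i) (M i)} {el : ∀ i, C(R3, (A i).T)}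

/-- the lift of a simplex of a piece -/
theorem lft_piece (hL : SpecLift) (D : Glued S A el) (ai : ∀ i, (A i).T → G i)
    (a : D.C.T → FP G) (ha : ∀ (g : FP G) t, a (g • t) = g * a t)
    (haJ : ∀ i (t : Pre S A i), a (D.J i t) = inc (G := G) i (ai i t)) (i : Bool)
    (σ : Sing (Dom (S.e i)) 3) :
    ∃ γ : FP G, ∀ m, a (lft D.C ((jC S i).comp σ) m) =
      γ * inc (G := G) i (ai i (lft (A i) ((incD (S.e i)).comp σ) m)) := by
  classical
  have h1 : ∃ τ : Sing (A i).T 3, (A i).p.comp τ = (incD (S.e i)).comp σ :=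
    (hL _ _ (A i) 3).1 _
  have h2 : ∃ τ : Sing D.C.T 3, D.C.p.comp τ = (jC S i).comp σ := (hL _ _ D.C 3).1 _
  have e1 : lft (A i) ((incD (S.e i)).comp σ) = vt h1.choose := by
    unfold lft; rw [dif_pos h1]
  have e2 : lft D.C ((jC S i).comp σ) = vt h2.choose := by
    unfold lft; rw [dif_pos h2]
  have s1 := h1.choose_spec
  have s2 := h2.choose_spec
  set τ := h1.choose with hτ
  set τ₂ := h2.choose with hτ₂
  have hp : ∀ t, (A i).p (τ t) = (σ t : M i) := fun t => DFunLike.congr_fun s1 t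
  have hmem : ∀ t, τ t ∈ Pre S A i := by
    intro t
    show (A i).p (τ t) ∈ Dom (S.e i)
    rw [hp]
    exact (σ t).2
  let τ' : Sing (Pre S A i) 3 := ⟨fun t => ⟨τ t, hmem t⟩, by fun_prop⟩
  have h3 : D.C.p.comp ((D.J i).comp τ') = (jC S i).comp σ := by
    ext t
    show D.C.p (D.J i (τ' t)) = S.j i (σ t)
    rw [D.pJ]
    congr 1
    exact Subtype.ext (hp t)
  obtain ⟨g, hg⟩ := (hL _ _ D.C 3).2 ((D.J i).comp τ') τ₂ (by rw [h3, s2])
  refine ⟨g, fun m => ?_⟩
  rw [e1, e2]
  show a (τ₂ (vertsD 3 m)) = _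
  rw [hg]
  show a (g • D.J i (τ' (vertsD 3 m))) = _
  rw [ha, haJ]
  rfl

end lifts

theorem evl_single {H : Type} [Group H] {X : Type} [TopologicalSpace X] (C : GCov H X)
    (W : (Fin 4 → C.T) → ℝ) {Y : Type} [TopologicalSpace Y] (f : C(Y, X)) (σ : Sing Y 3) :
    (evl C W ∘ₗ push f) (Finsupp.single σ 1) = W (lft C (f.comp σ)) := by
  rw [LinearMap.comp_apply, push_single]
  unfold evl
  rw [Finsupp.linearCombination_single, one_smul]

end EVXM

open EVXM in
theorem specEvx (hL : SpecLift) (hU : SpecUC) (hA : SpecAlt) (hEA : SpecEvA)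
    (hEB : SpecEvB) (hC : SpecConst) : SpecEvx := by
  intro G _ M _ X _ S A el D ai a hai ha haJ α β hα hβ k
  have hu := hU G α β hα hβ
  have hAu := (hA (FP G) _ hu).1
  set W := Om (Alt (uc α β)) (fun x y : D.C.T => a x * (a y)⁻¹) with hW
  -- reduction to the pieces
  have key : ∀ (i i' : Bool) (σ : Sing (Dom (S.e i)) 3) (τ : Sing (Dom (S.e i')) 3),
      W (lft D.C ((jC S i).comp σ)) (lft D.C ((jC S i').comp τ)) =
      ∑ s ∈ Sh 3 6, (sg s : ℝ) * Alt (uc α β) (fun m =>
        inc (G := G) i (ai i (lft (A i) ((incD (S.e i)).comp σ) (px 3 s m))) *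
        (inc (G := G) i' (ai i' (lft (A i') ((incD (S.e i')).comp τ) (py 3 s m))))⁻¹) := by
    intro i i' σ τ
    obtain ⟨γ, hγ⟩ := lft_piece hL D ai a ha haJ i σ
    obtain ⟨γ', hγ'⟩ := lft_piece hL D ai a ha haJ i' τ
    rw [hW]
    unfold Om
    refine Finset.sum_congr rfl fun s _ => ?_
    congr 1
    refine Eq.trans ?_ (hAu.inv γ γ'⁻¹ _)
    congr 1
    funext m
    show a _ * (a _)⁻¹ = _
    rw [hγ, hγ']
    group
  have hzero : ∀ (i : Bool) (σ τ : Sing (Dom (S.e i)) 3),
      W (lft D.C ((jC S i).comp σ)) (lft D.C ((jC S i).comp τ)) = 0 := by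
    intro i σ τ
    rw [key]
    refine Finset.sum_eq_zero fun s _ => ?_
    rw [mul_eq_zero]
    right
    unfold Alt
    refine Finset.sum_eq_zero fun π _ => ?_
    rw [mul_eq_zero]
    right
    rw [← (hEA G α β hα hβ).2 i (fun m =>
      ai i (lft (A i) ((incD (S.e i)).comp σ) (px 3 s (π m))) *
      (ai i (lft (A i) ((incD (S.e i)).comp τ) (py 3 s (π m))))⁻¹)]
    congr 1
    funext m
    rw [map_mul, map_inv]
    rfl
  have htf : ∀ (σ : Sing (Dom (S.e true)) 3) (τ : Sing (Dom (S.e false)) 3),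
      W (lft D.C ((jC S true).comp σ)) (lft D.C ((jC S false).comp τ)) = 0 := by
    intro σ τ
    rw [key]
    unfold Alt
    simp only [Finset.mul_sum]
    rw [Finset.sum_comm]
    refine Finset.sum_eq_zero fun π _ => ?_
    have h1 := hEB G α β hα hβ (fun m => ai true (lft (A true) ((incD (S.e true)).comp σ) m))
      (fun m => ai false (lft (A false) ((incD (S.e false)).comp τ) m)) π
    calc _ = ((Equiv.Perm.sign π : ℤ) : ℝ) * ∑ s ∈ Sh 3 6, (sg s : ℝ) * uc α β ((fun m =>
          inc (G := G) true (ai true (lft (A true) ((incD (S.e true)).comp σ) (px 3 s m))) *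
          (inc (G := G) false (ai false (lft (A false) ((incD (S.e false)).comp τ)
            (py 3 s m))))⁻¹) ∘ π) := by
          rw [Finset.mul_sum]
          refine Finset.sum_congr rfl fun s _ => ?_
          ring
      _ = 0 := by rw [h1, mul_zero]
  have hft : ∀ (σ : Sing (Dom (S.e false)) 3) (τ : Sing (Dom (S.e true)) 3),
      W (lft D.C ((jC S false).comp σ)) (lft D.C ((jC S true).comp τ)) =
      5040 * (α (ai false ∘ lft (A false) ((incD (S.e false)).comp σ)) *
        β (ai true ∘ lft (A true) ((incD (S.e true)).comp τ))) := by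
    intro σ τ
    rw [key, ← hC (G false) (G true) α β hα hβ]
    refine Finset.sum_congr rfl fun s _ => ?_
    congr 1
    unfold Alt
    refine Finset.sum_congr rfl fun π _ => ?_
    congr 1
    have h1 := (hEA G α β hα hβ).1
      (fun m => ai false (lft (A false) ((incD (S.e false)).comp σ) (px 3 s (π m))))
      (fun m => ai true (lft (A true) ((incD (S.e true)).comp τ) (py 3 s (π m))))
    exact h1
  rw [ev2_add_left, ev2_add_right, ev2_add_right]
  have h00 : ev2 D.C W (push (jC S false) (k false)) (push (jC S false) (k false)) = 0 := by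
    rw [ev2_push D.C W (jC S false) (jC S false) 0 0 0]
    · ring
    · intro σ τ
      rw [hzero]; ring
  have h11 : ev2 D.C W (push (jC S true) (k true)) (push (jC S true) (k true)) = 0 := by
    rw [ev2_push D.C W (jC S true) (jC S true) 0 0 0]
    · ring
    · intro σ τ
      rw [hzero]; ring
  have h10 : ev2 D.C W (push (jC S true) (k true)) (push (jC S false) (k false)) = 0 := by
    rw [ev2_push D.C W (jC S true) (jC S false) 0 0 0]
    · ring
    · intro σ τ
      rw [htf]; ring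
  have h01 : ev2 D.C W (push (jC S false) (k false)) (push (jC S true) (k true)) =
      5040 * (evl (A false) (fun x => α (ai false ∘ x)) (push (incD (S.e false)) (k false)) *
        evl (A true) (fun x => β (ai true ∘ x)) (push (incD (S.e true)) (k true))) := by
    rw [ev2_push D.C W (jC S false) (jC S true)
      (evl (A false) (fun x => α (ai false ∘ x)) ∘ₗ push (incD (S.e false)))
      (evl (A true) (fun x => β (ai true ∘ x)) ∘ₗ push (incD (S.e true))) 5040]
    · rfl
    · intro σ τ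
      rw [evl_single, evl_single, hft]
  rw [h00, h11, h10, h01]
  ring

end TCMM
end

section
set_option autoImplicit false

/-! # MP_ab96eb_gt : module EXT -/

namespace TCMM

open MPb00168

theorem specExt : SpecExt := by
  intro X _ z hz
  let q : Chain X 3 →ₗ[ℤ] (Chain X 3 ⧸ LinearMap.range (bd (X := X) (k := 3))) :=
    Submodule.mkQ _
  have hq : ∀ c, q c = 0 ↔ ∃ t, bd t = c := by
    intro c
    change Submodule.Quotient.mk c = 0 ↔ _
    rw [Submodule.Quotient.mk_eq_zero, LinearMap.mem_range]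
  have hinj : Function.Injective (LinearMap.toSpanSingleton ℤ _ (q z)) := by
    rw [injective_iff_map_eq_zero]
    intro n hn
    by_contra hn0
    refine hz n hn0 ?_
    rw [LinearMap.toSpanSingleton_apply, ← map_zsmul] at hn
    exact (hq _).1 hn
  obtain ⟨h, hh⟩ := (Module.Baer.of_divisible ℝ).extension_property
    (LinearMap.toSpanSingleton ℤ _ (q z)) hinj (LinearMap.toSpanSingleton ℤ ℝ (1 : ℝ))
  refine ⟨h.comp q, fun t => ?_, ?_⟩
  · rw [LinearMap.comp_apply, (hq _).2 ⟨t, rfl⟩, map_zero]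
  · have h1 := congrArg (fun f => f (1 : ℤ)) hh
    simp only [LinearMap.comp_apply, LinearMap.toSpanSingleton_apply, one_smul] at h1
    rw [LinearMap.comp_apply, h1]
    exact one_ne_zero

end TCMM
end

section
set_option autoImplicit false

/-!
# MP_ab96eb_gt, module MAIN
-/

namespace TCMM

open MPb00168

namespace Main

/-- alternating functions vanish on repeated arguments -/
theorem coc_zero {H : Type} [Group H] {α : (Fin 4 → H) → ℝ} (hα : Coc 3 α) (x : Fin 4 → H)
    (i j : Fin 4) (hij : i ≠ j) (h : x i = x j) : α x = 0 := by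
  have h1 := hα.alt (Equiv.swap i j) x
  have h2 : x ∘ (Equiv.swap i j) = x := by
    funext m
    by_cases hi : m = i
    · subst hi; simp [h]
    · by_cases hj : m = j
      · subst hj; simp [h]
      · simp [Equiv.swap_apply_of_ne_of_ne hi hj]
  rw [h2, Equiv.Perm.sign_swap hij] at h1
  norm_num at h1
  linarith

/-- monotonicity of `HasTC` -/
theorem hasTC_mono {X : Type} [TopologicalSpace X] {k l : ℕ} (h : HasTC X k) (hkl : k ≤ l) :
    HasTC X l := by
  obtain ⟨U, s, hU, hc, hs⟩ := h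
  refine ⟨fun j => if hj : (j : ℕ) < k then U ⟨j, hj⟩ else ∅, fun j => ?_, ?_, ?_, ?_⟩
  · by_cases hj : (j : ℕ) < k
    · exact (s ⟨j, hj⟩).comp ⟨fun z => ⟨z.1, by simpa [hj] using z.2⟩, by fun_prop⟩
    · exact ⟨fun z => absurd z.2 (by simp [hj]), by
        refine continuous_iff_continuousAt.2 fun z => absurd z.2 (by simp [hj])⟩
  · intro j
    by_cases hj : (j : ℕ) < k
    · simp only [hj, dif_pos]; exact hU _
    · simp only [hj, dif_neg, not_false_iff]; exact isOpen_empty
  · intro z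
    obtain ⟨j, hj⟩ := hc z
    refine ⟨⟨j, lt_of_lt_of_le j.2 hkl⟩, ?_⟩
    simp only [Fin.is_lt, dif_pos]
    exact hj
  · intro j z
    by_cases hj : (j : ℕ) < k
    · simp only [hj, dif_pos]
      exact hs ⟨j, hj⟩ ⟨z.1, by simpa [hj] using z.2⟩
    · exact absurd z.2 (by simp [hj])

/-- chains in the ball do not contribute -/
theorem ball {H : Type} [Group H] {M : Type} [TopologicalSpace M] (hEvl : SpecEvl)
    (C : GCov H M) (e : C(R3, M)) (el : C(R3, C.T)) (hel : ∀ v, C.p (el v) = e v)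
    (a : C.T → H) (ha : ∀ (g : H) t, a (g • t) = g * a t) (ha1 : ∀ v, a (el v) = 1)
    (α : (Fin 4 → H) → ℝ) (hα : Coc 3 α) (b : Chain R3 3) :
    evl C (fun x => α (a ∘ x)) (push e b) = 0 := by
  have hinv : ∀ (g : H) (x : Fin 4 → C.T),
      (fun x => α (a ∘ x)) (fun m => g • x m) = (fun x => α (a ∘ x)) x := by
    intro g x
    have : (a ∘ fun m => g • x m) = fun m => g * (a ∘ x) m := by
      funext m
      exact ha g (x m)
    simp only [this, hα.inv]
  have key : ∀ σ : Sing R3 3, evl C (fun x => α (a ∘ x)) (push e (Finsupp.single σ 1)) = 0 := by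
    intro σ
    have h1 : push e (Finsupp.single σ (1 : ℤ)) = Finsupp.single (e.comp σ) 1 := by
      simp [push]
    have h2 : e.comp σ = C.p.comp (el.comp σ) := by
      ext t
      simp [hel]
    rw [h1, h2, evl, Finsupp.linearCombination_single, one_smul,
      (hEvl H M C 3 (fun x => α (a ∘ x)) hinv).1]
    refine coc_zero hα _ 0 1 (by decide) ?_
    simp [vt, ha1]
  have h3 : (evl C (fun x => α (a ∘ x))).comp (push e) = 0 := by
    refine Finsupp.lhom_ext' fun σ => ?_
    ext
    simpa using key σ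
  exact LinearMap.congr_fun h3 b

end Main

open Main in
/-- module MAIN -/
theorem specMain (hVan : SpecVan) (hCyc : SpecCyc) (hUC : SpecUC) (hAlt : SpecAlt)
    (hEL : SpecELift) (hGl : SpecGlue) (hAf : SpecAfun) (hEvx : SpecEvx) (hSp : SpecSplit)
    (hNb : SpecNonbd) (hAl : SpecAlpha) (hEvl : SpecEvl) : SpecMain := by
  intro G _ M _ _ A _ X _ _ S c hc
  rw [TC]
  refine le_iInf fun k => le_iInf fun hk => ?_
  by_contra hlt
  have hk6 : k ≤ 6 := by
    have : (k : ℕ∞) < 7 := not_le.1 hlt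
    have : k < 7 := by exact_mod_cast this
    omega
  have h6 : HasTC X 6 := hasTC_mono hk hk6
  choose el hel using fun i => hEL (G i) (M i) (A i) (eC S i)
  obtain ⟨D⟩ := hGl G M X S A el hel
  obtain ⟨ai, a, hai, hai1, ha, haJ⟩ := hAf G M X S A el hel D
  obtain ⟨φ, ε, hε, hφ, hvan⟩ := hVan (FP G) X D.C h6
  obtain ⟨k, hor, hsm⟩ := hSp M X S c hc ε hε
  have hnb := hNb M X S k hor
  choose b hb hb' using hnb
  obtain ⟨α, hα, hα0⟩ := hAl (G false) (M false) (A false) (ai false) (hai false)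
    (push (incD (S.e false)) (k false) + push (eC S false) (b false)) (hb false) (hb' false)
  obtain ⟨β, hβ, hβ0⟩ := hAl (G true) (M true) (A true) (ai true) (hai true)
    (push (incD (S.e true)) (k true) + push (eC S true) (b true)) (hb true) (hb' true)
  rw [map_add, ball hEvl (A false) (eC S false) (el false) (hel false) (ai false) (hai false)
    (hai1 false) α hα, add_zero] at hα0
  rw [map_add, ball hEvl (A true) (eC S true) (el true) (hel true) (ai true) (hai true)
    (hai1 true) β hβ, add_zero] at hβ0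
  have hev := hEvx G M X S A el D ai a hai ha haJ α β hα hβ k
  have hbi := hAlt (FP G) (uc α β) (hUC G α β hα hβ)
  have hcyc := hCyc (FP G) X D.C (Alt (uc α β)) hbi.1 φ (fun x y => a x * (a y)⁻¹) hφ
    (by
      intro g h x y
      simp only [ha]
      group) _ hor.1
  rw [hev, hvan _ hbi.2 _ hsm] at hcyc
  have : (5040 : ℝ) * (evl (A false) (fun x => α (ai false ∘ x))
      (push (incD (S.e false)) (k false)) *
      evl (A true) (fun x => β (ai true ∘ x)) (push (incD (S.e true)) (k true))) ≠ 0 :=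
    mul_ne_zero (by norm_num) (mul_ne_zero hα0 hβ0)
  exact this hcyc.symm

end TCMM
end

section
set_option autoImplicit false

/-!
# MP_ab96eb_gt : module PSI
Equivariant alternating maps from tuples of group elements to chains of an acyclic covering.
-/

namespace TCMM

open MPb00168

namespace PsiM

variable {H : Type} [Group H] {X : Type} [TopologicalSpace X] (C : GCov H X)

lemma smC_mul (g g' : H) : smC C (g * g') = (smC C g).comp (smC C g') := by
  ext t
  exact mul_smul g g' t

lemma push_smC_mul (g g' : H) {k : ℕ} (c : Chain C.T k) :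
    push (smC C (g * g')) c = push (smC C g) (push (smC C g') c) := by
  rw [smC_mul, push_comp]

/-- The alternating sum of the faces. -/
noncomputable def Bf {n : ℕ} (f : (Fin (n + 1) → H) → Chain C.T n) (x : Fin (n + 2) → H) :
    Chain C.T n :=
  ∑ k : Fin (n + 2), (-1 : ℤ) ^ (k : ℕ) • f (x ∘ k.succAbove)

/-- The properties needed for the recursion. -/
structure Good {n : ℕ} (f : (Fin (n + 1) → H) → Chain C.T n) : Prop where
  eqv : ∀ (g : H) (x : Fin (n + 1) → H), f (fun m => g * x m) = push (smC C g) (f x)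
  alt : ∀ (π : Equiv.Perm (Fin (n + 1))) (x : Fin (n + 1) → H),
    f (x ∘ π) = (Equiv.Perm.sign π : ℤ) • f x
  fill : ∀ x : Fin (n + 2) → H, ∃ b : Chain C.T (n + 1), bd b = Bf C f x

variable {C}

lemma Bf_eqv {n : ℕ} {f : (Fin (n + 1) → H) → Chain C.T n} (hf : Good C f) (g : H)
    (x : Fin (n + 2) → H) : Bf C f (fun m => g * x m) = push (smC C g) (Bf C f x) := by
  unfold Bf
  rw [map_sum]
  refine Finset.sum_congr rfl fun k _ => ?_
  rw [map_smul, ← hf.eqv]
  rfl

lemma Bf_alt (hP : SpecPerm) {n : ℕ} {f : (Fin (n + 1) → H) → Chain C.T n} (hf : Good C f)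
    (π : Equiv.Perm (Fin (n + 2))) (x : Fin (n + 2) → H) :
    Bf C f (x ∘ π) = (Equiv.Perm.sign π : ℤ) • Bf C f x := by
  unfold Bf
  rw [Finset.smul_sum, ← Equiv.sum_comp π (fun k : Fin (n + 2) =>
    (Equiv.Perm.sign π : ℤ) • (-1 : ℤ) ^ (k : ℕ) • f (x ∘ k.succAbove))]
  refine Finset.sum_congr rfl fun k _ => ?_
  obtain ⟨π', h1, h2⟩ := hP (n + 1) π k
  have e : (x ∘ π) ∘ k.succAbove = (x ∘ (π k).succAbove) ∘ π' := by
    funext m
    simp only [Function.comp_apply]
    rw [h1 m]
  rw [e, hf.alt π', h2, smul_smul, smul_smul]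
  congr 1
  have h3 : (-1 : ℤ) ^ (k : ℕ) * (-1) ^ (k : ℕ) = 1 := by
    rw [← pow_add]
    exact Even.neg_one_pow ⟨_, rfl⟩
  rw [pow_add]
  calc (-1 : ℤ) ^ (k : ℕ) * ((Equiv.Perm.sign π : ℤ) * ((-1) ^ (k : ℕ) * (-1) ^ (π k : ℕ)))
      = ((-1 : ℤ) ^ (k : ℕ) * (-1) ^ (k : ℕ)) * ((Equiv.Perm.sign π : ℤ) * (-1) ^ (π k : ℕ)) := by
        ring
    _ = _ := by rw [h3, one_mul]

variable (C) in
/-- The next map. -/
noncomputable def next {n : ℕ} (K : (Fin (n + 2) → H) → Chain C.T (n + 1))
    (x : Fin (n + 2) → H) : Chain C.T (n + 1) :=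
  ∑ π : Equiv.Perm (Fin (n + 2)), (Equiv.Perm.sign π : ℤ) •
    push (smC C (x (π 0))) (K (fun m => (x (π 0))⁻¹ * x (π m)))

lemma next_eqv {n : ℕ} (K : (Fin (n + 2) → H) → Chain C.T (n + 1)) (g : H)
    (x : Fin (n + 2) → H) : next C K (fun m => g * x m) = push (smC C g) (next C K x) := by
  unfold next
  rw [map_sum]
  refine Finset.sum_congr rfl fun π _ => ?_
  rw [map_smul, push_smC_mul]
  congr 4
  funext m
  group

lemma next_alt {n : ℕ} (K : (Fin (n + 2) → H) → Chain C.T (n + 1))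
    (ρ : Equiv.Perm (Fin (n + 2))) (x : Fin (n + 2) → H) :
    next C K (x ∘ ρ) = (Equiv.Perm.sign ρ : ℤ) • next C K x := by
  unfold next
  rw [Finset.smul_sum, ← Equiv.sum_comp (Equiv.mulLeft ρ) (fun π : Equiv.Perm (Fin (n + 2)) =>
    (Equiv.Perm.sign ρ : ℤ) • (Equiv.Perm.sign π : ℤ) •
    push (smC C (x (π 0))) (K (fun m => (x (π 0))⁻¹ * x (π m))))]
  refine Finset.sum_congr rfl fun π _ => ?_
  rw [smul_smul]
  simp only [Equiv.coe_mulLeft, Equiv.Perm.coe_mul, Function.comp_apply, Equiv.Perm.sign_mul,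
    Units.val_mul]
  congr 1
  rw [← mul_assoc, Int.units_coe_mul_self, one_mul]

lemma bd_next (hP : SpecPerm) {n : ℕ} {f : (Fin (n + 1) → H) → Chain C.T n} (hf : Good C f)
    (K : (Fin (n + 2) → H) → Chain C.T (n + 1)) (hK : ∀ x, bd (K x) = Bf C f x)
    (x : Fin (n + 2) → H) :
    bd (next C K x) = ((n + 2).factorial : ℤ) • Bf C f x := by
  unfold next
  rw [map_sum]
  have : ∀ π : Equiv.Perm (Fin (n + 2)), bd ((Equiv.Perm.sign π : ℤ) •
      push (smC C (x (π 0))) (K (fun m => (x (π 0))⁻¹ * x (π m)))) = Bf C f x := by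
    intro π
    rw [map_smul, ← push_bd, hK, ← Bf_eqv hf]
    have e : (fun m => x (π 0) * ((x (π 0))⁻¹ * x (π m))) = x ∘ π := by
      funext m
      simp
    rw [e, Bf_alt hP hf, smul_smul, Int.units_coe_mul_self, one_smul]
  rw [Finset.sum_congr rfl fun π _ => this π, Finset.sum_const, Finset.card_univ,
    Fintype.card_perm, Fintype.card_fin, natCast_zsmul]

lemma bd_Bf {n : ℕ} {f : (Fin (n + 1) → H) → Chain C.T n}
    {f' : (Fin (n + 2) → H) → Chain C.T (n + 1)}
    (h : ∀ x, bd (f' x) = ((n + 2).factorial : ℤ) • Bf C f x) (x : Fin (n + 3) → H) :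
    bd (Bf C f' x) = 0 := by
  have h0 := alt_sum_zero (fun (i : Fin (n + 3)) (j : Fin (n + 2)) =>
    f ((x ∘ i.succAbove) ∘ j.succAbove)) (by
      intro i j
      congr 1
      funext m
      simp only [Function.comp_apply]
      rw [Fin.succAbove_succAbove_succAbove_predAbove])
  have h1 : bd (Bf C f' x) = ((n + 2).factorial : ℤ) • ∑ i : Fin (n + 3), ∑ j : Fin (n + 2),
      ((-1 : ℤ) ^ (i : ℕ) * (-1) ^ (j : ℕ)) • f ((x ∘ i.succAbove) ∘ j.succAbove) := by
    unfold Bf
    rw [map_sum, Finset.smul_sum]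
    refine Finset.sum_congr rfl fun i _ => ?_
    rw [map_smul, h, smul_comm]
    congr 1
    unfold Bf
    rw [Finset.smul_sum]
    refine Finset.sum_congr rfl fun j _ => ?_
    rw [smul_smul]
  rw [h1, h0, smul_zero]

lemma step (hP : SpecPerm) (hA : Acyc C.T) {n : ℕ} {f : (Fin (n + 1) → H) → Chain C.T n}
    (hf : Good C f) : ∃ f' : (Fin (n + 2) → H) → Chain C.T (n + 1), Good C f' ∧
      ∀ x, bd (f' x) = ((n + 2).factorial : ℤ) • Bf C f x := by
  choose K hK using hf.fill
  have hb := bd_next hP hf K hK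
  exact ⟨next C K, ⟨next_eqv K, next_alt K, fun x => hA.1 n _ (bd_Bf hb x)⟩, hb⟩

variable (C) in
/-- The map in degree zero. -/
noncomputable def f0 (t : C.T) (x : Fin 1 → H) : Chain C.T 0 :=
  Finsupp.single (ContinuousMap.const _ (x 0 • t)) 1

lemma good0 (hA : Acyc C.T) (t : C.T) : Good C (f0 C t) := by
  refine ⟨?_, ?_, ?_⟩
  · intro g x
    rw [f0, f0, push_single]
    congr 1
    ext s
    exact mul_smul g (x 0) t
  · intro π x
    have h1 : π = 1 := Equiv.ext fun i =>
      @Subsingleton.elim (Fin 1) _ _ _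
    subst h1
    simp
  · intro x
    apply hA.2
    unfold Bf f0
    rw [Fin.sum_univ_two]
    simp only [Fin.val_zero, pow_zero, one_smul, Fin.val_one, pow_one, neg_smul]
    rw [← sub_eq_add_neg, Finsupp.sum_sub_index (fun _ _ _ => rfl),
      Finsupp.sum_single_index rfl, Finsupp.sum_single_index rfl, sub_self]

end PsiM

open PsiM in
/-- module PSI -/
theorem specPsi (hP : SpecPerm) : SpecPsi := by
  intro H _ X _ _ C hA
  obtain ⟨t, -⟩ := C.surj (Classical.arbitrary X)
  let D : ℕ → Type := fun n => {f : (Fin (n + 1) → H) → Chain C.T n // Good C f}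
  let st : ∀ n, D n → D (n + 1) := fun n d =>
    ⟨(step hP hA d.2).choose, (step hP hA d.2).choose_spec.1⟩
  let sq : ∀ n, D n := fun n => Nat.rec ⟨f0 C t, good0 hA t⟩ st n
  refine ⟨fun n => (sq n).1, ⟨fun n => (sq n).2.eqv, fun n => (sq n).2.alt, ?_, ?_⟩⟩
  · intro x
    change (f0 C t x).sum _ = 1
    rw [f0, Finsupp.sum_single_index rfl]
  · intro n x
    exact (step hP hA (sq n).2).choose_spec.2 x

end TCMM
end
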