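import Pool.Agent.Lib.MP_ab96eb_gt.Spec

section
set_option autoImplicit false

/-!
# MP_ab96eb_gt : module AFUN
-/

namespace TCMM

open MPb00168

namespace AFUNM

/-- Equivariant functions to the group with prescribed value on a normalised set meeting each
orbit in exactly one point. -/
theorem exists_equivariant {H : Type} [Group H] {T : Type} [MulAction H T]
    (free : ∀ (g : H) (x : T), g • x = x → g = 1) (N : T → Prop)
    (hex : ∀ x, ∃ (g : H) (y : T), N y ∧ g • y = x)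
    (huni : ∀ x y (g : H), N x → N y → g • x = y → x = y) :
    ∃ a : T → H, (∀ (g : H) x, a (g • x) = g * a x) ∧ (∀ x, N x → a x = 1) ∧
      ∀ x, a x = 1 → N x := by
  choose a y hN hy using hex
  refine ⟨a, ?_, ?_, ?_⟩
  · intro g x
    have h1 := hy (g • x)
    have h2 := hy x
    have h3 : (a (g • x))⁻¹ • (g * a x) • y x = y (g • x) := by
      rw [mul_smul, h2, inv_smul_eq_iff, h1]
    rw [smul_smul] at h3
    have h4 := huni _ _ _ (hN x) (hN (g • x)) h3
    rw [← h4] at h3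
    have h5 := free _ _ h3
    rw [inv_mul_eq_one] at h5
    exact h5
  · intro x hx
    have h1 := hy x
    have h2 := huni _ _ _ (hN x) hx h1
    rw [h2] at h1
    exact free _ _ h1
  · intro x hx
    have h1 := hy x
    rw [hx, one_smul] at h1
    rw [← h1]
    exact hN x

theorem exists_ai {H : Type} [Group H] {X : Type} [TopologicalSpace X] (A : GCov H X)
    (e : R3 → X) (he : Function.Injective e) (el : C(R3, A.T)) (hel : ∀ v, A.p (el v) = e v) :
    ∃ a : A.T → H, (∀ (g : H) t, a (g • t) = g * a t) ∧ ∀ v, a (el v) = 1 := by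
  classical
  -- representatives of the fibres
  let r : X → A.T := fun x => if h : ∃ v, e v = x then el h.choose else (A.surj x).choose
  have hr : ∀ x, A.p (r x) = x := by
    intro x
    by_cases h : ∃ v, e v = x
    · simp only [r, h, dif_pos]
      rw [hel]
      exact h.choose_spec
    · simp only [r, h, dif_neg, not_false_eq_true]
      exact (A.surj x).choose_spec
  have hre : ∀ v, r (e v) = el v := by
    intro v
    have h : ∃ w, e w = e v := ⟨v, rfl⟩
    simp only [r, h, dif_pos]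
    rw [he h.choose_spec]
  obtain ⟨a, h1, h2, -⟩ := exists_equivariant A.free (fun t => r (A.p t) = t)
    (fun x => by
      have h : A.p (r (A.p x)) = A.p x := hr _
      obtain ⟨g, hg⟩ := (A.orbit _ _).1 h
      exact ⟨g, r (A.p x), by rw [hr], hg⟩)
    (fun x y g hx hy hg => by
      have h : A.p x = A.p y := (A.orbit _ _).2 ⟨g, hg⟩
      rw [← hx, ← hy, h])
  refine ⟨a, h1, fun v => h2 _ ?_⟩
  show r (A.p (el v)) = el v
  rw [hel, hre]

end AFUNM

open AFUNM in
theorem specAfun : SpecAfun := by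
  intro G _ M _ X _ S A el hel D
  have hai := fun i => exists_ai (A i) (S.e i) (S.emb i).injective (el i) (hel i)
  choose ai hai1 hai2 using hai
  -- points with the same image and value one
  have hsame : ∀ i (t t' : (A i).T), (A i).p t = (A i).p t' → ai i t = ai i t' → t = t' := by
    intro i t t' hp ha
    obtain ⟨g, hg⟩ := ((A i).orbit _ _).1 hp
    have : ai i t' = g * ai i t := by rw [← hg, hai1]
    rw [ha] at this
    have hg1 : g = 1 := by
      have := this.symm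
      rwa [mul_eq_right] at this
    rw [← hg, hg1, one_smul]
  let N : D.C.T → Prop := fun u => ∃ i, ∃ t : Pre S A i, ai i t = 1 ∧ D.J i t = u
  -- the two pieces
  have hft : ∀ (t : Pre S A false) (t' : Pre S A true), ai false t = 1 → ai true t' = 1 →
      D.C.p (D.J false t) = D.C.p (D.J true t') → D.J false t = D.J true t' := by
    intro t t' h1 h2 h3
    rw [D.pJ, D.pJ, S.glue] at h3
    obtain ⟨v, hv1, hv2, hm, hm'⟩ := h3
    have ht : (t : (A false).T) = el false v := by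
      apply hsame false
      · rw [hel]; exact hm
      · rw [h1, hai2]
    have ht' : (t' : (A true).T) = el true (inv3 v) := by
      apply hsame true
      · rw [hel]; exact hm'
      · rw [h2, hai2]
    exact D.mat v t t' hv1 hv2 ht ht'
  have hii : ∀ i (t t' : Pre S A i), ai i t = 1 → ai i t' = 1 →
      D.C.p (D.J i t) = D.C.p (D.J i t') → D.J i t = D.J i t' := by
    intro i t t' h1 h2 h3
    rw [D.pJ, D.pJ] at h3
    have h4 := (S.jemb i).injective h3
    have h5 : (A i).p t = (A i).p t' := congrArg Subtype.val h4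
    have h6 := hsame i t t' h5 (by rw [h1, h2])
    rw [Subtype.ext h6]
  obtain ⟨a, ha1, ha2, -⟩ := exists_equivariant D.C.free N
    (fun x => by
      obtain ⟨i, m, hm⟩ := S.cover (D.C.p x)
      obtain ⟨t, ht⟩ := (A i).surj m
      -- normalise
      have hp : (A i).p ((ai i t)⁻¹ • t) = (A i).p t := ((A i).orbit _ _).2
        ⟨ai i t, by rw [smul_inv_smul]⟩
      have hmem : (ai i t)⁻¹ • t ∈ Pre S A i := by
        show (A i).p _ ∈ Dom (S.e i)
        rw [hp, ht]
        exact m.2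
      refine ?_
      have h1 : D.C.p (D.J i ⟨(ai i t)⁻¹ • t, hmem⟩) = D.C.p x := by
        rw [D.pJ, ← hm]
        congr 1
        exact Subtype.ext (hp.trans ht)
      obtain ⟨g, hg⟩ := (D.C.orbit _ _).1 h1
      refine ⟨g, _, ⟨i, ⟨(ai i t)⁻¹ • t, hmem⟩, ?_, rfl⟩, hg⟩
      show ai i ((ai i t)⁻¹ • t) = 1
      rw [hai1, inv_mul_cancel])
    (fun x y g hx hy hg => by
      have hp : D.C.p x = D.C.p y := (D.C.orbit _ _).2 ⟨g, hg⟩
      obtain ⟨i, t, ht, rfl⟩ := hx
      obtain ⟨i', t', ht', rfl⟩ := hy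
      cases i <;> cases i'
      · exact hii false t t' ht ht' hp
      · exact hft t t' ht ht' hp
      · exact (hft t' t ht' ht hp.symm).symm
      · exact hii true t t' ht ht' hp)
  refine ⟨ai, a, hai1, hai2, ha1, ?_⟩
  intro i t
  have hp : (A i).p ((ai i t)⁻¹ • (t : (A i).T)) = (A i).p t := ((A i).orbit _ _).2
    ⟨ai i t, by rw [smul_inv_smul]⟩
  have hmem : (ai i t)⁻¹ • (t : (A i).T) ∈ Pre S A i := by
    show (A i).p _ ∈ Dom (S.e i)
    rw [hp]
    exact t.2
  have h1 := D.eqv i (ai i t) ⟨(ai i t)⁻¹ • (t : (A i).T), hmem⟩ t (by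
    show (t : (A i).T) = ai i t • (ai i t)⁻¹ • (t : (A i).T)
    rw [smul_inv_smul])
  rw [h1, ha1, ha2, mul_one]
  refine ⟨i, _, ?_, rfl⟩
  show ai i ((ai i t)⁻¹ • (t : (A i).T)) = 1
  rw [hai1, inv_mul_cancel]

end TCMM
end

section
set_option autoImplicit false

/-! # MP_ab96eb_gt : module PERM -/

namespace TCMM

open Equiv Equiv.Perm

theorem specPerm : SpecPerm := by
  intro n π k
  obtain ⟨⟨p, e⟩, he⟩ := decomposeFin.symm.surjective
    ((Fin.cycleRange (π k)) * π * (Fin.cycleRange k).symm)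
  have h0 : ((Fin.cycleRange (π k)) * π * (Fin.cycleRange k).symm) 0 = 0 := by
    simp [Perm.mul_apply]
  have hp : p = 0 := by
    rw [← he, decomposeFin_symm_apply_zero] at h0
    exact h0
  subst hp
  refine ⟨e, fun m => ?_, ?_⟩
  · have h1 : ((Fin.cycleRange (π k)) * π * (Fin.cycleRange k).symm) m.succ = (e m).succ := by
      rw [← he, decomposeFin_symm_apply_succ]
      simp
    have h2 : (Fin.cycleRange (π k)) (π (k.succAbove m)) = (e m).succ := by
      rw [← h1]
      simp [Perm.mul_apply]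
    rw [← Fin.cycleRange_symm_succ (π k) (e m), ← h2]
    simp
  · have h1 := congrArg Perm.sign he
    rw [decomposeFin.symm_sign, Perm.sign_mul, Perm.sign_mul] at h1
    have h3 : Perm.sign (Fin.cycleRange k).symm = Perm.sign (Fin.cycleRange k) := sign_inv _
    rw [h3, Fin.sign_cycleRange, Fin.sign_cycleRange] at h1
    simp only [if_true, one_mul] at h1
    rw [h1]
    push_cast
    rw [pow_add]
    ring

end TCMM
end

section
set_option autoImplicit false

/-! # MP_ab96eb_gt : module ALT -/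

namespace TCMM

open Equiv Equiv.Perm

namespace AltM

variable {Γ : Type}

lemma alt_swap (u : (Fin 7 → Γ) → ℝ) (v : Fin 7 → Γ) {m n : Fin 7} (hmn : m ≠ n)
    (hv : v m = v n) : Alt u v = 0 := by
  have h1 : v ∘ (swap m n) = v := by
    funext x
    simp only [Function.comp_apply]
    by_cases hx : x = m
    · subst hx
      rw [swap_apply_left, hv]
    · by_cases hx' : x = n
      · subst hx'
        rw [swap_apply_right, hv]
      · rw [swap_apply_of_ne_of_ne hx hx']
  have h2 : Alt u v = - Alt u v := by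
    unfold Alt
    rw [← Finset.sum_neg_distrib, ← _root_.Equiv.sum_comp (Equiv.mulLeft (swap m n))]
    refine Finset.sum_congr rfl fun π _ => ?_
    simp only [Equiv.coe_mulLeft, Perm.sign_mul, sign_swap hmn, Perm.coe_mul]
    have h3 : v ∘ (⇑(swap m n) ∘ ⇑π) = v ∘ π := by
      rw [← Function.comp_assoc, h1]
    rw [h3]
    push_cast
    ring
  linarith

end AltM

theorem specAlt (hP : SpecPerm) : SpecAlt := by
  intro Γ _ u hu
  refine ⟨⟨?_, ?_⟩, ?_⟩
  · intro g h v
    unfold Alt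
    refine Finset.sum_congr rfl fun π _ => ?_
    congr 1
    exact hu.inv g h (v ∘ π)
  · intro v
    choose π' hπ hs using fun (ρ : Perm (Fin 8)) (k : Fin 8) => hP 7 ρ k
    have hbij : ∀ j : Fin 8, Function.Bijective
        (fun ρ : Perm (Fin 8) => ((ρ j, π' ρ j) : Fin 8 × Perm (Fin 7))) := by
      intro j
      rw [Fintype.bijective_iff_injective_and_card]
      constructor
      · intro ρ ρ' h
        simp only [Prod.mk.injEq] at h
        ext1 x
        rcases eq_or_ne x j with rfl | hx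
        · exact h.1
        · obtain ⟨y, rfl⟩ := Fin.exists_succAbove_eq hx
          rw [hπ, hπ, h.1, h.2]
      · simp [Fintype.card_perm, Nat.factorial]
    have key : ∀ j : Fin 8, ∑ ρ : Perm (Fin 8), ((Perm.sign ρ : ℤ) : ℝ) *
        ((-1 : ℝ) ^ (j : ℕ) * u ((v ∘ ρ) ∘ j.succAbove)) =
        ∑ k : Fin 8, (-1 : ℝ) ^ (k : ℕ) * Alt u (v ∘ k.succAbove) := by
      intro j
      have h1 : ∀ ρ : Perm (Fin 8), ((Perm.sign ρ : ℤ) : ℝ) *
          ((-1 : ℝ) ^ (j : ℕ) * u ((v ∘ ρ) ∘ j.succAbove)) =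
          (fun q : Fin 8 × Perm (Fin 7) => (-1 : ℝ) ^ (q.1 : ℕ) *
            (((Perm.sign q.2 : ℤ) : ℝ) * u ((v ∘ q.1.succAbove) ∘ q.2))) (ρ j, π' ρ j) := by
        intro ρ
        simp only
        have h2 : (v ∘ ρ) ∘ j.succAbove = (v ∘ (ρ j).succAbove) ∘ (π' ρ j) := by
          funext m
          simp only [Function.comp_apply, hπ]
        have h3 : ((Perm.sign (π' ρ j) : ℤ) : ℝ) =
            ((Perm.sign ρ : ℤ) : ℝ) * (-1) ^ ((j : ℕ) + (ρ j : ℕ)) := by
          have := congrArg (Int.cast : ℤ → ℝ) (hs ρ j)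
          push_cast at this
          exact_mod_cast this
        rw [h2, h3, pow_add]
        have h4 : ((-1 : ℝ) ^ (ρ j : ℕ)) * (-1) ^ (ρ j : ℕ) = 1 := by
          rw [← pow_add, ← two_mul]
          simp
        linear_combination (-((Perm.sign ρ : ℤ) : ℝ) * (-1) ^ (j : ℕ) *
          u ((v ∘ (ρ j).succAbove) ∘ (π' ρ j))) * h4
      refine (Finset.sum_congr rfl fun ρ _ => h1 ρ).trans (((hbij j).sum_comp
        (fun q : Fin 8 × Perm (Fin 7) => (-1 : ℝ) ^ (q.1 : ℕ) *
            (((Perm.sign q.2 : ℤ) : ℝ) * u ((v ∘ q.1.succAbove) ∘ q.2)))).trans ?_)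
      rw [Fintype.sum_prod_type]
      refine Finset.sum_congr rfl fun k _ => ?_
      rw [Alt, Finset.mul_sum]
    have h8 : (8 : ℝ) * ∑ k : Fin 8, (-1 : ℝ) ^ (k : ℕ) * Alt u (v ∘ k.succAbove) = 0 := by
      have h1 : ∑ j : Fin 8, ∑ ρ : Perm (Fin 8), ((Perm.sign ρ : ℤ) : ℝ) *
        ((-1 : ℝ) ^ (j : ℕ) * u ((v ∘ ρ) ∘ j.succAbove)) = 0 := by
        rw [Finset.sum_comm]
        refine Finset.sum_eq_zero fun ρ _ => ?_
        rw [← Finset.mul_sum, hu.coc, mul_zero]
      rw [Finset.sum_congr rfl fun j _ => key j, Finset.sum_const, Finset.card_univ,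
        Fintype.card_fin, nsmul_eq_mul] at h1
      exact_mod_cast h1
    linarith
  · rintro v ⟨m, n, hmn, hv⟩
    exact AltM.alt_swap u v hmn hv

end TCMM
end

section
set_option autoImplicit false

/-!
# MP_ab96eb_gt : module EZ
-/

namespace TCMM

namespace Ez

/-- evaluation of a formal sum -/
noncomputable def ev (G : ℕ → ℝ) (L : List (ℤ × ℕ)) : ℝ := (L.map fun p => (p.1 : ℝ) * G p.2).sum

/-- insertion into a formal sum -/
def ins (c : ℤ) (n : ℕ) : List (ℤ × ℕ) → List (ℤ × ℕ)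
  | [] => [(c, n)]
  | p :: L => if n = p.2 then (if c + p.1 = 0 then L else (c + p.1, n) :: L)
      else if n < p.2 then (c, n) :: p :: L else p :: ins c n L

/-- normal form of a formal sum -/
def nrm : List (ℤ × ℕ) → List (ℤ × ℕ)
  | [] => []
  | p :: L => ins p.1 p.2 (nrm L)

theorem ev_cons (G : ℕ → ℝ) (p : ℤ × ℕ) (L : List (ℤ × ℕ)) :
    ev G (p :: L) = (p.1 : ℝ) * G p.2 + ev G L := by
  simp [ev]

theorem ev_append (G : ℕ → ℝ) (L L' : List (ℤ × ℕ)) : ev G (L ++ L') = ev G L + ev G L' := by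
  simp [ev]

theorem ev_ins (G : ℕ → ℝ) (c : ℤ) (n : ℕ) (L : List (ℤ × ℕ)) :
    ev G (ins c n L) = (c : ℝ) * G n + ev G L := by
  induction L with
  | nil => simp [ins, ev]
  | cons p L ih =>
    unfold ins
    split_ifs with h1 h2 h3
    · rw [ev_cons, ← h1]
      have : ((c : ℝ)) + (p.1 : ℝ) = 0 := by exact_mod_cast h2
      linear_combination -G n * this
    · rw [ev_cons, ev_cons, ← h1]
      push_cast
      ring
    · rw [ev_cons]
    · rw [ev_cons, ih, ev_cons]
      ring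

theorem ev_nrm (G : ℕ → ℝ) (L : List (ℤ × ℕ)) : ev G (nrm L) = ev G L := by
  induction L with
  | nil => rfl
  | cons p L ih => rw [nrm, ev_ins, ih, ev_cons]

theorem ev_zero (G : ℕ → ℝ) (L : List (ℤ × ℕ)) (h : nrm L = []) : ev G L = 0 := by
  rw [← ev_nrm, h]
  simp [ev]

/-- encoding -/
def code (κ : Fin 6 → Fin 4 × Fin 4) : ℕ :=
  (4 * ((κ 0).1 : ℕ) + (κ 0).2) + 16 * ((4 * ((κ 1).1 : ℕ) + (κ 1).2) +
  16 * ((4 * ((κ 2).1 : ℕ) + (κ 2).2) + 16 * ((4 * ((κ 3).1 : ℕ) + (κ 3).2) +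
  16 * ((4 * ((κ 4).1 : ℕ) + (κ 4).2) + 16 * (4 * ((κ 5).1 : ℕ) + (κ 5).2)))))

/-- decoding -/
def dec (n : ℕ) (m : Fin 6) : Fin 4 × Fin 4 :=
  (Fin.ofNat 4 (n / 16 ^ (m : ℕ) % 16 / 4), Fin.ofNat 4 (n / 16 ^ (m : ℕ) % 16))

theorem dec_code (κ : Fin 6 → Fin 4 × Fin 4) : dec (code κ) = κ := by
  funext m
  rcases h0 : κ 0 with ⟨a0, b0⟩
  rcases h1 : κ 1 with ⟨a1, b1⟩
  rcases h2 : κ 2 with ⟨a2, b2⟩
  rcases h3 : κ 3 with ⟨a3, b3⟩
  rcases h4 : κ 4 with ⟨a4, b4⟩
  rcases h5 : κ 5 with ⟨a5, b5⟩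
  unfold dec code
  rw [h0, h1, h2, h3, h4, h5]
  have A0 := a0.isLt
  have A1 := a1.isLt
  have A2 := a2.isLt
  have A3 := a3.isLt
  have A4 := a4.isLt
  have A5 := a5.isLt
  have B0 := b0.isLt
  have B1 := b1.isLt
  have B2 := b2.isLt
  have B3 := b3.isLt
  have B4 := b4.isLt
  have B5 := b5.isLt
  fin_cases m
  · change _ = κ 0
    rw [h0]
    apply Prod.ext <;> apply Fin.ext <;> simp [Fin.ofNat] <;> omega
  · change _ = κ 1
    rw [h1]
    apply Prod.ext <;> apply Fin.ext <;> simp [Fin.ofNat] <;> omega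
  · change _ = κ 2
    rw [h2]
    apply Prod.ext <;> apply Fin.ext <;> simp [Fin.ofNat] <;> omega
  · change _ = κ 3
    rw [h3]
    apply Prod.ext <;> apply Fin.ext <;> simp [Fin.ofNat] <;> omega
  · change _ = κ 4
    rw [h4]
    apply Prod.ext <;> apply Fin.ext <;> simp [Fin.ofNat] <;> omega
  · change _ = κ 5
    rw [h5]
    apply Prod.ext <;> apply Fin.ext <;> simp [Fin.ofNat] <;> omega

/-- shuffles (3,3) -/
def L36 : List (Finset (Fin 6)) := [{0, 1, 2}, {0, 1, 3}, {0, 1, 4}, {0, 1, 5}, {0, 2, 3}, {0, 2, 4}, {0, 2, 5}, {0, 3, 4}, {0, 3, 5}, {0, 4, 5}, {1, 2, 3}, {1, 2, 4}, {1, 2, 5}, {1, 3, 4}, {1, 3, 5}, {1, 4, 5}, {2, 3, 4}, {2, 3, 5}, {2, 4, 5}, {3, 4, 5}]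

/-- shuffles (2,3) -/
def L25 : List (Finset (Fin 5)) := [{0, 1}, {0, 2}, {0, 3}, {0, 4}, {1, 2}, {1, 3}, {1, 4}, {2, 3}, {2, 4}, {3, 4}]

/-- shuffles (3,2) -/
def L35 : List (Finset (Fin 5)) := [{0, 1, 2}, {0, 1, 3}, {0, 1, 4}, {0, 2, 3}, {0, 2, 4}, {0, 3, 4}, {1, 2, 3}, {1, 2, 4}, {1, 3, 4}, {2, 3, 4}]

theorem sum36 (f : Finset (Fin 6) → ℝ) : ∑ s ∈ Sh 3 6, f s = (L36.map f).sum := by
  have h : Sh 3 6 = L36.toFinset := by decide +kernel
  have hn : L36.Nodup := by decide +kernel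
  rw [h, List.sum_toFinset _ hn]

theorem sum25 (f : Finset (Fin 5) → ℝ) : ∑ s ∈ Sh 2 5, f s = (L25.map f).sum := by
  have h : Sh 2 5 = L25.toFinset := by decide +kernel
  have hn : L25.Nodup := by decide +kernel
  rw [h, List.sum_toFinset _ hn]

theorem sum35 (f : Finset (Fin 5) → ℝ) : ∑ s ∈ Sh 3 5, f s = (L35.map f).sum := by
  have h : Sh 3 5 = L35.toFinset := by decide +kernel
  have hn : L35.Nodup := by decide +kernel
  rw [h, List.sum_toFinset _ hn]

/-- first key -/
def k1 (s : Finset (Fin 6)) (k : Fin 7) : Fin 6 → Fin 4 × Fin 4 :=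
  fun m => (px 3 s (k.succAbove m), py 3 s (k.succAbove m))

/-- second key -/
def k2 (j : Fin 4) (s : Finset (Fin 5)) : Fin 6 → Fin 4 × Fin 4 :=
  fun m => (j.succAbove (px 2 s m), py 3 s m)

/-- third key -/
def k3 (j : Fin 4) (s : Finset (Fin 5)) : Fin 6 → Fin 4 × Fin 4 :=
  fun m => (px 3 s m, j.succAbove (py 2 s m))

/-- first list -/
def T1 : List (ℤ × ℕ) := L36.flatMap fun s => (List.finRange 7).map fun k : Fin 7 =>
  (sg s * (-1) ^ (k : ℕ), code (k1 s k))

/-- second list -/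
def T2 : List (ℤ × ℕ) := (List.finRange 4).flatMap fun j : Fin 4 => L25.map fun s =>
  (-((-1) ^ (j : ℕ) * sg s), code (k2 j s))

/-- third list -/
def T3 : List (ℤ × ℕ) := (List.finRange 4).flatMap fun j : Fin 4 => L35.map fun s =>
  ((-1) ^ (j : ℕ) * sg s, code (k3 j s))

set_option maxRecDepth 100000 in
theorem check : nrm (T1 ++ (T2 ++ T3)) = [] := by decide +kernel

theorem ev_flatMap {ι : Type} (G : ℕ → ℝ) (l : List ι) (f : ι → List (ℤ × ℕ)) :
    ev G (l.flatMap f) = (l.map fun a => ev G (f a)).sum := by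
  induction l with
  | nil => simp [ev]
  | cons a l ih => rw [List.flatMap_cons, ev_append, ih, List.map_cons, List.sum_cons]

end Ez

open Ez in
/-- EZ -/
theorem specEZ : SpecEZ := by
  intro S S' w x y
  set G : ℕ → ℝ := fun n => w (fun m => (x (dec n m).1, y (dec n m).2)) with hG
  have hGc : ∀ κ : Fin 6 → Fin 4 × Fin 4, G (code κ) = w (fun m => (x (κ m).1, y (κ m).2)) := by
    intro κ
    simp only [hG]
    rw [dec_code]
  have h0 := ev_zero G _ check
  rw [ev_append, ev_append] at h0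
  have e1 : ev G T1 = ∑ s ∈ Sh 3 6, (sg s : ℝ) * ∑ k : Fin 7, (-1 : ℝ) ^ (k : ℕ) *
      w (fun m => (x (px 3 s (k.succAbove m)), y (py 3 s (k.succAbove m)))) := by
    rw [sum36, T1, ev_flatMap]
    congr 1
    apply List.map_congr_left
    intro s _
    rw [ev, List.map_map, Fin.sum_univ_def, ← List.sum_map_mul_left]
    congr 1
    apply List.map_congr_left
    intro k _
    simp only [Function.comp]
    rw [hGc]
    push_cast
    simp only [k1]
    ring
  have e2 : ev G T2 = (-1) * ∑ j : Fin 4, (-1 : ℝ) ^ (j : ℕ) * ∑ s ∈ Sh 2 5, (sg s : ℝ) *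
      w (fun m => (x (j.succAbove (px 2 s m)), y (py 3 s m))) := by
    rw [T2, ev_flatMap, Fin.sum_univ_def, ← List.sum_map_mul_left]
    congr 1
    apply List.map_congr_left
    intro j _
    rw [ev, List.map_map, sum25, ← List.sum_map_mul_left, ← List.sum_map_mul_left]
    congr 1
    apply List.map_congr_left
    intro s _
    simp only [Function.comp]
    rw [hGc]
    push_cast
    simp only [k2]
    ring
  have e3 : ev G T3 = ∑ j : Fin 4, (-1 : ℝ) ^ (j : ℕ) * ∑ s ∈ Sh 3 5, (sg s : ℝ) *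
      w (fun m => (x (px 3 s m), y (j.succAbove (py 2 s m)))) := by
    rw [T3, ev_flatMap, Fin.sum_univ_def]
    congr 1
    apply List.map_congr_left
    intro j _
    rw [ev, List.map_map, sum35, ← List.sum_map_mul_left]
    congr 1
    apply List.map_congr_left
    intro s _
    simp only [Function.comp]
    rw [hGc]
    push_cast
    simp only [k3]
    ring
  rw [e1, e2, e3] at h0
  linarith

end TCMM
end

section
set_option autoImplicit false

/-!
# MP_ab96eb_gt : module CONST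
-/

namespace TCMM

namespace Cst

open Equiv

/-- sums over permutations, by the first value -/
theorem alt_rec {X : Type} (n : ℕ) (g : Fin (n + 1) → X) (F : (Fin (n + 1) → X) → ℤ) :
    ∑ π : Perm (Fin (n + 1)), (Perm.sign π : ℤ) * F (g ∘ π) =
      ∑ k : Fin (n + 1), (-1) ^ (k : ℕ) * ∑ π' : Perm (Fin n), (Perm.sign π' : ℤ) *
        F (Fin.cons (g k) (g ∘ k.succAbove ∘ π')) := by
  set e : Fin (n + 1) × Perm (Fin n) → Perm (Fin (n + 1)) := fun p =>
    (Fin.cycleRange p.1).symm * Perm.decomposeFin.symm (0, p.2) with he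
  have h0 : ∀ p, e p 0 = p.1 := by
    intro p
    simp only [he, Perm.mul_apply, Perm.decomposeFin_symm_apply_zero,
      Fin.cycleRange_symm_zero]
  have hs : ∀ p j, e p (Fin.succ j) = p.1.succAbove (p.2 j) := by
    intro p j
    simp only [he, Perm.mul_apply, Perm.decomposeFin_symm_apply_succ, Equiv.swap_self,
      Equiv.refl_apply, Fin.cycleRange_symm_succ]
  have hsign : ∀ p, (Perm.sign (e p) : ℤ) = (-1) ^ (p.1 : ℕ) * (Perm.sign p.2 : ℤ) := by
    intro p
    have h1 : Perm.sign (e p) = (-1) ^ (p.1 : ℕ) * Perm.sign p.2 := by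
      simp only [he, Perm.sign_mul, Perm.decomposeFin.symm_sign, if_true, one_mul]
      rw [← Perm.inv_def, Perm.sign_inv, Fin.sign_cycleRange]
    rw [h1]
    push_cast
    rfl
  have hinj : Function.Injective e := by
    rintro ⟨k, σ⟩ ⟨l, τ⟩ h
    have h1 : k = l := by
      have := h0 (k, σ)
      rw [h, h0] at this
      exact this.symm
    subst h1
    have h2 : σ = τ := by
      ext j
      have h3 := hs (k, σ) j
      rw [h, hs] at h3
      exact congrArg Fin.val (Fin.succAbove_right_injective h3).symm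
    rw [h2]
  have hbij : Function.Bijective e := by
    rw [Fintype.bijective_iff_injective_and_card]
    refine ⟨hinj, ?_⟩
    rw [Fintype.card_prod, Fintype.card_perm, Fintype.card_perm, Fintype.card_fin,
      Fintype.card_fin, Nat.factorial_succ]
  rw [← hbij.sum_comp (fun π => (Perm.sign π : ℤ) * F (g ∘ π)), Fintype.sum_prod_type]
  refine Finset.sum_congr rfl (fun k _ => ?_)
  rw [Finset.mul_sum]
  refine Finset.sum_congr rfl (fun σ _ => ?_)
  rw [hsign]
  have h4 : g ∘ (e (k, σ)) = Fin.cons (g k) (g ∘ k.succAbove ∘ σ) := by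
    funext j
    refine Fin.cases ?_ (fun j => ?_) j
    · simp only [Function.comp, Fin.cons_zero]
      rw [h0]
    · simp only [Function.comp, Fin.cons_succ]
      rw [hs]
  rw [h4]
  ring

/-- recursive evaluation -/
def go (bad : ℕ → List ℕ → Bool) (F : List ℕ → ℤ) : ℕ → (ℕ → ℕ) → List ℕ → ℤ
  | 0, _, acc => F acc
  | n + 1, g, acc => ((List.range (n + 1)).map fun k =>
      bif bad (g k) acc then 0 else
        (-1) ^ k * go bad F n (fun m => g (bif Nat.ble k m then m + 1 else m)) (g k :: acc)).sum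

theorem range_sum (n : ℕ) (f : ℕ → ℤ) : ((List.range n).map f).sum = ∑ k : Fin n, f k := by
  rw [← Finset.sum_range]
  induction n with
  | zero => rfl
  | succ n ih => rw [List.range_succ, List.map_append, List.sum_append, ih, Finset.sum_range_succ]; simp

theorem go_eq (bad : ℕ → List ℕ → Bool) (F : List ℕ → ℤ)
    (hbad : ∀ v acc, bad v acc = true → ∀ l, F (l ++ v :: acc) = 0) (n : ℕ) (g : ℕ → ℕ)
    (acc : List ℕ) : go bad F n g acc =
      ∑ π : Perm (Fin n), (Perm.sign π : ℤ) *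
        F ((List.ofFn fun i : Fin n => g (π i)).reverse ++ acc) := by
  induction n generalizing g acc with
  | zero =>
    rw [go, Fintype.sum_unique]
    simp
  | succ n ih =>
    rw [go]
    have h := alt_rec n (fun i : Fin (n + 1) => g i)
      (fun v => F ((List.ofFn v).reverse ++ acc))
    simp only [Function.comp_def] at h
    rw [h, range_sum]
    refine Finset.sum_congr rfl (fun k _ => ?_)
    have hF : ∀ π' : Perm (Fin n), (List.ofFn (Fin.cons (g (k : ℕ)) fun x : Fin n =>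
        g ((k.succAbove (π' x) : Fin (n + 1)) : ℕ)) : List ℕ).reverse ++ acc =
        (List.ofFn fun i : Fin n => g ((k.succAbove (π' i) : Fin (n + 1)) : ℕ)).reverse ++
          g (k : ℕ) :: acc := by
      intro π'
      rw [List.ofFn_succ]
      simp
    have hF' : ∀ π' : Perm (Fin n), F ((List.ofFn (Fin.cons (g (k : ℕ)) fun x : Fin n =>
        g ((k.succAbove (π' x) : Fin (n + 1)) : ℕ)) : List ℕ).reverse ++ acc) =
        F ((List.ofFn fun i : Fin n => g ((k.succAbove (π' i) : Fin (n + 1)) : ℕ)).reverse ++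
          g (k : ℕ) :: acc) := fun π' => congrArg F (hF π')
    simp only [hF']
    cases hb : bad (g (k : ℕ)) acc
    · simp only [cond_false]
      rw [ih]
      congr 1
      refine Finset.sum_congr rfl (fun π' _ => ?_)
      congr 3
      refine congrArg List.reverse (congrArg List.ofFn (funext fun i => ?_))
      congr 1
      have hle : ∀ a b : ℕ, Nat.ble a b = decide (a ≤ b) := by
        intro a b
        by_cases hab : a ≤ b
        · rw [Nat.ble_eq_true_of_le hab]; simp [hab]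
        · cases hb : Nat.ble a b
          · simp [hab]
          · exact absurd (Nat.le_of_ble_eq_true hb) hab
      rw [hle]
      by_cases hk : (k : ℕ) ≤ ((π' i : Fin n) : ℕ)
      · rw [Fin.succAbove_of_le_castSucc _ _ (by rw [Fin.le_def]; simpa using hk)]
        simp [hk]
      · rw [Fin.succAbove_of_castSucc_lt _ _ (by rw [Fin.lt_def]; simpa using hk)]
        simp [hk]
    · simp only [cond_true]
      rw [Finset.sum_eq_zero, mul_zero]
      intro π' _
      rw [hbad _ _ hb, mul_zero]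

/-- sign of a difference -/
def sgn (x y : ℕ) : ℤ := bif Nat.ble y x then (bif Nat.beq x y then 0 else -1) else 1

/-- Levi-Civita symbol -/
def e4 (p q r s : ℕ) : ℤ :=
  bif (Nat.beq p q || Nat.beq p r || Nat.beq p s || Nat.beq q r || Nat.beq q s || Nat.beq r s)
  then 0 else sgn p q * sgn p r * sgn p s * sgn q r * sgn q s * sgn r s

theorem e4_perm : ∀ σ : Perm (Fin 4), (Perm.sign σ : ℤ) = e4 (σ 0) (σ 1) (σ 2) (σ 3) := by
  decide +kernel

theorem e4_inj : ∀ f : Fin 4 → Fin 4, e4 (f 0) (f 1) (f 2) (f 3) ≠ 0 → Function.Injective f := by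
  decide +kernel

theorem coc_comp {H : Type} [Group H] {α : (Fin 4 → H) → ℝ} (h : Coc 3 α) (x : Fin 4 → H)
    (f : Fin 4 → Fin 4) : α (fun m => x (f m)) = (e4 (f 0) (f 1) (f 2) (f 3) : ℝ) * α x := by
  by_cases hf : Function.Injective f
  · have hb : Function.Bijective f := Finite.injective_iff_bijective.mp hf
    have h1 := h.alt (Equiv.ofBijective f hb) x
    have h2 := e4_perm (Equiv.ofBijective f hb)
    rw [h2] at h1
    exact h1
  · have h0 : e4 (f 0) (f 1) (f 2) (f 3) = 0 := by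
      by_contra hne
      exact hf (e4_inj f hne)
    rw [h0]
    rw [Function.Injective] at hf
    push Not at hf
    obtain ⟨a, b, hab, hne⟩ := hf
    have h1 := h.alt (Equiv.swap a b) (fun m => x (f m))
    have h2 : (fun m => x (f m)) ∘ (Equiv.swap a b) = fun m => x (f m) := by
      funext m
      simp only [Function.comp]
      by_cases ha : m = a
      · rw [ha, Equiv.swap_apply_left, hab]
      · by_cases hb : m = b
        · rw [hb, Equiv.swap_apply_right, hab]
        · rw [Equiv.swap_apply_of_ne_of_ne ha hb]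
    rw [h2, Perm.sign_swap hne] at h1
    push_cast at h1 ⊢
    linarith

/-- weight of a list of codes -/
def FF : List ℕ → ℤ
  | [v6, v5, v4, v3, v2, v1, v0] =>
      e4 (v0 / 4) (v1 / 4) (v2 / 4) (v3 / 4) * e4 (v3 % 4) (v4 % 4) (v5 % 4) (v6 % 4)
  | _ => 0

/-- early zero test -/
def bad (v : ℕ) : List ℕ → Bool
  | [v0] => Nat.beq (v0 / 4) (v / 4)
  | [v1, v0] => Nat.beq (v0 / 4) (v / 4) || Nat.beq (v1 / 4) (v / 4)
  | [v2, v1, v0] => Nat.beq (v0 / 4) (v / 4) || Nat.beq (v1 / 4) (v / 4) ||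
      Nat.beq (v2 / 4) (v / 4)
  | [v3, _, _, _] => Nat.beq (v3 % 4) (v % 4)
  | [v4, v3, _, _, _] => Nat.beq (v3 % 4) (v % 4) || Nat.beq (v4 % 4) (v % 4)
  | [v5, v4, v3, _, _, _] => Nat.beq (v3 % 4) (v % 4) || Nat.beq (v4 % 4) (v % 4) ||
      Nat.beq (v5 % 4) (v % 4)
  | _ => false

theorem e4_zero (p q r s : ℕ) (h : p = q ∨ p = r ∨ p = s ∨ q = r ∨ q = s ∨ r = s) :
    e4 p q r s = 0 := by
  have hb : ∀ x : ℕ, Nat.beq x x = true := Nat.beq_refl
  unfold e4
  rcases h with h | h | h | h | h | h <;> subst h <;> simp [hb]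

theorem bad_ok (v : ℕ) (acc : List ℕ) (h : bad v acc = true) (l : List ℕ) :
    FF (l ++ v :: acc) = 0 := by
  have hb : ∀ a b : ℕ, Nat.beq a b = true → a = b := fun a b => Nat.eq_of_beq_eq_true
  rcases acc with _ | ⟨a0, _ | ⟨a1, _ | ⟨a2, _ | ⟨a3, _ | ⟨a4, _ | ⟨a5, _ | ⟨a6, acc⟩⟩⟩⟩⟩⟩⟩
  · exact absurd h (by simp [bad])
  · simp only [bad, Bool.or_eq_true] at h
    rcases l with _ | ⟨b0, _ | ⟨b1, _ | ⟨b2, _ | ⟨b3, _ | ⟨b4, _ | ⟨b5, _ | ⟨b6, l⟩⟩⟩⟩⟩⟩⟩
    · rfl
    · rfl
    · rfl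
    · rfl
    · rfl
    · simp only [FF, List.cons_append, List.nil_append]
      rw [e4_zero (a0 / 4) (v / 4) (b4 / 4) (b3 / 4) (by
        have h := hb _ _ h; omega)]
      simp
    · rfl
    · cases l <;> rfl
  · simp only [bad, Bool.or_eq_true] at h
    rcases l with _ | ⟨b0, _ | ⟨b1, _ | ⟨b2, _ | ⟨b3, _ | ⟨b4, _ | ⟨b5, _ | ⟨b6, l⟩⟩⟩⟩⟩⟩⟩
    · rfl
    · rfl
    · rfl
    · rfl
    · simp only [FF, List.cons_append, List.nil_append]
      rw [e4_zero (a1 / 4) (a0 / 4) (v / 4) (b3 / 4) (by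
        rcases h with h | h <;> have h := hb _ _ h <;> omega)]
      simp
    · rfl
    · rfl
    · cases l <;> rfl
  · simp only [bad, Bool.or_eq_true] at h
    rcases l with _ | ⟨b0, _ | ⟨b1, _ | ⟨b2, _ | ⟨b3, _ | ⟨b4, _ | ⟨b5, _ | ⟨b6, l⟩⟩⟩⟩⟩⟩⟩
    · rfl
    · rfl
    · rfl
    · simp only [FF, List.cons_append, List.nil_append]
      rw [e4_zero (a2 / 4) (a1 / 4) (a0 / 4) (v / 4) (by
        rcases h with (h | h) | h <;> have h := hb _ _ h <;> omega)]
      simp
    · rfl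
    · rfl
    · rfl
    · cases l <;> rfl
  · simp only [bad, Bool.or_eq_true] at h
    rcases l with _ | ⟨b0, _ | ⟨b1, _ | ⟨b2, _ | ⟨b3, _ | ⟨b4, _ | ⟨b5, _ | ⟨b6, l⟩⟩⟩⟩⟩⟩⟩
    · rfl
    · rfl
    · simp only [FF, List.cons_append, List.nil_append]
      rw [e4_zero (a0 % 4) (v % 4) (b1 % 4) (b0 % 4) (by
        have h := hb _ _ h; omega)]
      simp
    · rfl
    · rfl
    · rfl
    · rfl
    · cases l <;> rfl
  · simp only [bad, Bool.or_eq_true] at h
    rcases l with _ | ⟨b0, _ | ⟨b1, _ | ⟨b2, _ | ⟨b3, _ | ⟨b4, _ | ⟨b5, _ | ⟨b6, l⟩⟩⟩⟩⟩⟩⟩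
    · rfl
    · simp only [FF, List.cons_append, List.nil_append]
      rw [e4_zero (a1 % 4) (a0 % 4) (v % 4) (b0 % 4) (by
        rcases h with h | h <;> have h := hb _ _ h <;> omega)]
      simp
    · rfl
    · rfl
    · rfl
    · rfl
    · rfl
    · cases l <;> rfl
  · simp only [bad, Bool.or_eq_true] at h
    rcases l with _ | ⟨b0, _ | ⟨b1, _ | ⟨b2, _ | ⟨b3, _ | ⟨b4, _ | ⟨b5, _ | ⟨b6, l⟩⟩⟩⟩⟩⟩⟩
    · simp only [FF, List.cons_append, List.nil_append]
      rw [e4_zero (a2 % 4) (a1 % 4) (a0 % 4) (v % 4) (by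
        rcases h with (h | h) | h <;> have h := hb _ _ h <;> omega)]
      simp
    · rfl
    · rfl
    · rfl
    · rfl
    · rfl
    · rfl
    · cases l <;> rfl
  · exact absurd h (by simp [bad])

/-- table of the shuffles -/
def LL : List (ℤ × List ℕ) := [(1, [0, 4, 8, 12, 13, 14, 15]), (-1, [0, 4, 8, 9, 13, 14, 15]), (1, [0, 4, 8, 9, 10, 14, 15]), (-1, [0, 4, 8, 9, 10, 11, 15]), (1, [0, 4, 5, 9, 13, 14, 15]), (-1, [0, 4, 5, 9, 10, 14, 15]), (1, [0, 4, 5, 9, 10, 11, 15]), (1, [0, 4, 5, 6, 10, 14, 15]), (-1, [0, 4, 5, 6, 10, 11, 15]), (1, [0, 4, 5, 6, 7, 11, 15]), (-1, [0, 1, 5, 9, 13, 14, 15]), (1, [0, 1, 5, 9, 10, 14, 15]), (-1, [0, 1, 5, 9, 10, 11, 15]), (-1, [0, 1, 5, 6, 10, 14, 15]), (1, [0, 1, 5, 6, 10, 11, 15]), (-1, [0, 1, 5, 6, 7, 11, 15]), (1, [0, 1, 2, 6, 10, 14, 15]), (-1, [0, 1, 2, 6, 10, 11, 15]), (1, [0, 1, 2, 6, 7, 11, 15]), (-1, [0, 1, 2, 3, 7, 11, 15])]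

theorem LL_eq : Ez.L36.map (fun s => (sg s, (List.finRange 7).map (fun m : Fin 7 =>
    4 * (px 3 s m : ℕ) + (py 3 s m : ℕ)))) = LL := by decide +kernel

set_option maxRecDepth 100000 in
theorem total : (LL.map fun p => p.1 * go bad FF 7 (fun m => p.2.getD m 0) []).sum = 5040 := by
  decide +kernel

/-- the integer identity -/
theorem total' : ∑ s ∈ Sh 3 6, sg s * ∑ π : Perm (Fin 7), (Perm.sign π : ℤ) *
    (e4 (px 3 s (π 0)) (px 3 s (π 1)) (px 3 s (π 2)) (px 3 s (π 3)) *
      e4 (py 3 s (π 3)) (py 3 s (π 4)) (py 3 s (π 5)) (py 3 s (π 6))) = 5040 := by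
  have h36 : Sh 3 6 = Ez.L36.toFinset := by decide +kernel
  have hn : Ez.L36.Nodup := by decide +kernel
  rw [h36, List.sum_toFinset _ hn]
  have ht := total
  rw [← LL_eq, List.map_map] at ht
  refine Eq.trans ?_ ht
  refine congrArg List.sum ?_
  apply List.map_congr_left
  intro s _
  simp only [Function.comp]
  congr 1
  rw [go_eq bad FF bad_ok]
  refine Finset.sum_congr rfl (fun π _ => ?_)
  congr 1
  have hg : ∀ m : Fin 7, ((List.finRange 7).map (fun m : Fin 7 =>
      4 * (px 3 s m : ℕ) + (py 3 s m : ℕ))).getD (m : ℕ) 0 =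
      4 * (px 3 s m : ℕ) + (py 3 s m : ℕ) := by
    intro m
    fin_cases m <;> rfl
  have hl : (List.ofFn fun i : Fin 7 => ((List.finRange 7).map (fun m : Fin 7 =>
      4 * (px 3 s m : ℕ) + (py 3 s m : ℕ))).getD ((π i : Fin 7) : ℕ) 0).reverse ++ [] =
      [4 * (px 3 s (π 6) : ℕ) + (py 3 s (π 6) : ℕ), 4 * (px 3 s (π 5) : ℕ) + (py 3 s (π 5) : ℕ),
       4 * (px 3 s (π 4) : ℕ) + (py 3 s (π 4) : ℕ), 4 * (px 3 s (π 3) : ℕ) + (py 3 s (π 3) : ℕ),
       4 * (px 3 s (π 2) : ℕ) + (py 3 s (π 2) : ℕ), 4 * (px 3 s (π 1) : ℕ) + (py 3 s (π 1) : ℕ),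
       4 * (px 3 s (π 0) : ℕ) + (py 3 s (π 0) : ℕ)] := by
    simp only [hg]
    rfl
  rw [hl]
  have hx : ∀ m : Fin 7, (4 * (px 3 s m : ℕ) + (py 3 s m : ℕ)) / 4 = (px 3 s m : ℕ) := by
    intro m
    have := (py 3 s m).isLt
    omega
  have hy : ∀ m : Fin 7, (4 * (px 3 s m : ℕ) + (py 3 s m : ℕ)) % 4 = (py 3 s m : ℕ) := by
    intro m
    have := (py 3 s m).isLt
    omega
  simp only [FF, hx, hy]

end Cst

open Cst Equiv in
/-- CONST -/
theorem specConst : SpecConst := by
  intro H H' _ _ α β hα hβ x y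
  have h1 : ∀ (s : Finset (Fin 6)) (π : Perm (Fin 7)),
      α (fun m => x (px 3 s (π (i0 m)))) * β (fun m => y (py 3 s (π (i3 m)))) =
      ((e4 (px 3 s (π 0)) (px 3 s (π 1)) (px 3 s (π 2)) (px 3 s (π 3)) *
        e4 (py 3 s (π 3)) (py 3 s (π 4)) (py 3 s (π 5)) (py 3 s (π 6)) : ℤ) : ℝ) *
        (α x * β y) := by
    intro s π
    have e1 := coc_comp hα x (fun m => px 3 s (π (i0 m)))
    have e2 := coc_comp hβ y (fun m => py 3 s (π (i3 m)))
    rw [e1, e2]
    push_cast
    have a0 : i0 0 = 0 := rfl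
    have a1 : i0 1 = 1 := rfl
    have a2 : i0 2 = 2 := rfl
    have a3 : i0 3 = 3 := rfl
    have b0 : i3 0 = 3 := rfl
    have b1 : i3 1 = 4 := rfl
    have b2 : i3 2 = 5 := rfl
    have b3 : i3 3 = 6 := rfl
    rw [a0, a1, a2, a3, b0, b1, b2, b3]
    ring
  simp only [h1]
  have h2 := total'
  have h3 : (5040 : ℝ) * (α x * β y) =
      ((∑ s ∈ Sh 3 6, sg s * ∑ π : Perm (Fin 7), (Perm.sign π : ℤ) *
    (e4 (px 3 s (π 0)) (px 3 s (π 1)) (px 3 s (π 2)) (px 3 s (π 3)) *
      e4 (py 3 s (π 3)) (py 3 s (π 4)) (py 3 s (π 5)) (py 3 s (π 6))) : ℤ) : ℝ) *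
        (α x * β y) := by
    rw [h2]; norm_num
  refine Eq.trans ?_ h3.symm
  push_cast
  rw [Finset.sum_mul]
  refine Finset.sum_congr rfl (fun s _ => ?_)
  rw [mul_assoc, Finset.sum_mul]
  refine congrArg (fun z : ℝ => (sg s : ℝ) * z) ?_
  refine Finset.sum_congr rfl (fun π _ => ?_)
  ring

end TCMM
end

section
set_option autoImplicit false

/-!
# MP_ab96eb_gt, module EVB
-/

namespace TCMM

namespace EVB

variable {G : Bool → Type} [∀ i, Group (G i)]

/-! ### combinatorics of the lattice paths -/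

/-- exchange the steps `2` and `3` of the path -/
def gg (s : Finset (Fin 6)) : Finset (Fin 6) :=
  if (2 ∈ s ↔ 3 ∈ s) then s else s.map (Equiv.swap 2 3).toEmbedding

set_option maxRecDepth 100000 in
theorem comb1 : ∀ s ∈ Sh 3 6, gg s ∈ Sh 3 6 ∧ gg (gg s) = s ∧
    (¬ (2 ∈ s ↔ 3 ∈ s) → gg s ≠ s ∧ sg (gg s) = - sg s) := by decide +kernel

set_option maxRecDepth 100000 in
theorem comb2 : ∀ s ∈ Sh 3 6, (∀ m : Fin 7, m ≠ 3 → px 3 (gg s) m = px 3 s m ∧
    py 3 (gg s) m = py 3 s m) ∧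
    (∀ m : Fin 6, px 3 s m.castSucc = px 3 s m.succ ∨ py 3 s m.castSucc = py 3 s m.succ) ∧
    ((2 ∈ s ∧ 3 ∈ s) → py 3 s 2 = py 3 s 4) ∧ ((2 ∉ s ∧ 3 ∉ s) → px 3 s 2 = px 3 s 4) ∧
    ((2 ∈ s ∧ 3 ∉ s) → px 3 s 3 = px 3 s 4 ∧ py 3 s 3 = py 3 s 2 ∧
      px 3 (gg s) 3 = px 3 s 2 ∧ py 3 (gg s) 3 = py 3 s 4) ∧
    ((2 ∉ s ∧ 3 ∈ s) → px 3 s 3 = px 3 s 2 ∧ py 3 s 3 = py 3 s 4 ∧
      px 3 (gg s) 3 = px 3 s 4 ∧ py 3 (gg s) 3 = py 3 s 2) := by decide +kernel

set_option maxRecDepth 100000 in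
theorem comb3 : ∀ t : Fin 7 → Fin 3, 3 ≤ (Finset.univ.filter fun m => t m = 0).card →
    3 ≤ (Finset.univ.filter fun m => t m = 1).card →
    (∀ m : Fin 6, ¬ (t m.castSucc = 0 ∧ t m.succ = 1) ∧ ¬ (t m.castSucc = 1 ∧ t m.succ = 0)) →
    t 3 = 2 ∧ ((t 2 = 0 ∧ t 4 = 1) ∨ (t 2 = 1 ∧ t 4 = 0)) := by decide +kernel

/-! ### heads -/

theorem hd_excl {i j : Bool} (hij : i ≠ j) (w : FP G) (h : hd i w ≠ 1) : hd j w = 1 := by
  classical
  unfold hd at h ⊢
  have h1 : (Monoid.CoprodI.Word.equiv w).fstIdx = some i := by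
    by_contra hc
    exact h (by rw [Monoid.CoprodI.Word.equivPair_eq_of_fstIdx_ne hc])
  have h2 : (Monoid.CoprodI.Word.equiv w).fstIdx ≠ some j := by
    rw [h1]; intro hc; exact hij (Option.some.inj hc)
  rw [Monoid.CoprodI.Word.equivPair_eq_of_fstIdx_ne h2]

variable (hH : SpecHD)
include hH

theorem hd_one (i : Bool) : hd i (1 : FP G) = 1 := (hH G).2.2 i

theorem hd_inc (i : Bool) (g : G i) : hd i (inc (G := G) i g) = g := by
  have := (hH G).1 i g 1
  rw [mul_one, hd_one hH, mul_one] at this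
  exact this

theorem hd_inc' {i j : Bool} (hij : j ≠ i) (g : G j) : hd i (inc (G := G) j g) = 1 := by
  have := (hH G).2.1 i j hij g 1
  rw [one_mul, hd_one hH] at this
  exact this

open Classical in
theorem hd_two {i j : Bool} (hij : i ≠ j) (k : G j) (l : G i) :
    hd i (inc (G := G) j k * inc (G := G) i l) = if k = 1 then l else 1 := by
  split_ifs with hk
  · rw [hk, map_one, one_mul, hd_inc hH]
  · apply hd_excl hij.symm
    rw [(hH G).1, hd_inc' hH hij, mul_one]
    exact hk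

theorem Fc_rep {α : (Fin 4 → G false) → ℝ} {β : (Fin 4 → G true) → ℝ} (hα : Coc 3 α)
    (hβ : Coc 3 β) (h : G false) (k : G true) (w : Fin 7 → FP G) :
    Fc α β (fun m => inc (G := G) false h * w m * inc (G := G) true k) = Fc α β w := by
  unfold Fc
  have h1 : ∀ m, hd false (inc (G := G) false h * w m * inc (G := G) true k) =
      h * hd false (w m) := fun m => by
    rw [(hH G).2.1 false true (by simp), (hH G).1]
  have h2 : ∀ m, hd true (inc (G := G) false h * w m * inc (G := G) true k)⁻¹ =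
      k⁻¹ * hd true (w m)⁻¹ := fun m => by
    rw [mul_inv_rev, mul_inv_rev, ← map_inv, ← map_inv, (hH G).1,
      (hH G).2.1 true false (by simp)]
  simp only [h1, h2, hα.inv, hβ.inv]

omit hH in
theorem van {H : Type} [Group H] {α : (Fin 4 → H) → ℝ} (hα : Coc 3 α) {x : Fin 4 → H}
    {m n : Fin 4} (hmn : m ≠ n) (h : x m = x n) : α x = 0 := by
  have h1 := hα.alt (Equiv.swap m n) x
  have h2 : x ∘ (Equiv.swap m n) = x := by
    funext k
    simp only [Function.comp_apply]
    rcases eq_or_ne k m with rfl | h3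
    · rw [Equiv.swap_apply_left, h]
    rcases eq_or_ne k n with rfl | h4
    · rw [Equiv.swap_apply_right, h]
    · rw [Equiv.swap_apply_of_ne_of_ne h3 h4]
  rw [h2, Equiv.Perm.sign_swap hmn] at h1
  push_cast at h1
  linarith

/-! ### Step 1 -/

section Step1

variable {d : Vx G → Vx G → ℕ} (hd' : TreeD d) {i j : Bool} (hij : i ≠ j)

omit hH in
include hd' hij in
theorem ne0 (g x : FP G) : d (i, g) (j, x) ≠ 0 := fun h => hij ((hd'.zero _ _ _ _).1 h).1

omit hH in
include hd' hij in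
theorem dPQ : d (i, 1) (j, 1) = 2 := by
  rcases Bool.eq_false_or_eq_true i with rfl | rfl
  · have : j = false := by
      rcases Bool.eq_false_or_eq_true j with rfl | rfl
      · exact absurd rfl hij
      · rfl
    subst this
    rw [hd'.symm]; exact hd'.adj
  · have : j = true := by
      rcases Bool.eq_false_or_eq_true j with rfl | rfl
      · rfl
      · exact absurd rfl hij
    subst this
    exact hd'.adj

omit hH in
include hd' in
theorem d_inc_right (k : G i) (w : FP G) (v : Vx G) :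
    d (i, w * inc (G := G) i k) v = d (i, w) v := by
  have h0 : d (i, w) (i, w * inc (G := G) i k) = 0 := (hd'.zero _ _ _ _).2 ⟨rfl, k, rfl⟩
  have t1 := hd'.tri (i, w) (i, w * inc (G := G) i k) v
  have t2 := hd'.tri (i, w * inc (G := G) i k) (i, w) v
  have S := hd'.symm (i, w * inc (G := G) i k) (i, w)
  omega

omit hH in
include hd' hij in
/-- the data of a good index -/
theorem good {g b : FP G} {x : G j} {y : G i}
    (h : hd i (g⁻¹ * (inc (G := G) j x * (inc (G := G) i y)⁻¹) * b) ≠ hd i g⁻¹) :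
    d (j, 1) (j, (inc (G := G) i y)⁻¹ * b) =
      d (j, 1) (i, g) + d (i, (inc (G := G) j x)⁻¹ * g) (j, (inc (G := G) i y)⁻¹ * b) ∧
    d (j, 1) (i, (inc (G := G) j x)⁻¹ * g) = d (j, 1) (i, g) := by
  have S := hd'.symm
  have h1 := (hd'.sep i g j j (inc (G := G) j x * (inc (G := G) i y)⁻¹ * b) 1
    (ne0 hd' hij g _) (ne0 hd' hij g _)).2 (by
      rw [mul_one, ← mul_assoc]; exact h)
  have e1 : ∀ (z : FP G) (l : Bool), d (j, 1) (l, (inc (G := G) j x)⁻¹ * z) = d (j, 1) (l, z) := by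
    intro z l
    have h2 := hd'.inv (inc (G := G) j x) j l 1 ((inc (G := G) j x)⁻¹ * z)
    rw [← h2, mul_inv_cancel_left, mul_one]
    have h3 := d_inc_right hd' (i := j) x 1 (l, z)
    rw [one_mul] at h3
    exact h3
  refine ⟨?_, e1 g i⟩
  have h4 : d (i, (inc (G := G) j x)⁻¹ * g) (j, (inc (G := G) i y)⁻¹ * b) =
      d (i, g) (j, inc (G := G) j x * (inc (G := G) i y)⁻¹ * b) := by
    have h2 := hd'.inv (inc (G := G) j x) i j ((inc (G := G) j x)⁻¹ * g)
      ((inc (G := G) i y)⁻¹ * b)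
    rw [← h2, mul_inv_cancel_left, mul_assoc]
  have h5 : d (j, 1) (j, (inc (G := G) i y)⁻¹ * b) =
      d (j, 1) (j, inc (G := G) j x * (inc (G := G) i y)⁻¹ * b) := by
    have h2 := e1 (inc (G := G) j x * (inc (G := G) i y)⁻¹ * b) j
    rw [← h2]
    congr 2
    group
  rw [h5, h4]
  have s1 := S (j, 1) (j, inc (G := G) j x * (inc (G := G) i y)⁻¹ * b)
  have s2 := S (i, g) (j, 1)
  have s3 := S (i, g) (j, inc (G := G) j x * (inc (G := G) i y)⁻¹ * b)
  omega

include hd' hij in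
theorem up {g b : FP G} {x : G j} {y : G i}
    (h : hd i (g⁻¹ * (inc (G := G) j x * (inc (G := G) i y)⁻¹) * b) ≠ hd i g⁻¹)
    (hy : y ≠ hd i b) :
    x = hd j g ∧ (d (i, 1) (i, (inc (G := G) j (hd j g))⁻¹ * g) ≠ 0 →
      y = hd i b * (hd i ((inc (G := G) j (hd j g))⁻¹ * g))⁻¹) := by
  have S := hd'.symm
  obtain ⟨g1, g2⟩ := good hd' hij h
  have hPQ := dPQ hd' hij
  have hrho := hd'.two (j, 1) (i, g) (ne0 hd' hij.symm 1 g)
  have hB : hd i ((inc (G := G) i y)⁻¹ * b) = y⁻¹ * hd i b := by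
    rw [← map_inv, (hH G).1]
  have hBne : hd i ((inc (G := G) i y)⁻¹ * b) ≠ hd i (1 : FP G) := by
    rw [hB, hd_one hH]
    intro hc
    exact hy (inv_mul_eq_one.1 hc)
  -- `P` separates `Q` and `B_m`
  have h1 := (hd'.sep i 1 j j ((inc (G := G) i y)⁻¹ * b) 1 (ne0 hd' hij 1 _)
    (ne0 hd' hij 1 _)).2 (by rw [inv_one, one_mul, mul_one]; exact hBne)
  rw [S (j, (inc (G := G) i y)⁻¹ * b) (j, 1), hPQ] at h1
  have hx : x = hd j g := by
    by_contra hx
    have hA : hd j ((inc (G := G) j x)⁻¹ * g) = x⁻¹ * hd j g := by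
      rw [← map_inv, (hH G).1]
    have h2 := (hd'.sep j 1 i i ((inc (G := G) j x)⁻¹ * g) 1 (ne0 hd' hij.symm 1 _)
      (ne0 hd' hij.symm 1 _)).2 (by
        rw [inv_one, one_mul, mul_one, hA, hd_one hH]
        intro hc
        exact hx (inv_mul_eq_one.1 hc))
    have f := hd'.four (i, (inc (G := G) j x)⁻¹ * g) (i, 1) (j, 1)
      (j, (inc (G := G) i y)⁻¹ * b)
    rw [S (i, (inc (G := G) j x)⁻¹ * g) (j, 1)] at f h2
    rw [S (j, 1) (i, 1), hPQ] at h2
    rw [hPQ] at f
    rw [S (j, (inc (G := G) i y)⁻¹ * b) (i, 1)] at h1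
    omega
  refine ⟨hx, fun hne => ?_⟩
  subst hx
  by_contra hyy
  have h2 := (hd'.sep i 1 i j ((inc (G := G) j (hd j g))⁻¹ * g) ((inc (G := G) i y)⁻¹ * b) hne
    (ne0 hd' hij 1 _)).2 (by
      rw [inv_one, one_mul, one_mul, hB]
      intro hc
      apply hyy
      rw [hc]
      group)
  rw [S (i, (inc (G := G) j (hd j g))⁻¹ * g) (i, 1)] at h2
  rw [S (j, (inc (G := G) i y)⁻¹ * b) (i, 1)] at h1
  have := hd'.two _ _ hne
  omega

include hd' hij in
theorem dn {g b : FP G} {x : G j} {y : G i}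
    (h : hd i (g⁻¹ * (inc (G := G) j x * (inc (G := G) i y)⁻¹) * b) ≠ hd i g⁻¹)
    (hy : y = hd i b) :
    x = hd j g * (hd j ((inc (G := G) i (hd i b))⁻¹ * b))⁻¹ := by
  have S := hd'.symm
  obtain ⟨g1, g2⟩ := good hd' hij h
  have hrho := hd'.two (j, 1) (i, g) (ne0 hd' hij.symm 1 g)
  subst hy
  by_contra hx
  have hA : hd j ((inc (G := G) j x)⁻¹ * g) = x⁻¹ * hd j g := by
    rw [← map_inv, (hH G).1]
  have h2 := (hd'.sep j 1 i j ((inc (G := G) j x)⁻¹ * g) ((inc (G := G) i (hd i b))⁻¹ * b)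
    (ne0 hd' hij.symm 1 _) (by omega)).2 (by
      rw [inv_one, one_mul, one_mul, hA]
      intro hc
      apply hx
      rw [← hc]
      group)
  rw [S (i, (inc (G := G) j x)⁻¹ * g) (j, 1)] at h2
  omega

include hd' hij in
theorem step1 (g b : FP G) (X : Fin 4 → G j) (Y : Fin 4 → G i)
    (h : ∀ m n, m ≠ n → hd i (g⁻¹ * (inc (G := G) j (X m) * (inc (G := G) i (Y m))⁻¹) * b) ≠
      hd i (g⁻¹ * (inc (G := G) j (X n) * (inc (G := G) i (Y n))⁻¹) * b)) :
    ∃ k : G i, g = inc (G := G) j (hd j g) * inc (G := G) i k := by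
  classical
  by_contra hcon
  have hne : d (i, 1) (i, (inc (G := G) j (hd j g))⁻¹ * g) ≠ 0 := by
    intro h0
    obtain ⟨-, k, hk⟩ := (hd'.zero _ _ _ _).1 h0
    apply hcon
    refine ⟨k, ?_⟩
    rw [one_mul] at hk
    rw [← hk, mul_inv_cancel_left]
  -- the two classes of good indices have at most one element each
  have key : ∀ m n, m ≠ n →
      hd i (g⁻¹ * (inc (G := G) j (X m) * (inc (G := G) i (Y m))⁻¹) * b) ≠ hd i g⁻¹ →
      hd i (g⁻¹ * (inc (G := G) j (X n) * (inc (G := G) i (Y n))⁻¹) * b) ≠ hd i g⁻¹ →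
      (Y m = hd i b ↔ Y n = hd i b) → False := by
    intro m n hmn hm hn hiff
    apply h m n hmn
    by_cases hy : Y m = hd i b
    · have hy' := hiff.1 hy
      have e1 := dn hH hd' hij hm hy
      have e2 := dn hH hd' hij hn hy'
      rw [e1, e2, hy, hy']
    · have hy' : Y n ≠ hd i b := fun hc => hy (hiff.2 hc)
      obtain ⟨e1, e2⟩ := up hH hd' hij hm hy
      obtain ⟨e3, e4⟩ := up hH hd' hij hn hy'
      rw [e1, e3, e2 hne, e4 hne]
  -- three good indices
  let s : Finset (Fin 4) := Finset.univ.filter fun m =>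
    hd i (g⁻¹ * (inc (G := G) j (X m) * (inc (G := G) i (Y m))⁻¹) * b) ≠ hd i g⁻¹
  have hcard : 2 < s.card := by
    have hc : (Finset.univ.filter fun m => ¬ (hd i (g⁻¹ * (inc (G := G) j (X m) *
        (inc (G := G) i (Y m))⁻¹) * b) ≠ hd i g⁻¹)).card ≤ 1 := by
      rw [Finset.card_le_one]
      intro m hm n hn
      simp only [Finset.mem_filter, Finset.mem_univ, true_and, not_not] at hm hn
      by_contra hmn
      exact h m n hmn (by rw [hm, hn])
    have hs := Finset.card_filter_add_card_filter_not (s := (Finset.univ : Finset (Fin 4)))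
      (fun m => hd i (g⁻¹ * (inc (G := G) j (X m) * (inc (G := G) i (Y m))⁻¹) * b) ≠ hd i g⁻¹)
    have h4 : (Finset.univ : Finset (Fin 4)).card = 4 := by simp
    have : s.card + (Finset.univ.filter fun m => ¬ (hd i (g⁻¹ * (inc (G := G) j (X m) *
        (inc (G := G) i (Y m))⁻¹) * b) ≠ hd i g⁻¹)).card = 4 := hs.trans h4
    omega
  obtain ⟨m0, m1, m2, hm0, hm1, hm2, h01, h02, h12⟩ := Finset.two_lt_card_iff.mp hcard
  have p0 := (Finset.mem_filter.1 hm0).2
  have p1 := (Finset.mem_filter.1 hm1).2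
  have p2 := (Finset.mem_filter.1 hm2).2
  by_cases a0 : Y m0 = hd i b <;> by_cases a1 : Y m1 = hd i b <;> by_cases a2 : Y m2 = hd i b
  · exact key m0 m1 h01 p0 p1 (by simp [a0, a1])
  · exact key m0 m1 h01 p0 p1 (by simp [a0, a1])
  · exact key m0 m2 h02 p0 p2 (by simp [a0, a2])
  · exact key m1 m2 h12 p1 p2 (by simp [a1, a2])
  · exact key m1 m2 h12 p1 p2 (by simp [a1, a2])
  · exact key m0 m2 h02 p0 p2 (by simp [a0, a2])
  · exact key m0 m1 h01 p0 p1 (by simp [a0, a1])
  · exact key m0 m1 h01 p0 p1 (by simp [a0, a1])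

end Step1

/-! ### Step 2 -/

/-- first component of the contribution of the pair `(a P, b Q)` -/
noncomputable def ep (a : G true) (b : G false) (x : G true) (y : G false) : G false :=
  open Classical in if x = a then y⁻¹ * b else 1

/-- second component of the contribution of the pair `(a P, b Q)` -/
noncomputable def et (a : G true) (b : G false) (x : G true) (y : G false) : G true :=
  open Classical in if y = b then x⁻¹ * a else 1

/-- the contribution of the pair `(a P, b Q)` -/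
noncomputable def Tm (α : (Fin 4 → G false) → ℝ) (β : (Fin 4 → G true) → ℝ)
    (X : Fin 7 → G true) (Y : Fin 7 → G false) (p : G true × G false) : ℝ :=
  α (fun m => ep p.1 p.2 (X (i0 m)) (Y (i0 m))) * β (fun m => et p.1 p.2 (X (i3 m)) (Y (i3 m)))

theorem Fc_ab (α : (Fin 4 → G false) → ℝ) (β : (Fin 4 → G true) → ℝ)
    (X : Fin 7 → G true) (Y : Fin 7 → G false) (a : G true) (b : G false) :
    Fc α β (fun m => (inc (G := G) true a)⁻¹ * (inc (G := G) true (X m) *
      (inc (G := G) false (Y m))⁻¹) * inc (G := G) false b) = Tm α β X Y (a, b) := by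
  unfold Fc Tm
  have h1 : ∀ m, hd false ((inc (G := G) true a)⁻¹ * (inc (G := G) true (X m) *
      (inc (G := G) false (Y m))⁻¹) * inc (G := G) false b) = ep a b (X m) (Y m) := fun m => by
    have e : (inc (G := G) true a)⁻¹ * (inc (G := G) true (X m) *
      (inc (G := G) false (Y m))⁻¹) * inc (G := G) false b =
      inc (G := G) true (a⁻¹ * X m) * inc (G := G) false ((Y m)⁻¹ * b) := by
        simp only [map_mul, map_inv, mul_assoc]
    rw [e, hd_two hH (by simp)]
    unfold ep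
    by_cases h : X m = a
    · rw [if_pos h, if_pos (by rw [h, inv_mul_cancel])]
    · rw [if_neg h, if_neg (fun hc => h (inv_mul_eq_one.1 hc).symm)]
  have h2 : ∀ m, hd true ((inc (G := G) true a)⁻¹ * (inc (G := G) true (X m) *
      (inc (G := G) false (Y m))⁻¹) * inc (G := G) false b)⁻¹ = et a b (X m) (Y m) := fun m => by
    have e : ((inc (G := G) true a)⁻¹ * (inc (G := G) true (X m) *
      (inc (G := G) false (Y m))⁻¹) * inc (G := G) false b)⁻¹ =
      inc (G := G) false (b⁻¹ * Y m) * inc (G := G) true ((X m)⁻¹ * a) := by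
        simp only [map_mul, map_inv, mul_assoc, mul_inv_rev, inv_inv]
    rw [e, hd_two hH (by simp)]
    unfold et
    by_cases h : Y m = b
    · rw [if_pos h, if_pos (by rw [h, inv_mul_cancel])]
    · rw [if_neg h, if_neg (fun hc => h (inv_mul_eq_one.1 hc).symm)]
  simp only [h1, h2]

omit hH in
theorem Tm_ne {α : (Fin 4 → G false) → ℝ} {β : (Fin 4 → G true) → ℝ} (hα : Coc 3 α)
    (hβ : Coc 3 β) {X : Fin 7 → G true} {Y : Fin 7 → G false} {p : G true × G false}
    (h : Tm α β X Y p ≠ 0) : (∃ m, X m = p.1) ∧ ∃ m, Y m = p.2 := by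
  constructor
  · by_contra hc
    push Not at hc
    apply h
    unfold Tm
    rw [van hα (m := 0) (n := 1) (by decide) (by
      unfold ep; rw [if_neg (hc _), if_neg (hc _)]), zero_mul]
  · by_contra hc
    push Not at hc
    apply h
    unfold Tm
    rw [van hβ (m := 0) (n := 1) (by decide) (by
      unfold et; rw [if_neg (hc _), if_neg (hc _)]), mul_zero]

/-- the pair of vertices `(a P, b Q)` -/
noncomputable def pr (p : G true × G false) :
    (FP G ⧸ HH (G := G) false) × (FP G ⧸ HH (G := G) true) :=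
  (QuotientGroup.mk (inc (G := G) true p.1), QuotientGroup.mk (inc (G := G) false p.2))

theorem pr_inj : Function.Injective (pr (G := G)) := by
  rintro ⟨a, b⟩ ⟨a', b'⟩ h
  simp only [pr, Prod.mk.injEq] at h
  obtain ⟨h1, h2⟩ := h
  rw [QuotientGroup.eq] at h1 h2
  obtain ⟨k, hk⟩ := h1
  obtain ⟨l, hl⟩ := h2
  have e1 : k = 1 := by
    have := congrArg (hd false) hk
    rw [hd_inc hH, ← map_inv, ← map_mul, hd_inc' hH (by simp)] at this
    exact this
  have e2 : l = 1 := by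
    have := congrArg (hd true) hl
    rw [hd_inc hH, ← map_inv, ← map_mul, hd_inc' hH (by simp)] at this
    exact this
  rw [e1, map_one, ← map_inv, ← map_mul] at hk
  rw [e2, map_one, ← map_inv, ← map_mul] at hl
  have f1 := congrArg (hd true) hk
  have f2 := congrArg (hd false) hl
  rw [hd_inc hH, hd_one hH] at f1 f2
  rw [inv_mul_eq_one.1 f1.symm, inv_mul_eq_one.1 f2.symm]

open Classical in
theorem uc_eq (hT : SpecTree) {α : (Fin 4 → G false) → ℝ} {β : (Fin 4 → G true) → ℝ}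
    (hα : Coc 3 α) (hβ : Coc 3 β) (X : Fin 7 → G true) (Y : Fin 7 → G false)
    (A : Finset (G true)) (B : Finset (G false)) (hA : ∀ m, X m ∈ A) (hB : ∀ m, Y m ∈ B) :
    uc α β (fun m => inc (G := G) true (X m) * (inc (G := G) false (Y m))⁻¹) =
      ∑ p ∈ A ×ˢ B, Tm α β X Y p := by
  obtain ⟨d, hd'⟩ := hT G
  have val : ∀ p : G true × G false, Fc α β (fun m => ((pr p).1.out)⁻¹ *
      (inc (G := G) true (X m) * (inc (G := G) false (Y m))⁻¹) * (pr p).2.out) =
      Tm α β X Y p := by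
    intro p
    obtain ⟨⟨_, k, rfl⟩, hk⟩ := QuotientGroup.mk_out_eq_mul (HH (G := G) false)
      (inc (G := G) true p.1)
    obtain ⟨⟨_, l, rfl⟩, hl⟩ := QuotientGroup.mk_out_eq_mul (HH (G := G) true)
      (inc (G := G) false p.2)
    simp only at hk hl
    have e1 : (pr p).1.out = inc (G := G) true p.1 * inc (G := G) false k := hk
    have e2 : (pr p).2.out = inc (G := G) false p.2 * inc (G := G) true l := hl
    rw [e1, e2]
    refine Eq.trans ?_ ((Fc_rep hH hα hβ k⁻¹ l _).trans (Fc_ab hH α β X Y p.1 p.2))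
    refine congrArg _ (funext fun m => ?_)
    simp only [map_inv, mul_inv_rev, mul_assoc]
  have hsupp : Function.support (fun q : (FP G ⧸ HH (G := G) false) × (FP G ⧸ HH (G := G) true) =>
      Fc α β (fun m => (q.1.out)⁻¹ * (inc (G := G) true (X m) *
        (inc (G := G) false (Y m))⁻¹) * q.2.out)) ⊆ ((A ×ˢ B).image pr : Finset _) := by
    intro q hq
    rw [Function.mem_support] at hq
    have hα' : α (fun m => hd false ((q.1.out)⁻¹ * (inc (G := G) true (X (i0 m)) *
        (inc (G := G) false (Y (i0 m)))⁻¹) * q.2.out)) ≠ 0 := left_ne_zero_of_mul hq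
    have hβ' : β (fun m => hd true ((q.1.out)⁻¹ * (inc (G := G) true (X (i3 m)) *
        (inc (G := G) false (Y (i3 m)))⁻¹) * q.2.out)⁻¹) ≠ 0 := right_ne_zero_of_mul hq
    obtain ⟨k, hk⟩ := step1 hH hd' (i := false) (j := true) (by simp) q.1.out q.2.out
      (fun m => X (i0 m)) (fun m => Y (i0 m)) (fun m n hmn hc => hα' (van hα hmn hc))
    obtain ⟨l, hl⟩ := step1 hH hd' (i := true) (j := false) (by simp) q.2.out q.1.out
      (fun m => Y (i3 m)) (fun m => X (i3 m)) (fun m n hmn hc => hβ' (van hβ hmn (by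
        simp only [mul_inv_rev, inv_inv, mul_assoc] at hc ⊢
        exact hc)))
    have hq' : q = pr (hd true q.1.out, hd false q.2.out) := by
      unfold pr
      ext
      · simp only
        rw [← QuotientGroup.out_eq' q.1, QuotientGroup.eq]
        refine ⟨k⁻¹, ?_⟩
        rw [map_inv]
        have : (QuotientGroup.mk q.1.out : FP G ⧸ HH (G := G) false).out = q.1.out := by
          rw [QuotientGroup.out_eq']
        rw [this, eq_inv_mul_iff_mul_eq, mul_inv_eq_iff_eq_mul]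
        exact hk
      · simp only
        rw [← QuotientGroup.out_eq' q.2, QuotientGroup.eq]
        refine ⟨l⁻¹, ?_⟩
        rw [map_inv]
        have : (QuotientGroup.mk q.2.out : FP G ⧸ HH (G := G) true).out = q.2.out := by
          rw [QuotientGroup.out_eq']
        rw [this, eq_inv_mul_iff_mul_eq, mul_inv_eq_iff_eq_mul]
        exact hl
    rw [Finset.mem_coe, Finset.mem_image]
    refine ⟨(hd true q.1.out, hd false q.2.out), ?_, hq'.symm⟩
    have hT' : Tm α β X Y (hd true q.1.out, hd false q.2.out) ≠ 0 := by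
      rw [← val, ← hq']; exact hq
    obtain ⟨⟨m, hm⟩, ⟨n, hn⟩⟩ := Tm_ne hα hβ hT'
    rw [Finset.mem_product]
    exact ⟨by rw [← hm]; exact hA m, by rw [← hn]; exact hB n⟩
  unfold uc
  rw [finsum_eq_sum_of_support_subset _ hsupp, Finset.sum_image (fun x _ y _ h => pr_inj hH h)]
  exact Finset.sum_congr rfl fun p _ => val p

/-! ### Step 3 -/

omit hH in
theorem ep_cases {a x : G true} {b y : G false} (h : ep a b x y ≠ 1) :
    x = a ∧ y ≠ b ∧ et a b x y = 1 := by
  unfold ep at h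
  split_ifs at h with h1
  · have h2 : y ≠ b := fun hc => h (by rw [hc, inv_mul_cancel])
    exact ⟨h1, h2, by unfold et; rw [if_neg h2]⟩
  · exact absurd rfl h

omit hH in
theorem et_cases {a x : G true} {b y : G false} (h : et a b x y ≠ 1) :
    y = b ∧ x ≠ a ∧ ep a b x y = 1 := by
  unfold et at h
  split_ifs at h with h1
  · have h2 : x ≠ a := fun hc => h (by rw [hc, inv_mul_cancel])
    exact ⟨h1, h2, by unfold ep; rw [if_neg h2]⟩
  · exact absurd rfl h

omit hH in
theorem ep_one {a x : G true} {b y : G false} (h : x ≠ a) : ep a b x y = 1 := by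
  unfold ep; rw [if_neg h]

omit hH in
theorem et_one {a x : G true} {b y : G false} (h : y ≠ b) : et a b x y = 1 := by
  unfold et; rw [if_neg h]

/-- the type of a pair -/
noncomputable def ty (a : G true) (b : G false) (x : G true) (y : G false) : Fin 3 :=
  open Classical in if ep a b x y ≠ 1 then 0 else if et a b x y ≠ 1 then 1 else 2

omit hH in
theorem ty0 {a x : G true} {b y : G false} : ty a b x y = 0 ↔ ep a b x y ≠ 1 := by
  unfold ty
  split_ifs with h1 h2
  · simp [h1]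
  · simp at h1; simp [h1]
  · simp at h1; simp [h1]

omit hH in
theorem ty1 {a x : G true} {b y : G false} : ty a b x y = 1 ↔ et a b x y ≠ 1 := by
  unfold ty
  split_ifs with h1 h2
  · have := (ep_cases h1).2.2
    simp [this]
  · simp [h2]
  · simp at h2; simp [h2]

omit hH in
theorem ty2 {a x : G true} {b y : G false} (h : ty a b x y = 2) :
    ep a b x y = 1 ∧ et a b x y = 1 := by
  unfold ty at h
  split_ifs at h with h1 h2
  · exact absurd h (by decide)
  · exact absurd h (by decide)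
  · simp only [ne_eq, not_not] at h1 h2
    exact ⟨h1, h2⟩

omit hH in
/-- among four distinct values, at least three are nontrivial -/
theorem three {H : Type} [Group H] (π : Equiv.Perm (Fin 7)) (ι : Fin 4 → Fin 7)
    (hι : Function.Injective ι) (f : Fin 7 → H) (t : Fin 7 → Prop) [DecidablePred t]
    (ht : ∀ m, f m ≠ 1 → t m)
    (h : ∀ m n : Fin 4, m ≠ n → f (π (ι m)) ≠ f (π (ι n))) :
    3 ≤ (Finset.univ.filter fun m => t m).card := by
  classical
  have h1 : (Finset.univ.filter fun m : Fin 4 => ¬ (f (π (ι m)) ≠ 1)).card ≤ 1 := by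
    rw [Finset.card_le_one]
    intro m hm n hn
    simp only [Finset.mem_filter, Finset.mem_univ, true_and, not_not] at hm hn
    by_contra hmn
    exact h m n hmn (by rw [hm, hn])
  have h2 := Finset.card_filter_add_card_filter_not (s := (Finset.univ : Finset (Fin 4)))
      (fun m => f (π (ι m)) ≠ 1)
  have h3 : (Finset.univ : Finset (Fin 4)).card = 4 := by simp
  have h4 : 3 ≤ (Finset.univ.filter fun m : Fin 4 => f (π (ι m)) ≠ 1).card := by
    have h5 : (Finset.univ.filter fun m : Fin 4 => f (π (ι m)) ≠ 1).card +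
      (Finset.univ.filter fun m : Fin 4 => ¬ (f (π (ι m)) ≠ 1)).card = 4 := h2.trans h3
    omega
  refine h4.trans ?_
  rw [← Finset.card_image_of_injective _ (π.injective.comp hι)]
  apply Finset.card_le_card
  intro z hz
  rw [Finset.mem_image] at hz
  obtain ⟨m, hm, rfl⟩ := hz
  rw [Finset.mem_filter] at hm ⊢
  exact ⟨Finset.mem_univ _, ht _ hm.2⟩

omit hH in
theorem i0_inj : Function.Injective i0 := by decide

omit hH in
theorem i3_inj : Function.Injective i3 := by decide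

omit hH in
/-- the structure of a nonzero term -/
theorem struct {α : (Fin 4 → G false) → ℝ} {β : (Fin 4 → G true) → ℝ} (hα : Coc 3 α)
    (hβ : Coc 3 β) (x : Fin 4 → G true) (y : Fin 4 → G false) (π : Equiv.Perm (Fin 7))
    (a : G true) (b : G false) {s : Finset (Fin 6)} (hs : s ∈ Sh 3 6)
    (h : Tm α β (fun k => x (px 3 s (π k))) (fun k => y (py 3 s (π k))) (a, b) ≠ 0) :
    ty a b (x (px 3 s 3)) (y (py 3 s 3)) = 2 ∧
    ((ty a b (x (px 3 s 2)) (y (py 3 s 2)) = 0 ∧ ty a b (x (px 3 s 4)) (y (py 3 s 4)) = 1) ∨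
     (ty a b (x (px 3 s 2)) (y (py 3 s 2)) = 1 ∧ ty a b (x (px 3 s 4)) (y (py 3 s 4)) = 0)) := by
  have h1 := left_ne_zero_of_mul h
  have h2 := right_ne_zero_of_mul h
  refine comb3 (fun m => ty a b (x (px 3 s m)) (y (py 3 s m))) ?_ ?_ ?_
  · exact three π i0 i0_inj (fun m => ep a b (x (px 3 s m)) (y (py 3 s m))) _
      (fun m hm => ty0.2 hm) (fun m n hmn hc => h1 (van hα hmn hc))
  · exact three π i3 i3_inj (fun m => et a b (x (px 3 s m)) (y (py 3 s m))) _
      (fun m hm => ty1.2 hm) (fun m n hmn hc => h2 (van hβ hmn hc))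
  · intro m
    constructor
    · rintro ⟨e1, e2⟩
      have f1 := ep_cases (ty0.1 e1)
      have f2 := et_cases (ty1.1 e2)
      rcases (comb2 s hs).2.1 m with h3 | h3
      · rw [← h3] at f2
        exact f2.2.1 f1.1
      · rw [← h3] at f2
        exact f1.2.1 f2.1
    · rintro ⟨e1, e2⟩
      have f1 := ep_cases (ty0.1 e2)
      have f2 := et_cases (ty1.1 e1)
      rcases (comb2 s hs).2.1 m with h3 | h3
      · rw [h3] at f2
        exact f2.2.1 f1.1
      · rw [h3] at f2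
        exact f1.2.1 f2.1

omit hH in
theorem corner {a x₁ x₂ : G true} {b y₁ y₂ : G false}
    (h : (ty a b x₁ y₁ = 0 ∧ ty a b x₂ y₂ = 1) ∨ (ty a b x₁ y₁ = 1 ∧ ty a b x₂ y₂ = 0)) :
    ep a b x₁ y₂ = 1 ∧ et a b x₁ y₂ = 1 ∧ ep a b x₂ y₁ = 1 ∧ et a b x₂ y₁ = 1 := by
  rcases h with ⟨h1, h2⟩ | ⟨h1, h2⟩
  · have f1 := ep_cases (ty0.1 h1)
    have f2 := et_cases (ty1.1 h2)
    refine ⟨?_, ?_, ep_one f2.2.1, et_one f1.2.1⟩
    · rw [f1.1, f2.1]; unfold ep; rw [if_pos rfl, inv_mul_cancel]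
    · rw [f1.1, f2.1]; unfold et; rw [if_pos rfl, inv_mul_cancel]
  · have f1 := et_cases (ty1.1 h1)
    have f2 := ep_cases (ty0.1 h2)
    refine ⟨ep_one f1.2.1, et_one f2.2.1, ?_, ?_⟩
    · rw [f1.1, f2.1]; unfold ep; rw [if_pos rfl, inv_mul_cancel]
    · rw [f1.1, f2.1]; unfold et; rw [if_pos rfl, inv_mul_cancel]

omit hH in
theorem corner' {a x₁ x₂ : G true} {b y₁ y₂ : G false}
    (h : (ty a b x₁ y₁ = 0 ∧ ty a b x₂ y₂ = 1) ∨ (ty a b x₁ y₁ = 1 ∧ ty a b x₂ y₂ = 0)) :
    x₁ ≠ x₂ ∧ y₁ ≠ y₂ := by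
  rcases h with ⟨h1, h2⟩ | ⟨h1, h2⟩
  · have f1 := ep_cases (ty0.1 h1)
    have f2 := et_cases (ty1.1 h2)
    exact ⟨fun hc => f2.2.1 (by rw [← hc]; exact f1.1), fun hc => f1.2.1 (by rw [hc]; exact f2.1)⟩
  · have f1 := et_cases (ty1.1 h1)
    have f2 := ep_cases (ty0.1 h2)
    exact ⟨fun hc => f1.2.1 (by rw [hc]; exact f2.1), fun hc => f2.2.1 (by rw [← hc]; exact f1.1)⟩

omit hH in
theorem ex_iff {α : (Fin 4 → G false) → ℝ} {β : (Fin 4 → G true) → ℝ} (hα : Coc 3 α)
    (hβ : Coc 3 β) (x : Fin 4 → G true) (y : Fin 4 → G false) (π : Equiv.Perm (Fin 7))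
    (a : G true) (b : G false) {s : Finset (Fin 6)} (hs : s ∈ Sh 3 6) (hi : 2 ∈ s ↔ 3 ∈ s) :
    Tm α β (fun k => x (px 3 s (π k))) (fun k => y (py 3 s (π k))) (a, b) = 0 := by
  by_contra h
  have h1 := corner' (struct hα hβ x y π a b hs h).2
  by_cases h2 : 2 ∈ s
  · exact h1.2 (by rw [(comb2 s hs).2.2.1 ⟨h2, hi.1 h2⟩])
  · exact h1.1 (by rw [(comb2 s hs).2.2.2.1 ⟨h2, fun hc => h2 (hi.2 hc)⟩])

omit hH in
theorem ex_ne {α : (Fin 4 → G false) → ℝ} {β : (Fin 4 → G true) → ℝ} (hα : Coc 3 α)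
    (hβ : Coc 3 β) (x : Fin 4 → G true) (y : Fin 4 → G false) (π : Equiv.Perm (Fin 7))
    (a : G true) (b : G false) {s : Finset (Fin 6)} (hs : s ∈ Sh 3 6) (hi : ¬ (2 ∈ s ↔ 3 ∈ s))
    (h : Tm α β (fun k => x (px 3 s (π k))) (fun k => y (py 3 s (π k))) (a, b) ≠ 0) :
    Tm α β (fun k => x (px 3 (gg s) (π k))) (fun k => y (py 3 (gg s) (π k))) (a, b) =
    Tm α β (fun k => x (px 3 s (π k))) (fun k => y (py 3 s (π k))) (a, b) := by
  obtain ⟨h3, h24⟩ := struct hα hβ x y π a b hs h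
  have c := corner h24
  have e3 := ty2 h3
  have g3 : ep a b (x (px 3 (gg s) 3)) (y (py 3 (gg s) 3)) = 1 ∧
      et a b (x (px 3 (gg s) 3)) (y (py 3 (gg s) 3)) = 1 := by
    by_cases h2 : 2 ∈ s
    · have h3' : 3 ∉ s := fun hc => hi ⟨fun _ => hc, fun _ => h2⟩
      obtain ⟨-, -, e1, e2⟩ := (comb2 s hs).2.2.2.2.1 ⟨h2, h3'⟩
      rw [e1, e2]
      exact ⟨c.1, c.2.1⟩
    · have h3' : 3 ∈ s := by
        by_contra hc
        exact hi ⟨fun hh => absurd hh h2, fun hh => absurd hh hc⟩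
      obtain ⟨-, -, e1, e2⟩ := (comb2 s hs).2.2.2.2.2 ⟨h2, h3'⟩
      rw [e1, e2]
      exact ⟨c.2.2.1, c.2.2.2⟩
  have key : ∀ m : Fin 7, ep a b (x (px 3 (gg s) m)) (y (py 3 (gg s) m)) =
      ep a b (x (px 3 s m)) (y (py 3 s m)) ∧
      et a b (x (px 3 (gg s) m)) (y (py 3 (gg s) m)) = et a b (x (px 3 s m)) (y (py 3 s m)) := by
    intro m
    by_cases hm : m = 3
    · subst hm
      exact ⟨g3.1.trans e3.1.symm, g3.2.trans e3.2.symm⟩
    · obtain ⟨e1, e2⟩ := (comb2 s hs).1 m hm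
      rw [e1, e2]
      exact ⟨rfl, rfl⟩
  unfold Tm
  simp only [(key _).1, (key _).2]

omit hH in
theorem step3 {α : (Fin 4 → G false) → ℝ} {β : (Fin 4 → G true) → ℝ} (hα : Coc 3 α)
    (hβ : Coc 3 β) (x : Fin 4 → G true) (y : Fin 4 → G false) (π : Equiv.Perm (Fin 7))
    (p : G true × G false) :
    ∑ s ∈ Sh 3 6, (sg s : ℝ) *
      Tm α β (fun k => x (px 3 s (π k))) (fun k => y (py 3 s (π k))) p = 0 := by
  obtain ⟨a, b⟩ := p
  refine Finset.sum_involution (fun s _ => gg s) ?_ ?_ (fun s hs => (comb1 s hs).1)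
    (fun s hs => (comb1 s hs).2.1)
  · intro s hs
    by_cases hi : 2 ∈ s ↔ 3 ∈ s
    · have hg : gg s = s := by unfold gg; rw [if_pos hi]
      simp only [hg, ex_iff hα hβ x y π a b hs hi, mul_zero, add_zero]
    · obtain ⟨hg, hgg, h3⟩ := comb1 s hs
      obtain ⟨hne, hsg⟩ := h3 hi
      have hi' : ¬ (2 ∈ gg s ↔ 3 ∈ gg s) := by
        intro hc
        have : gg (gg s) = gg s := by
          conv_lhs => unfold gg
          exact if_pos hc
        exact hne (by rw [← this, hgg])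
      have hF : Tm α β (fun k => x (px 3 (gg s) (π k))) (fun k => y (py 3 (gg s) (π k))) (a, b) =
          Tm α β (fun k => x (px 3 s (π k))) (fun k => y (py 3 s (π k))) (a, b) := by
        by_cases h : Tm α β (fun k => x (px 3 s (π k))) (fun k => y (py 3 s (π k))) (a, b) = 0
        · by_contra hc
          have h' : Tm α β (fun k => x (px 3 (gg s) (π k))) (fun k => y (py 3 (gg s) (π k)))
              (a, b) ≠ 0 := fun h0 => hc (h0.trans h.symm)
          have := ex_ne hα hβ x y π a b hg hi' h'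
          rw [hgg] at this
          exact hc this.symm
        · exact ex_ne hα hβ x y π a b hs hi h
      simp only [hF, hsg]
      push_cast
      ring
  · intro s hs hne
    by_cases hi : 2 ∈ s ↔ 3 ∈ s
    · exact absurd (by simp only [ex_iff hα hβ x y π a b hs hi, mul_zero]) hne
    · exact ((comb1 s hs).2.2 hi).1

end EVB

/-- module EVB -/
theorem specEvB (hT : SpecTree) (hH : SpecHD) : SpecEvB := by
  classical
  intro G _ α β hα hβ x y π
  have h1 : ∀ s : Finset (Fin 6),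
      uc α β ((fun m => inc (G := G) true (x (px 3 s m)) *
        (inc (G := G) false (y (py 3 s m)))⁻¹) ∘ π) =
      ∑ p ∈ (Finset.univ.image x) ×ˢ (Finset.univ.image y),
        EVB.Tm α β (fun k => x (px 3 s (π k))) (fun k => y (py 3 s (π k))) p := fun s =>
    EVB.uc_eq hH hT hα hβ (fun k => x (px 3 s (π k))) (fun k => y (py 3 s (π k))) _ _
      (fun m => Finset.mem_image_of_mem _ (Finset.mem_univ _))
      (fun m => Finset.mem_image_of_mem _ (Finset.mem_univ _))
  simp only [h1, Finset.mul_sum]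
  rw [Finset.sum_comm]
  exact Finset.sum_eq_zero fun p _ => EVB.step3 hα hβ x y π p

end TCMM
end

section
set_option autoImplicit false

/-!
# MP_ab96eb_gt : module EVA
-/

namespace TCMM

open MPb00168

namespace EVAM

/-! ## Pigeonhole -/

theorem pigeon3 (p0 p1 p2 : Fin 4 → Prop) (h : ∀ m, p0 m ∨ p1 m ∨ p2 m)
    (h0 : ∀ m n, p0 m → p0 n → m = n) (h1 : ∀ m n, p1 m → p1 n → m = n)
    (h2 : ∀ m n, p2 m → p2 n → m = n) : False := by
  classical
  let t : Fin 4 → Fin 3 := fun m => if p0 m then 0 else if p1 m then 1 else 2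
  obtain ⟨m, n, hmn, he⟩ := Fintype.exists_ne_map_eq_of_card_lt t (by simp)
  simp only [t] at he
  rcases h m with a | a | a <;> rcases h n with b | b | b
  all_goals
    split_ifs at he <;>
      first
        | (exact hmn (h0 _ _ (by assumption) (by assumption)))
        | (exact hmn (h1 _ _ (by assumption) (by assumption)))
        | (exact hmn (h2 _ _ (by assumption) (by assumption)))
        | (exact absurd he (by decide))

theorem pigeon2 (p0 p1 : Fin 4 → Prop) (h : ∀ m, p0 m ∨ p1 m)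
    (h0 : ∀ m n, p0 m → p0 n → m = n) (h1 : ∀ m n, p1 m → p1 n → m = n) : False := by
  refine pigeon3 p0 p1 (fun _ => False) ?_ h0 h1 (fun _ _ h => h.elim)
  intro m
  rcases h m with a | a
  · exact Or.inl a
  · exact Or.inr (Or.inl a)

variable {G : Bool → Type} [∀ i, Group (G i)]

/-- a word without first letter is trivial -/
theorem hd_both (w : FP G) (h0 : hd false w = 1) (h1 : hd true w = 1) : w = 1 := by
  classical
  set W := Monoid.CoprodI.Word.equiv w with hW
  by_contra hw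
  have hne : W.toList ≠ [] := by
    intro h
    apply hw
    have h2 : W = Monoid.CoprodI.Word.empty := Monoid.CoprodI.Word.ext h
    have h3 : Monoid.CoprodI.Word.equiv.symm W = w := by rw [hW, Equiv.symm_apply_apply]
    rw [← h3, h2]
    rfl
  have key : ∀ i : Bool, hd i w = 1 → (W.toList.head hne).1 ≠ i := by
    intro i hi hl
    subst hl
    have h4 : hd (W.toList.head hne).1 w = (W.toList.head hne).2 := by
      unfold hd
      rw [← hW, Monoid.CoprodI.Word.equivPair_head, dif_pos ⟨hne, rfl⟩]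
    rw [hi] at h4
    exact W.ne_one _ (List.head_mem hne) h4.symm
  have := key false h0
  have := key true h1
  cases h : (W.toList.head hne).1 <;> simp_all

/-! ## Consequences of the properties of the distance -/

variable {d : Vx G → Vx G → ℕ} (hT : TreeD d)

include hT

theorem d_self (x : Vx G) : d x x = 0 := by
  obtain ⟨i, w⟩ := x
  exact (hT.zero i i w w).2 ⟨rfl, 1, by simp⟩

theorem d_ft (x y : FP G) : d (false, x) (true, y) ≠ 0 := by
  intro h
  exact absurd ((hT.zero _ _ _ _).1 h).1 (by decide)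

theorem d_tf (x y : FP G) : d (true, x) (false, y) ≠ 0 := by
  intro h
  exact absurd ((hT.zero _ _ _ _).1 h).1 (by decide)

theorem d_congr {x y : Vx G} (h : d x y = 0) (z : Vx G) : d x z = d y z := by
  have h1 := hT.tri x y z
  have h2 := hT.tri y x z
  rw [hT.symm y x] at h2
  omega

theorem d_congr' {x y : Vx G} (h : d x y = 0) (z : Vx G) : d z x = d z y := by
  rw [hT.symm z x, hT.symm z y]
  exact d_congr hT h z

theorem d_coset (i : Bool) (w : FP G) (k : G i) : d (i, w * inc (G := G) i k) (i, w) = 0 :=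
  (hT.zero _ _ _ _).2 ⟨rfl, k⁻¹, by rw [map_inv]; group⟩

/-- a point between `A` and `Y` lies in the direction of `Y` -/
theorem dir_of_between {i j k : Bool} {g x y : FP G} (h1 : d (i, g) (j, x) ≠ 0)
    (h2 : d (i, g) (k, y) ≠ 0)
    (h : d (i, g) (k, y) = d (i, g) (j, x) + d (j, x) (k, y)) :
    hd i (g⁻¹ * x) = hd i (g⁻¹ * y) := by
  by_contra hne
  have h3 := (hT.sep i g j k x y h1 h2).2 hne
  rw [hT.symm (j, x) (i, g)] at h3
  omega

theorem between_of_dir {i j k : Bool} {g x y : FP G} (h1 : d (i, g) (j, x) ≠ 0)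
    (h2 : d (i, g) (k, y) ≠ 0) (h : hd i (g⁻¹ * x) ≠ hd i (g⁻¹ * y)) :
    d (j, x) (k, y) = d (j, x) (i, g) + d (i, g) (k, y) :=
  (hT.sep i g j k x y h1 h2).2 h

/-- moving by an element of `G i`: the base vertex is fixed -/
theorem base_move (i k : Bool) (c : G i) (y : FP G) :
    d (i, 1) (k, inc (G := G) i c * y) = d (i, 1) (k, y) := by
  have h1 := hT.inv (inc (G := G) i c) i k 1 y
  rw [← h1]
  refine d_congr hT ?_ _
  exact (hT.zero _ _ _ _).2 ⟨rfl, c, by simp⟩

end EVAM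

open EVAM

section

variable {G : Bool → Type} [∀ i, Group (G i)]

namespace EVAM

/-- First part: a pair of vertices with a nonzero contribution is the base pair. -/
theorem first {d : Vx G → Vx G → ℕ} (hT : TreeD d) (hH : SpecHD)
    (x : Fin 7 → G false) (y : Fin 7 → G true) (g b : FP G)
    (hf : ∀ m n : Fin 4, hd false (g⁻¹ * (inc (G := G) false (x (i0 m)) *
      (inc (G := G) true (y (i0 m)))⁻¹) * b) = hd false (g⁻¹ * (inc (G := G) false (x (i0 n)) *
      (inc (G := G) true (y (i0 n)))⁻¹) * b) → m = n)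
    (hh : ∀ m n : Fin 4, hd true (g⁻¹ * (inc (G := G) false (x (i3 m)) *
      (inc (G := G) true (y (i3 m)))⁻¹) * b)⁻¹ = hd true (g⁻¹ * (inc (G := G) false (x (i3 n)) *
      (inc (G := G) true (y (i3 n)))⁻¹) * b)⁻¹ → m = n) :
    d (false, g) (false, 1) = 0 ∧ d (true, b) (true, 1) = 0 := by
  obtain ⟨H1, H2, H3⟩ := hH G
  have hadj : d ((false, 1) : Vx G) (true, 1) = 2 := hT.adj
  have hadj' : d ((true, 1) : Vx G) (false, 1) = 2 := by rw [hT.symm]; exact hadj
  by_cases hA : d (false, g) (false, 1) = 0 <;> by_cases hB : d (true, b) (true, 1) = 0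
  · exact ⟨hA, hB⟩
  · -- A = P, B ≠ Q
    exfalso
    obtain ⟨-, k, hk⟩ := (hT.zero _ _ _ _).1 hA
    have hg : g = (inc (G := G) false k)⁻¹ := by
      rw [eq_inv_iff_mul_eq_one]; exact hk.symm
    have key : ∀ m : Fin 4, hd true (g⁻¹ * (inc (G := G) false (x (i3 m)) *
        (inc (G := G) true (y (i3 m)))⁻¹) * b)⁻¹ = hd true (b⁻¹ * 1) := by
      intro m
      by_contra hne
      have e1 : (g⁻¹ * (inc (G := G) false (x (i3 m)) *
        (inc (G := G) true (y (i3 m)))⁻¹) * b)⁻¹ = b⁻¹ * (inc (G := G) true (y (i3 m)) *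
          inc (G := G) false ((x (i3 m))⁻¹ * k⁻¹)) := by
        rw [hg, map_mul, map_inv, map_inv]; group
      rw [e1] at hne
      have h1 := between_of_dir hT (i := true) (j := true) (k := false) (g := b)
        (x := 1) (y := inc (G := G) true (y (i3 m)) * inc (G := G) false ((x (i3 m))⁻¹ * k⁻¹))
        hB (d_tf hT _ _) (Ne.symm hne)
      rw [base_move hT] at h1
      have h2 : d ((true, 1) : Vx G) (false, inc (G := G) false ((x (i3 m))⁻¹ * k⁻¹)) = 2 := by
        rw [← hadj']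
        refine d_congr' hT ?_ _
        have := d_coset hT false 1 ((x (i3 m))⁻¹ * k⁻¹)
        rwa [one_mul] at this
      have h3 := hT.two (true, 1) (true, b) (by rw [hT.symm]; exact hB)
      have h4 := hT.two _ _ (d_tf hT b
        (inc (G := G) true (y (i3 m)) * inc (G := G) false ((x (i3 m))⁻¹ * k⁻¹)))
      omega
    have := hh 0 1 (by rw [key, key])
    exact absurd this (by decide)
  · -- A ≠ P, B = Q
    exfalso
    obtain ⟨-, k, hk⟩ := (hT.zero _ _ _ _).1 hB
    have hb : b = (inc (G := G) true k)⁻¹ := by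
      rw [eq_inv_iff_mul_eq_one]; exact hk.symm
    have key : ∀ m : Fin 4, hd false (g⁻¹ * (inc (G := G) false (x (i0 m)) *
        (inc (G := G) true (y (i0 m)))⁻¹) * b) = hd false (g⁻¹ * 1) := by
      intro m
      by_contra hne
      have e1 : g⁻¹ * (inc (G := G) false (x (i0 m)) *
        (inc (G := G) true (y (i0 m)))⁻¹) * b = g⁻¹ * (inc (G := G) false (x (i0 m)) *
          inc (G := G) true ((y (i0 m))⁻¹ * k⁻¹)) := by
        rw [hb, map_mul, map_inv, map_inv]; group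
      rw [e1] at hne
      have h1 := between_of_dir hT (i := false) (j := false) (k := true) (g := g)
        (x := 1) (y := inc (G := G) false (x (i0 m)) * inc (G := G) true ((y (i0 m))⁻¹ * k⁻¹))
        hA (d_ft hT _ _) (Ne.symm hne)
      rw [base_move hT] at h1
      have h2 : d ((false, 1) : Vx G) (true, inc (G := G) true ((y (i0 m))⁻¹ * k⁻¹)) = 2 := by
        rw [← hadj]
        refine d_congr' hT ?_ _
        have := d_coset hT true 1 ((y (i0 m))⁻¹ * k⁻¹)
        rwa [one_mul] at this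
      have h3 := hT.two (false, 1) (false, g) (by rw [hT.symm]; exact hA)
      have h4 := hT.two _ _ (d_ft hT g
        (inc (G := G) false (x (i0 m)) * inc (G := G) true ((y (i0 m))⁻¹ * k⁻¹)))
      omega
    have := hf 0 1 (by rw [key, key])
    exact absurd this (by decide)
  · -- the main case
    exfalso
    -- the vertices X = x⁻¹ A and Z = y⁻¹ B
    have hPX : ∀ c : G false, d ((false, 1) : Vx G) (false, inc (G := G) false c * g) ≠ 0 := by
      intro c
      rw [base_move hT, hT.symm]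
      exact hA
    have hQZ : ∀ c : G true, d ((true, 1) : Vx G) (true, inc (G := G) true c * b) ≠ 0 := by
      intro c
      rw [base_move hT, hT.symm]
      exact hB
    have sepA : ∀ m : Fin 4, hd false (g⁻¹ * (inc (G := G) false (x (i0 m)) *
        (inc (G := G) true (y (i0 m)))⁻¹) * b) ≠ hd false (g⁻¹ * 1) →
        d ((false, 1) : Vx G) (true, inc (G := G) true (y (i0 m))⁻¹ * b) =
        d ((false, 1) : Vx G) (false, inc (G := G) false (x (i0 m))⁻¹ * g) +
        d ((false, inc (G := G) false (x (i0 m))⁻¹ * g) : Vx G)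
          (true, inc (G := G) true (y (i0 m))⁻¹ * b) := by
      intro m hne
      have e1 : g⁻¹ * (inc (G := G) false (x (i0 m)) *
        (inc (G := G) true (y (i0 m)))⁻¹) * b = g⁻¹ * (inc (G := G) false (x (i0 m)) *
          (inc (G := G) true (y (i0 m))⁻¹ * b)) := by
        rw [map_inv]; group
      rw [e1] at hne
      have h1 := between_of_dir hT (i := false) (j := false) (k := true) (g := g)
        (x := 1) (y := inc (G := G) false (x (i0 m)) * (inc (G := G) true (y (i0 m))⁻¹ * b))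
        hA (d_ft hT _ _) (Ne.symm hne)
      rw [base_move hT] at h1
      have h2 := hT.inv (inc (G := G) false (x (i0 m))⁻¹) false true g
        (inc (G := G) false (x (i0 m)) * (inc (G := G) true (y (i0 m))⁻¹ * b))
      have e2 : inc (G := G) false (x (i0 m))⁻¹ *
        (inc (G := G) false (x (i0 m)) * (inc (G := G) true (y (i0 m))⁻¹ * b)) =
          inc (G := G) true (y (i0 m))⁻¹ * b := by
        rw [← mul_assoc, ← map_mul, inv_mul_cancel, map_one, one_mul]
      rw [e2] at h2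
      rw [base_move hT, h2]
      exact h1
    -- the three kinds of indices
    let U : Fin 4 → Prop := fun m => hd false (g⁻¹ * (inc (G := G) false (x (i0 m)) *
        (inc (G := G) true (y (i0 m)))⁻¹) * b) ≠ hd false (g⁻¹ * 1) ∧
        hd true (inc (G := G) true (y (i0 m))⁻¹ * b) ≠ 1
    let V : Fin 4 → Prop := fun m => hd false (g⁻¹ * (inc (G := G) false (x (i0 m)) *
        (inc (G := G) true (y (i0 m)))⁻¹) * b) ≠ hd false (g⁻¹ * 1) ∧
        hd false (inc (G := G) true (y (i0 m))⁻¹ * b) ≠ 1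
    -- the equations for the indices of type U
    have hU : ∀ m, U m → x (i0 m) = hd false g ∧
        hd true ((inc (G := G) false (hd false g)⁻¹) * g) = (y (i0 m))⁻¹ * hd true b := by
      intro m ⟨hm1, hm2⟩
      have hs := sepA m hm1
      -- Q separates P and Z
      have hq : d ((false, 1) : Vx G) (true, inc (G := G) true (y (i0 m))⁻¹ * b) =
          d ((false, 1) : Vx G) (true, 1) +
          d ((true, 1) : Vx G) (true, inc (G := G) true (y (i0 m))⁻¹ * b) := by
        apply between_of_dir hT (i := true) (d_tf hT _ _) (hQZ _)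
        rw [inv_one, one_mul, one_mul, H3]
        exact Ne.symm hm2
      have d1 := dir_of_between hT (i := false) (g := 1) (hPX (x (i0 m))⁻¹)
        (d_ft hT _ _) hs
      have d2 := dir_of_between hT (i := false) (g := 1) (d_ft hT 1 1) (d_ft hT _ _) hq
      rw [← d2, inv_one, one_mul, one_mul, H3, H1] at d1
      have hx : x (i0 m) = hd false g := by
        rwa [inv_mul_eq_one] at d1
      refine ⟨hx, ?_⟩
      rw [← hx]
      -- same direction at Q
      by_contra hne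
      have h3 := between_of_dir hT (i := true) (j := false) (k := true) (g := 1)
        (x := inc (G := G) false (x (i0 m))⁻¹ * g)
        (y := inc (G := G) true (y (i0 m))⁻¹ * b) (d_tf hT _ _) (hQZ _) (by
          rw [inv_one, one_mul, one_mul, H1 true (y (i0 m))⁻¹ b]
          exact hne)
      have h4 := hT.two _ _ (hPX (x (i0 m))⁻¹)
      have h5 := hT.two _ _ (d_ft hT (inc (G := G) false (x (i0 m))⁻¹ * g) 1)
      omega
    have hV : ∀ m, V m → y (i0 m) = hd true b ∧
        (x (i0 m))⁻¹ * hd false g = hd false ((inc (G := G) true (hd true b)⁻¹) * b) := by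
      intro m ⟨hm1, hm2⟩
      have hs := sepA m hm1
      -- P separates Q and Z
      have hp : d ((true, 1) : Vx G) (true, inc (G := G) true (y (i0 m))⁻¹ * b) =
          d ((true, 1) : Vx G) (false, 1) +
          d ((false, 1) : Vx G) (true, inc (G := G) true (y (i0 m))⁻¹ * b) := by
        apply between_of_dir hT (i := false) (d_ft hT _ _) (d_ft hT _ _)
        rw [inv_one, one_mul, one_mul, H3]
        exact Ne.symm hm2
      have d1 := dir_of_between hT (i := true) (g := 1) (d_tf hT 1 1) (hQZ _) hp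
      rw [inv_one, one_mul, one_mul, H3, H1] at d1
      have hy : y (i0 m) = hd true b := by
        have := d1.symm
        rwa [inv_mul_eq_one] at this
      refine ⟨hy, ?_⟩
      rw [← hy]
      have d2 := dir_of_between hT (i := false) (g := 1) (hPX (x (i0 m))⁻¹)
        (d_ft hT _ _) hs
      rw [inv_one, one_mul, one_mul, H1] at d2
      exact d2
    refine pigeon3 (fun m => hd false (g⁻¹ * (inc (G := G) false (x (i0 m)) *
        (inc (G := G) true (y (i0 m)))⁻¹) * b) = hd false (g⁻¹ * 1)) U V ?_ ?_ ?_ ?_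
    · intro m
      by_cases h0 : hd false (g⁻¹ * (inc (G := G) false (x (i0 m)) *
        (inc (G := G) true (y (i0 m)))⁻¹) * b) = hd false (g⁻¹ * 1)
      · exact Or.inl h0
      · right
        by_cases h1 : hd true (inc (G := G) true (y (i0 m))⁻¹ * b) = 1
        · by_cases h2 : hd false (inc (G := G) true (y (i0 m))⁻¹ * b) = 1
          · exfalso
            have h3 := hd_both _ h2 h1
            refine hQZ (y (i0 m))⁻¹ ?_
            rw [h3]
            exact d_self hT _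
          · exact Or.inr ⟨h0, h2⟩
        · exact Or.inl ⟨h0, h1⟩
    · intro m n h1 h2
      exact hf m n (h1.trans h2.symm)
    · intro m n h1 h2
      obtain ⟨a1, a2⟩ := hU m h1
      obtain ⟨b1, b2⟩ := hU n h2
      have hx : x (i0 m) = x (i0 n) := by rw [a1, b1]
      have hy : y (i0 m) = y (i0 n) := by
        have h3 := a2.symm.trans b2
        exact inv_injective (mul_right_cancel h3)
      exact hf m n (by rw [hx, hy])
    · intro m n h1 h2
      obtain ⟨a1, a2⟩ := hV m h1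
      obtain ⟨b1, b2⟩ := hV n h2
      have hy : y (i0 m) = y (i0 n) := by rw [a1, b1]
      have hx : x (i0 m) = x (i0 n) := by
        have h3 := a2.trans b2.symm
        exact inv_injective (mul_right_cancel h3)
      exact hf m n (by rw [hx, hy])

/-- Second part, elements of `G false`. -/
theorem second_false {d : Vx G → Vx G → ℕ} (hT : TreeD d) (hH : SpecHD)
    (z : Fin 7 → G false) (g b : FP G)
    (hf : ∀ m n : Fin 4, hd false (g⁻¹ * inc (G := G) false (z (i0 m)) * b) =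
      hd false (g⁻¹ * inc (G := G) false (z (i0 n)) * b) → m = n)
    (hh : ∀ m n : Fin 4, hd true (g⁻¹ * inc (G := G) false (z (i3 m)) * b)⁻¹ =
      hd true (g⁻¹ * inc (G := G) false (z (i3 n)) * b)⁻¹ → m = n) : False := by
  obtain ⟨H1, H2, H3⟩ := hH G
  by_cases hA : d (false, g) (false, 1) = 0
  · obtain ⟨-, k, hk⟩ := (hT.zero _ _ _ _).1 hA
    have hg : g = (inc (G := G) false k)⁻¹ := by
      rw [eq_inv_iff_mul_eq_one]; exact hk.symm
    have key : ∀ m : Fin 4, hd true (g⁻¹ * inc (G := G) false (z (i3 m)) * b)⁻¹ =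
        hd true b⁻¹ := by
      intro m
      have e1 : (g⁻¹ * inc (G := G) false (z (i3 m)) * b)⁻¹ =
          b⁻¹ * inc (G := G) false ((z (i3 m))⁻¹ * k⁻¹) := by
        rw [hg, map_mul, map_inv, map_inv]; group
      rw [e1, H2 true false (by decide)]
    have := hh 0 1 (by rw [key, key])
    exact absurd this (by decide)
  · refine pigeon2 (fun m => hd false (g⁻¹ * inc (G := G) false (z (i0 m)) * b) =
      hd false (g⁻¹ * 1)) (fun m => hd false (g⁻¹ * inc (G := G) false (z (i0 m)) * b) ≠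
      hd false (g⁻¹ * 1)) ?_ ?_ ?_
    · intro m
      exact em _
    · intro m n h1 h2
      exact hf m n (h1.trans h2.symm)
    · have key : ∀ m : Fin 4, hd false (g⁻¹ * inc (G := G) false (z (i0 m)) * b) ≠
          hd false (g⁻¹ * 1) → (z (i0 m))⁻¹ * hd false g = hd false b := by
        intro m hm
        rw [mul_assoc] at hm
        have h1 := between_of_dir hT (i := false) (j := false) (k := true) (g := g)
          (x := 1) (y := inc (G := G) false (z (i0 m)) * b) hA (d_ft hT _ _) (Ne.symm hm)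
        rw [base_move hT] at h1
        have h2 := hT.inv (inc (G := G) false (z (i0 m))⁻¹) false true g
          (inc (G := G) false (z (i0 m)) * b)
        rw [← mul_assoc, ← map_mul, inv_mul_cancel, map_one, one_mul] at h2
        rw [← h2, ← base_move hT false false (z (i0 m))⁻¹ g] at h1
        have h3 := dir_of_between hT (i := false) (g := 1) (by
          rw [base_move hT, hT.symm]; exact hA) (d_ft hT _ _) h1
        rw [inv_one, one_mul, one_mul, H1] at h3
        exact h3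
      intro m n h1 h2
      have h3 := (key m h1).trans (key n h2).symm
      have h4 := inv_injective (mul_right_cancel h3)
      exact hf m n (by rw [h4])

/-- Second part, elements of `G true`. -/
theorem second_true {d : Vx G → Vx G → ℕ} (hT : TreeD d) (hH : SpecHD)
    (z : Fin 7 → G true) (g b : FP G)
    (hf : ∀ m n : Fin 4, hd false (g⁻¹ * inc (G := G) true (z (i0 m)) * b) =
      hd false (g⁻¹ * inc (G := G) true (z (i0 n)) * b) → m = n)
    (hh : ∀ m n : Fin 4, hd true (g⁻¹ * inc (G := G) true (z (i3 m)) * b)⁻¹ =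
      hd true (g⁻¹ * inc (G := G) true (z (i3 n)) * b)⁻¹ → m = n) : False := by
  obtain ⟨H1, H2, H3⟩ := hH G
  have e0 : ∀ m : Fin 4, (g⁻¹ * inc (G := G) true (z (i3 m)) * b)⁻¹ =
      b⁻¹ * (inc (G := G) true (z (i3 m))⁻¹ * g) := by
    intro m
    rw [map_inv]; group
  by_cases hB : d (true, b) (true, 1) = 0
  · obtain ⟨-, k, hk⟩ := (hT.zero _ _ _ _).1 hB
    have hb : b = (inc (G := G) true k)⁻¹ := by
      rw [eq_inv_iff_mul_eq_one]; exact hk.symm
    have key : ∀ m : Fin 4, hd false (g⁻¹ * inc (G := G) true (z (i0 m)) * b) =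
        hd false g⁻¹ := by
      intro m
      have e1 : g⁻¹ * inc (G := G) true (z (i0 m)) * b =
          g⁻¹ * inc (G := G) true (z (i0 m) * k⁻¹) := by
        rw [hb, map_mul, map_inv]; group
      rw [e1, H2 false true (by decide)]
    have := hf 0 1 (by rw [key, key])
    exact absurd this (by decide)
  · refine pigeon2 (fun m => hd true (g⁻¹ * inc (G := G) true (z (i3 m)) * b)⁻¹ =
      hd true (b⁻¹ * 1)) (fun m => hd true (g⁻¹ * inc (G := G) true (z (i3 m)) * b)⁻¹ ≠
      hd true (b⁻¹ * 1)) ?_ ?_ ?_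
    · intro m
      exact em _
    · intro m n h1 h2
      exact hh m n (h1.trans h2.symm)
    · have key : ∀ m : Fin 4, hd true (g⁻¹ * inc (G := G) true (z (i3 m)) * b)⁻¹ ≠
          hd true (b⁻¹ * 1) → z (i3 m) * hd true b = hd true g := by
        intro m hm
        rw [e0] at hm
        have h1 := between_of_dir hT (i := true) (j := true) (k := false) (g := b)
          (x := 1) (y := inc (G := G) true (z (i3 m))⁻¹ * g) hB (d_tf hT _ _) (Ne.symm hm)
        rw [base_move hT] at h1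
        have h2 := hT.inv (inc (G := G) true (z (i3 m))) true false b
          (inc (G := G) true (z (i3 m))⁻¹ * g)
        rw [← mul_assoc, ← map_mul, mul_inv_cancel, map_one, one_mul] at h2
        rw [← h2, ← base_move hT true true (z (i3 m)) b] at h1
        have h3 := dir_of_between hT (i := true) (g := 1) (by
          rw [base_move hT, hT.symm]; exact hB) (d_tf hT _ _) h1
        rw [inv_one, one_mul, one_mul, H1] at h3
        exact h3
      intro m n h1 h2
      have h3 := (key m h1).trans (key n h2).symm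
      have h4 := mul_right_cancel h3
      exact hh m n (by rw [h4])

theorem coc_zero' {H : Type} [Group H] {n : ℕ} {α : (Fin (n + 1) → H) → ℝ} (h : Coc n α)
    {x : Fin (n + 1) → H} (hx : α x ≠ 0) : ∀ i j : Fin (n + 1), x i = x j → i = j := by
  intro i j he
  by_contra hij
  apply hx
  have h1 := h.alt (Equiv.swap i j) x
  have h2 : x ∘ (Equiv.swap i j) = x := by
    funext k
    simp only [Function.comp]
    rcases eq_or_ne k i with rfl | hi
    · rw [Equiv.swap_apply_left, he]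
    · rcases eq_or_ne k j with rfl | hj
      · rw [Equiv.swap_apply_right, he]
      · rw [Equiv.swap_apply_of_ne_of_ne hi hj]
  rw [h2, Equiv.Perm.sign_swap hij] at h1
  simp at h1
  linarith

end EVAM

theorem specEvA (hTr : SpecTree) (hH : SpecHD) : SpecEvA := by
  intro G _ α β hα hβ
  obtain ⟨d, hT⟩ := hTr G
  obtain ⟨H1, H2, H3⟩ := hH G
  refine ⟨?_, ?_⟩
  · intro x y
    unfold uc
    rw [finsum_eq_single _ (((1 : FP G) : FP G ⧸ HH (G := G) false),
      ((1 : FP G) : FP G ⧸ HH (G := G) true))]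
    · -- the value
      obtain ⟨⟨c, hc⟩, h1⟩ := QuotientGroup.mk_out_eq_mul (HH (G := G) false) 1
      obtain ⟨⟨e, he⟩, h2⟩ := QuotientGroup.mk_out_eq_mul (HH (G := G) true) 1
      obtain ⟨c', rfl⟩ := hc
      obtain ⟨e', rfl⟩ := he
      simp only [one_mul] at h1 h2
      simp only [h1, h2]
      unfold Fc
      have e1 : ∀ m : Fin 7, hd false ((inc (G := G) false c')⁻¹ *
          (inc (G := G) false (x m) * (inc (G := G) true (y m))⁻¹) * inc (G := G) true e') =
          c'⁻¹ * x m := by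
        intro m
        have : (inc (G := G) false c')⁻¹ *
          (inc (G := G) false (x m) * (inc (G := G) true (y m))⁻¹) * inc (G := G) true e' =
          inc (G := G) false (c'⁻¹ * x m) * (1 * inc (G := G) true ((y m)⁻¹ * e')) := by
          rw [map_mul, map_mul, map_inv, map_inv]; group
        rw [this, H1, H2 false true (by decide), H3, mul_one]
      have e2 : ∀ m : Fin 7, hd true ((inc (G := G) false c')⁻¹ *
          (inc (G := G) false (x m) * (inc (G := G) true (y m))⁻¹) * inc (G := G) true e')⁻¹ =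
          e'⁻¹ * y m := by
        intro m
        have : ((inc (G := G) false c')⁻¹ *
          (inc (G := G) false (x m) * (inc (G := G) true (y m))⁻¹) * inc (G := G) true e')⁻¹ =
          inc (G := G) true (e'⁻¹ * y m) * (1 * inc (G := G) false ((x m)⁻¹ * c')) := by
          rw [map_mul, map_mul, map_inv, map_inv]; group
        rw [this, H1, H2 true false (by decide), H3, mul_one]
      simp only [e1, e2]
      rw [hα.inv, hβ.inv]
      rfl
    · -- other terms vanish
      rintro ⟨q1, q2⟩ hq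
      by_contra hne
      apply hq
      unfold Fc at hne
      have hα0 := left_ne_zero_of_mul hne
      have hβ0 := right_ne_zero_of_mul hne
      obtain ⟨ha, hb⟩ := first hT hH x y q1.out q2.out (coc_zero' hα hα0) (coc_zero' hβ hβ0)
      obtain ⟨-, k, hk⟩ := (hT.zero _ _ _ _).1 ha
      obtain ⟨-, k', hk'⟩ := (hT.zero _ _ _ _).1 hb
      have e1 : q1 = ((1 : FP G) : FP G ⧸ HH (G := G) false) := by
        rw [← QuotientGroup.out_eq' q1]
        refine QuotientGroup.eq.2 ?_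
        refine ⟨k, ?_⟩
        rw [hk]; group
      have e2 : q2 = ((1 : FP G) : FP G ⧸ HH (G := G) true) := by
        rw [← QuotientGroup.out_eq' q2]
        refine QuotientGroup.eq.2 ?_
        refine ⟨k', ?_⟩
        rw [hk']; group
      rw [e1, e2]
  · intro i z
    unfold uc
    refine finsum_eq_zero_of_forall_eq_zero fun q => ?_
    by_contra hne
    unfold Fc at hne
    have hα0 := coc_zero' hα (left_ne_zero_of_mul hne)
    have hβ0 := coc_zero' hβ (right_ne_zero_of_mul hne)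
    cases i
    · exact second_false hT hH z _ _ hα0 hβ0
    · exact second_true hT hH z _ _ hα0 hβ0

end

end TCMM
end

section
set_option autoImplicit false

/-!
# MP_ab96eb_gt, module FIN: the sum defining `uc` is finite
-/

namespace TCMM

namespace FIN

variable {G : Bool → Type} [∀ i, Group (G i)]

theorem ar1 (D l p q : ℕ) (h : l + l + D ≤ max (l + p) (q + l)) :
    D + l ≤ p ∨ D + l ≤ q := by omega

theorem ar2 (D l l' p q : ℕ) (hD : 0 < D) (hl : 0 < l) (h1 : l' + l' ≤ D + (l + l) + D)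
    (h2 : p + q ≤ max (D + D) (l' + l)) : ¬ (D + l ≤ p ∧ D + l ≤ q) := by omega

theorem ar3 (D l m s q : ℕ) (h : l + m + D ≤ max (l + s) (q + m)) :
    D + m ≤ s ∨ D + l ≤ q := by omega

theorem ar4 (D l m p r x : ℕ) (h : p + m ≤ max (D + x) (r + l)) (hx : x < l + m) :
    p < D + l ∨ p + m ≤ r + l := by omega

theorem ar5 (D l l' p q m m' r s : ℕ)
    (A : D + l ≤ p ∨ D + l ≤ q) (nA : ¬ (D + l ≤ p ∧ D + l ≤ q))
    (A' : D + l' ≤ q ∨ D + l' ≤ p) (nA' : ¬ (D + l' ≤ q ∧ D + l' ≤ p))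
    (nB : ¬ (D + m ≤ r ∧ D + m ≤ s)) (nB' : ¬ (D + m' ≤ s ∧ D + m' ≤ r))
    (C : D + m ≤ s ∨ D + l ≤ q) (C' : D + m' ≤ r ∨ D + l' ≤ p)
    (E : p < D + l ∨ p + m ≤ r + l) (E' : q < D + l' ∨ q + m' ≤ s + l') : False := by
  omega

theorem arith (D l l' p q m m' r s x x' : ℕ) (hD : 0 < D) (hl : 0 < l) (hm : 0 < m)
    (h1 : l' + l' ≤ D + (l + l) + D) (h1' : l + l ≤ D + (l' + l') + D)
    (h2 : p + q ≤ max (D + D) (l' + l))
    (h3 : l + l + D ≤ max (l + p) (q + l)) (h3' : l' + l' + D ≤ max (l' + q) (p + l'))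
    (g1 : m' + m' ≤ D + (m + m) + D) (g1' : m + m ≤ D + (m' + m') + D)
    (g2 : r + s ≤ max (D + D) (m' + m))
    (h4 : l + m + D ≤ max (l + s) (q + m)) (h4' : l' + m' + D ≤ max (l' + r) (p + m'))
    (h5 : p + m ≤ max (D + x) (r + l)) (h5' : q + m' ≤ max (D + x') (s + l'))
    (hx : x < l + m) (hx' : x' < l' + m') (hl' : 0 < l') (hm' : 0 < m') : False := by
  refine ar5 D l l' p q m m' r s (ar1 D l p q h3) (ar2 D l l' p q hD hl h1 h2)
    (ar1 D l' q p h3') (ar2 D l' l q p hD hl' h1' (by rw [add_comm q p, add_comm l l']; exact h2))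
    (ar2 D m m' r s hD hm g1 g2) (ar2 D m' m s r hD hm' g1' (by rw [add_comm s r, add_comm m m']; exact g2))
    (ar3 D l m s q h4) (ar3 D l' m' r p h4') (ar4 D l m p r x h5 hx) (ar4 D l' m' q s x' h5' hx')

/-- A vertex is the branching point of the axes of `φ` and `ψ`. -/
structure Br (d : Vx G → Vx G → ℕ) (i : Bool) (φ ψ g : FP G) : Prop where
  nφ : d (i, g) (i, φ * g) ≠ 0
  nψ : d (i, g) (i, ψ * g) ≠ 0
  eφ : d (i, φ⁻¹ * g) (i, φ * g) = d (i, φ⁻¹ * g) (i, g) + d (i, g) (i, φ * g)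
  eψ : d (i, ψ⁻¹ * g) (i, ψ * g) = d (i, ψ⁻¹ * g) (i, g) + d (i, g) (i, ψ * g)
  bw : d (i, φ⁻¹ * g) (i, ψ⁻¹ * g) < d (i, φ⁻¹ * g) (i, g) + d (i, g) (i, ψ⁻¹ * g)
  fw : d (i, φ * g) (i, ψ * g) = d (i, φ * g) (i, g) + d (i, g) (i, ψ * g)

theorem dinv {d : Vx G → Vx G → ℕ} (hd : TreeD d) (φ : FP G) (i j : Bool) (w w' : FP G) :
    d (i, w) (j, φ * w') = d (i, φ⁻¹ * w) (j, w') := by
  have := hd.inv φ i j (φ⁻¹ * w) w'
  rw [← this]; simp

theorem Br.uniq {d : Vx G → Vx G → ℕ} (hd : TreeD d) {i : Bool} {φ ψ g g' : FP G}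
    (h : Br d i φ ψ g) (h' : Br d i φ ψ g') : d (i, g) (i, g') = 0 := by
  by_contra hne
  have S := hd.symm
  have key : ∀ χ : FP G, d (i, χ⁻¹ * g) (i, g) = d (i, g) (i, χ * g) := fun χ => by
    rw [dinv hd χ i i g g]
  have key' : ∀ χ : FP G, d (i, χ⁻¹ * g') (i, g') = d (i, g') (i, χ * g') := fun χ => by
    rw [dinv hd χ i i g' g']
  have kp : ∀ χ : FP G, d (i, χ⁻¹ * g) (i, g') = d (i, g) (i, χ * g') := fun χ => by
    rw [dinv hd χ i i g g']
  have kq : ∀ χ : FP G, d (i, χ⁻¹ * g') (i, g) = d (i, g') (i, χ * g) := fun χ => by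
    rw [dinv hd χ i i g' g]
  have kD : ∀ χ : FP G, d (i, χ * g) (i, χ * g') = d (i, g) (i, g') := fun χ => hd.inv χ i i g g'
  have fact : ∀ χ : FP G,
      d (i, χ⁻¹ * g) (i, χ * g) = d (i, χ⁻¹ * g) (i, g) + d (i, g) (i, χ * g) →
      d (i, χ⁻¹ * g') (i, χ * g') = d (i, χ⁻¹ * g') (i, g') + d (i, g') (i, χ * g') →
      (d (i, g') (i, χ * g') + d (i, g') (i, χ * g') ≤
        d (i, g) (i, g') + (d (i, g) (i, χ * g) + d (i, g) (i, χ * g)) + d (i, g) (i, g')) ∧
      (d (i, g) (i, χ * g) + d (i, g) (i, χ * g) ≤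
        d (i, g) (i, g') + (d (i, g') (i, χ * g') + d (i, g') (i, χ * g')) + d (i, g) (i, g')) ∧
      (d (i, g) (i, χ * g') + d (i, g') (i, χ * g) ≤
        max (d (i, g) (i, g') + d (i, g) (i, g')) (d (i, g') (i, χ * g') + d (i, g) (i, χ * g))) ∧
      (d (i, g) (i, χ * g) + d (i, g) (i, χ * g) + d (i, g) (i, g') ≤
        max (d (i, g) (i, χ * g) + d (i, g) (i, χ * g'))
          (d (i, g') (i, χ * g) + d (i, g) (i, χ * g))) ∧
      (d (i, g') (i, χ * g') + d (i, g') (i, χ * g') + d (i, g) (i, g') ≤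
        max (d (i, g') (i, χ * g') + d (i, g') (i, χ * g))
          (d (i, g) (i, χ * g') + d (i, g') (i, χ * g'))) := by
    intro χ e e'
    rw [key] at e
    rw [key'] at e'
    have t1 := hd.tri (i, χ⁻¹ * g') (i, χ⁻¹ * g) (i, χ * g')
    have t2 := hd.tri (i, χ⁻¹ * g) (i, χ * g) (i, χ * g')
    have t3 := hd.tri (i, χ⁻¹ * g) (i, χ⁻¹ * g') (i, χ * g)
    have t4 := hd.tri (i, χ⁻¹ * g') (i, χ * g') (i, χ * g)
    have f1 := hd.four (i, g') (i, χ⁻¹ * g) (i, g) (i, χ⁻¹ * g')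
    have f2 := hd.four (i, χ * g) (i, χ⁻¹ * g) (i, g) (i, g')
    have f3 := hd.four (i, χ * g') (i, χ⁻¹ * g') (i, g') (i, g)
    rw [S (i, χ⁻¹ * g') (i, χ⁻¹ * g)] at t1
    rw [S (i, χ * g') (i, χ * g)] at t4
    rw [kD] at t1 t2 t3 t4
    rw [S (i, g') (i, χ⁻¹ * g), S (i, g) (i, χ⁻¹ * g'), S (i, g') (i, g), kD,
      S (i, g') (i, χ⁻¹ * g'), key', kp, kq, key] at f1
    rw [S (i, χ * g) (i, χ⁻¹ * g), e, S (i, χ * g) (i, g), kp, S (i, χ * g) (i, g'), key] at f2
    rw [S (i, χ * g') (i, χ⁻¹ * g'), e', S (i, χ * g') (i, g'), kq, S (i, χ * g') (i, g), key',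
      S (i, g') (i, g)] at f3
    refine ⟨by omega, by omega, f1, f2, f3⟩
  obtain ⟨a1, a2, a3, a4, a5⟩ := fact φ h.eφ h'.eφ
  obtain ⟨b1, b2, b3, b4, b5⟩ := fact ψ h.eψ h'.eψ
  have h4 := hd.four (i, φ * g) (i, ψ * g) (i, g) (i, g')
  have h4' := hd.four (i, φ * g') (i, ψ * g') (i, g') (i, g)
  have h5 := hd.four (i, g') (i, φ⁻¹ * g) (i, g) (i, ψ⁻¹ * g)
  have h5' := hd.four (i, g) (i, φ⁻¹ * g') (i, g') (i, ψ⁻¹ * g')
  rw [h.fw, S (i, φ * g) (i, g), S (i, ψ * g) (i, g'), S (i, φ * g) (i, g'),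
    S (i, ψ * g) (i, g)] at h4
  rw [h'.fw, S (i, φ * g') (i, g'), S (i, ψ * g') (i, g), S (i, φ * g') (i, g),
    S (i, ψ * g') (i, g'), S (i, g') (i, g)] at h4'
  rw [S (i, g') (i, φ⁻¹ * g), kp, S (i, g) (i, ψ⁻¹ * g), key, S (i, g') (i, g),
    S (i, g') (i, ψ⁻¹ * g), kp, key] at h5
  rw [S (i, g) (i, φ⁻¹ * g'), kq, S (i, g') (i, ψ⁻¹ * g'), key',
    S (i, g) (i, ψ⁻¹ * g'), kq, key'] at h5'
  have hx := h.bw
  have hx' := h'.bw
  rw [key, S (i, g) (i, ψ⁻¹ * g), key] at hx
  rw [key', S (i, g') (i, ψ⁻¹ * g'), key'] at hx'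
  exact arith _ _ _ _ _ _ _ _ _ _ _ (Nat.pos_of_ne_zero hne) (Nat.pos_of_ne_zero h.nφ)
    (Nat.pos_of_ne_zero h.nψ) a1 a2 a3 a4 a5 b1 b2 b3 h4 h4' h5 h5' hx hx'
    (Nat.pos_of_ne_zero h'.nφ) (Nat.pos_of_ne_zero h'.nψ)

theorem three {ι : Type} [DecidableEq ι] (s : Finset ι) (h : 2 < s.card) (ρ : ι → ℕ)
    (hρ : ∀ a ∈ s, ∀ b ∈ s, a ≠ b → ρ a ≠ ρ b) :
    ∃ a ∈ s, ∃ b ∈ s, ∃ c ∈ s, ρ a < ρ b ∧ ρ b < ρ c := by
  obtain ⟨a, b, c, ha, hb, hc, hab, hac, hbc⟩ := Finset.two_lt_card_iff.mp h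
  have h1 := hρ a ha b hb hab
  have h2 := hρ a ha c hc hac
  have h3 := hρ b hb c hc hbc
  rcases lt_or_gt_of_ne h1 with h1 | h1 <;> rcases lt_or_gt_of_ne h2 with h2 | h2 <;>
    rcases lt_or_gt_of_ne h3 with h3 | h3
  · exact ⟨a, ha, b, hb, c, hc, h1, h3⟩
  · exact ⟨a, ha, c, hc, b, hb, h2, h3⟩
  · omega
  · exact ⟨c, hc, a, ha, b, hb, h2, h1⟩
  · exact ⟨b, hb, a, ha, c, hc, h1, h2⟩
  · omega
  · exact ⟨b, hb, c, hc, a, ha, h3, h2⟩
  · exact ⟨c, hc, b, hb, a, ha, h3, h1⟩

section Side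

variable {d : Vx G → Vx G → ℕ} (hd' : TreeD d) (hH : SpecHD) {i j : Bool} (hij : i ≠ j)
  {g b : FP G}

include hd' hij in
theorem ne0 (g x : FP G) : d (i, g) (j, x) ≠ 0 := fun h => hij ((hd'.zero _ _ _ _).1 h).1

include hd' hij in
/-- a good translate: `A` lies between `w Q` and `w B`. -/
theorem good_sum {w : FP G} (h : hd i (g⁻¹ * w) ≠ hd i (g⁻¹ * (w * b))) :
    d (j, w) (i, g) + d (i, g) (j, w * b) = d (j, 1) (j, b) := by
  have h1 := (hd'.sep i g j j w (w * b) (ne0 hd' hij g w) (ne0 hd' hij g (w * b))).2 h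
  have h2 := hd'.inv w j j 1 b
  rw [mul_one] at h2
  rw [← h2, h1]

include hd' hij in
theorem dist_eq {w w' : FP G} (h : hd i (g⁻¹ * w) ≠ hd i (g⁻¹ * (w * b)))
    (h' : hd i (g⁻¹ * w') ≠ hd i (g⁻¹ * (w' * b))) (hlt : d (j, w) (i, g) ≤ d (j, w') (i, g)) :
    d (i, w⁻¹ * g) (i, w'⁻¹ * g) + d (j, w) (i, g) = d (j, w') (i, g) := by
  have s := good_sum hd' hij h
  have s' := good_sum hd' hij h'
  have S := hd'.symm
  have e1 : ∀ v : FP G, d (j, 1) (i, v⁻¹ * g) = d (j, v) (i, g) := fun v => by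
    have := hd'.inv v j i 1 (v⁻¹ * g)
    rw [← this]; simp
  have e2 : ∀ v : FP G, d (i, v⁻¹ * g) (j, b) = d (i, g) (j, v * b) := fun v => by
    rw [dinv hd']
  have t := hd'.tri (j, 1) (i, w⁻¹ * g) (i, w'⁻¹ * g)
  have f := hd'.four (i, w⁻¹ * g) (i, w'⁻¹ * g) (j, 1) (j, b)
  rw [e1, e1] at t
  rw [S (i, w⁻¹ * g) (j, 1), S (i, w'⁻¹ * g) (j, 1), e1, e1, e2, e2] at f
  omega

include hd' hij in
theorem fwd {w w' : FP G} (h : hd i (g⁻¹ * w) ≠ hd i (g⁻¹ * (w * b)))
    (h' : hd i (g⁻¹ * w') ≠ hd i (g⁻¹ * (w' * b))) (hlt : d (j, w) (i, g) < d (j, w') (i, g)) :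
    d (i, g) (i, w * w'⁻¹ * g) ≠ 0 ∧
    hd i (g⁻¹ * (w * w'⁻¹ * g)) = hd i (g⁻¹ * (w * b)) := by
  have s := good_sum hd' hij h
  have s' := good_sum hd' hij h'
  have S := hd'.symm
  have e := dist_eq hd' hij h h' hlt.le
  have e3 : d (i, g) (i, w * w'⁻¹ * g) = d (i, w⁻¹ * g) (i, w'⁻¹ * g) := by
    rw [mul_assoc, dinv hd']
  have hne : d (i, g) (i, w * w'⁻¹ * g) ≠ 0 := by omega
  refine ⟨hne, ?_⟩
  by_contra hc
  have h1 := (hd'.sep i g i j (w * w'⁻¹ * g) (w * b) hne (ne0 hd' hij g (w * b))).2 hc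
  have h2 : d (i, w * w'⁻¹ * g) (j, w * b) = d (i, g) (j, w' * b) := by
    rw [mul_assoc, hd'.inv, dinv hd']
  rw [h2, S (i, w * w'⁻¹ * g) (i, g)] at h1
  omega

include hd' hij in
theorem bwd {w w' : FP G} (h : hd i (g⁻¹ * w) ≠ hd i (g⁻¹ * (w * b)))
    (h' : hd i (g⁻¹ * w') ≠ hd i (g⁻¹ * (w' * b))) (hlt : d (j, w) (i, g) < d (j, w') (i, g)) :
    d (i, g) (i, w' * w⁻¹ * g) ≠ 0 ∧
    hd i (g⁻¹ * (w' * w⁻¹ * g)) = hd i (g⁻¹ * w') := by
  have S := hd'.symm
  have e := dist_eq hd' hij h h' hlt.le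
  have e3 : d (i, g) (i, w' * w⁻¹ * g) = d (i, w⁻¹ * g) (i, w'⁻¹ * g) := by
    rw [mul_assoc, dinv hd', S]
  have hne : d (i, g) (i, w' * w⁻¹ * g) ≠ 0 := by omega
  refine ⟨hne, ?_⟩
  by_contra hc
  have h1 := (hd'.sep i g i j (w' * w⁻¹ * g) w' hne (ne0 hd' hij g w')).2 hc
  have h2 : d (i, w' * w⁻¹ * g) (j, w') = d (j, w) (i, g) := by
    have := hd'.inv w' i j (w⁻¹ * g) 1
    rw [mul_one, ← mul_assoc] at this
    rw [this, S]
    have := hd'.inv w j i 1 (w⁻¹ * g)
    simpa using this.symm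
  rw [h2, S (i, w' * w⁻¹ * g) (i, g), S (i, g) (j, w')] at h1
  omega

include hd' hH hij in
theorem rho_ne {w w' : FP G} (h : hd i (g⁻¹ * w) ≠ hd i (g⁻¹ * (w * b)))
    (h' : hd i (g⁻¹ * w') ≠ hd i (g⁻¹ * (w' * b)))
    (ho : hd i (g⁻¹ * w) = hd i (g⁻¹ * w')) (he : hd i (g⁻¹ * (w * b)) ≠ hd i (g⁻¹ * (w' * b))) :
    d (j, w) (i, g) ≠ d (j, w') (i, g) := by
  intro hc
  have e := dist_eq hd' hij h h' hc.le
  have e0 : d (i, w⁻¹ * g) (i, w'⁻¹ * g) = 0 := by omega
  obtain ⟨-, k, hk⟩ := (hd'.zero _ _ _ _).1 e0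
  have h1 : g⁻¹ * w' = inc i k⁻¹ * (g⁻¹ * w) := by
    have h2 : (w'⁻¹ * g)⁻¹ = (w⁻¹ * g * inc i k)⁻¹ := by rw [hk]
    simp only [mul_inv_rev, inv_inv] at h2
    rw [h2, map_inv]
  rw [h1, (hH G).1] at ho
  have hk1 : k⁻¹ = 1 := by
    have := mul_right_cancel (b := hd i (g⁻¹ * w)) (a := 1) (c := k⁻¹) (by rw [one_mul]; exact ho)
    exact this.symm
  rw [hk1, map_one, one_mul] at h1
  apply he
  rw [← mul_assoc, ← mul_assoc, h1]

include hd' hH hij in
theorem side (w : Fin 4 → FP G) : ∃ S : Finset (Vx G), ∀ g b : FP G,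
    (∀ m n, m ≠ n → hd i (g⁻¹ * w m * b) ≠ hd i (g⁻¹ * w n * b)) → ∃ s ∈ S, d s (i, g) = 0 := by
  classical
  choose F hF using hd'.fin
  let br : FP G → FP G → Vx G := fun φ ψ =>
    if h : ∃ g, Br d i φ ψ g then (i, h.choose) else (i, 1)
  have hbr : ∀ φ ψ g, Br d i φ ψ g → d (br φ ψ) (i, g) = 0 := fun φ ψ g h => by
    have h0 : ∃ g, Br d i φ ψ g := ⟨g, h⟩
    have : br φ ψ = (i, h0.choose) := by simp only [br]; rw [dif_pos h0]
    rw [this]
    exact Br.uniq hd' h0.choose_spec h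
  refine ⟨(Finset.univ : Finset (Fin 4 × Fin 4)).biUnion (fun q => F (j, w q.1) (j, w q.2)) ∪
    (Finset.univ : Finset (Fin 4 × Fin 4 × Fin 4)).image
      (fun q => br (w q.1 * (w q.2.1)⁻¹) (w q.2.1 * (w q.2.2)⁻¹)), ?_⟩
  intro g b hE
  simp only [mul_assoc] at hE
  by_cases hO : ∃ m n, hd i (g⁻¹ * w m) ≠ hd i (g⁻¹ * w n)
  · obtain ⟨m, n, hmn⟩ := hO
    have h1 := (hd'.sep i g j j (w m) (w n) (ne0 hd' hij g _) (ne0 hd' hij g _)).2 hmn
    obtain ⟨s, hs, hs0⟩ := hF (j, w m) (j, w n) (i, g) h1.symm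
    refine ⟨s, ?_, hs0⟩
    rw [Finset.mem_union]
    left
    rw [Finset.mem_biUnion]
    exact ⟨(m, n), Finset.mem_univ _, hs⟩
  · push Not at hO
    -- the good indices
    let s : Finset (Fin 4) :=
      Finset.univ.filter fun m => hd i (g⁻¹ * w m) ≠ hd i (g⁻¹ * (w m * b))
    have hcard : 2 < s.card := by
      have hc : (Finset.univ.filter fun m => ¬ (hd i (g⁻¹ * w m) ≠ hd i (g⁻¹ * (w m * b)))).card
          ≤ 1 := by
        rw [Finset.card_le_one]
        intro m hm n hn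
        simp only [Finset.mem_filter, Finset.mem_univ, true_and, not_not] at hm hn
        by_contra hmn
        exact hE m n hmn (by rw [← hm, ← hn]; exact hO m n)
      have hs := Finset.card_filter_add_card_filter_not (s := (Finset.univ : Finset (Fin 4)))
        (fun m => hd i (g⁻¹ * w m) ≠ hd i (g⁻¹ * (w m * b)))
      have h4 : (Finset.univ : Finset (Fin 4)).card = 4 := by simp
      have : s.card + (Finset.univ.filter fun m =>
        ¬ (hd i (g⁻¹ * w m) ≠ hd i (g⁻¹ * (w m * b)))).card = 4 := hs.trans h4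
      omega
    obtain ⟨m0, hm0, m1, hm1, m2, hm2, h01, h12⟩ := three s hcard (fun m => d (j, w m) (i, g))
      (fun m hm n hn hmn => rho_ne hd' hH hij (Finset.mem_filter.1 hm).2
        (Finset.mem_filter.1 hn).2 (hO m n) (hE m n hmn))
    have g0 := (Finset.mem_filter.1 hm0).2
    have g1 := (Finset.mem_filter.1 hm1).2
    have g2 := (Finset.mem_filter.1 hm2).2
    obtain ⟨a1, a2⟩ := fwd hd' hij g0 g1 h01
    obtain ⟨a3, a4⟩ := bwd hd' hij g0 g1 h01
    obtain ⟨b1, b2⟩ := fwd hd' hij g1 g2 h12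
    obtain ⟨b3, b4⟩ := bwd hd' hij g1 g2 h12
    have hm01 : m0 ≠ m1 := fun h => by rw [h] at h01; exact lt_irrefl _ h01
    have iφ : (w m0 * (w m1)⁻¹)⁻¹ = w m1 * (w m0)⁻¹ := by simp
    have iψ : (w m1 * (w m2)⁻¹)⁻¹ = w m2 * (w m1)⁻¹ := by simp
    refine ⟨br (w m0 * (w m1)⁻¹) (w m1 * (w m2)⁻¹), ?_, hbr _ _ _ ?_⟩
    · rw [Finset.mem_union]
      right
      rw [Finset.mem_image]
      exact ⟨(m0, m1, m2), Finset.mem_univ _, rfl⟩
    · refine ⟨a1, b1, ?_, ?_, ?_, ?_⟩
      · rw [iφ]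
        rw [hd'.symm (i, w m1 * (w m0)⁻¹ * g) (i, g)] 
        have := (hd'.sep i g i i (w m1 * (w m0)⁻¹ * g) (w m0 * (w m1)⁻¹ * g) a3 a1).2 (by
          rw [a2, a4, hO m1 m0]; exact g0)
        rw [this, hd'.symm (i, w m1 * (w m0)⁻¹ * g) (i, g)]
      · rw [iψ]
        have := (hd'.sep i g i i (w m2 * (w m1)⁻¹ * g) (w m1 * (w m2)⁻¹ * g) b3 b1).2 (by
          rw [b2, b4, hO m2 m1]; exact g1)
        exact this
      · rw [iφ, iψ]
        have h1 : ¬ (hd i (g⁻¹ * (w m1 * (w m0)⁻¹ * g)) ≠ hd i (g⁻¹ * (w m2 * (w m1)⁻¹ * g))) := by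
          rw [a4, b4, hO m1 m2]; simp
        rw [← hd'.sep i g i i (w m1 * (w m0)⁻¹ * g) (w m2 * (w m1)⁻¹ * g) a3 b3] at h1
        exact lt_of_le_of_ne (hd'.tri _ _ _) h1
      · exact (hd'.sep i g i i (w m0 * (w m1)⁻¹ * g) (w m1 * (w m2)⁻¹ * g) a1 b1).2 (by
          rw [a2, b2]; exact hE m0 m1 hm01)

end Side

theorem cosets_finite {d : Vx G → Vx G → ℕ} (hd' : TreeD d) (i : Bool) (S : Finset (Vx G)) :
    {q : FP G ⧸ HH (G := G) i | ∃ s ∈ S, d s (i, q.out) = 0}.Finite := by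
  classical
  refine ((S.image fun s => (QuotientGroup.mk s.2 : FP G ⧸ HH (G := G) i)).finite_toSet).subset ?_
  rintro q ⟨s, hs, h⟩
  rw [Finset.mem_coe, Finset.mem_image]
  refine ⟨s, hs, ?_⟩
  obtain ⟨-, k, hk⟩ := (hd'.zero s.1 i s.2 q.out).1 h
  obtain ⟨s1, s2⟩ := s
  obtain ⟨h1, -⟩ := (hd'.zero s1 i s2 q.out).1 h
  subst h1
  rw [← QuotientGroup.out_eq' q, QuotientGroup.eq]
  refine ⟨k, ?_⟩
  simp only at hk
  rw [hk]
  simp

end FIN

/-- module FIN -/
theorem specFin (hT : SpecTree) (hH : SpecHD) : SpecFin := by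
  intro G _ v
  obtain ⟨d, hd'⟩ := hT G
  obtain ⟨S, hS⟩ := FIN.side hd' hH (i := false) (j := true) (by simp) (fun m => v (i0 m))
  obtain ⟨S', hS'⟩ := FIN.side hd' hH (i := true) (j := false) (by simp) (fun m => (v (i3 m))⁻¹)
  refine ((FIN.cosets_finite hd' false S).prod (FIN.cosets_finite hd' true S')).subset ?_
  rintro ⟨q1, q2⟩ ⟨h1, h2⟩
  refine ⟨hS _ _ h1, hS' q2.out q1.out ?_⟩
  intro m n hmn
  have := h2 m n hmn
  simpa only [mul_inv_rev, inv_inv, mul_assoc] using this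

end TCMM
end

section
set_option autoImplicit false

/-!
# MP_ab96eb_gt : module PRI
-/

namespace TCMM

namespace Pri

variable {S Γ : Type}

theorem coc8 (u : (Fin 7 → Γ) → ℝ)
    (h : ∀ v : Fin 8 → Γ, ∑ k : Fin 8, (-1 : ℝ) ^ (k : ℕ) * u (v ∘ k.succAbove) = 0)
    (x0 x1 x2 x3 x4 x5 x6 x7 : Γ) :
    u ![x1, x2, x3, x4, x5, x6, x7]
       - u ![x0, x2, x3, x4, x5, x6, x7]
       + u ![x0, x1, x3, x4, x5, x6, x7]
       - u ![x0, x1, x2, x4, x5, x6, x7]
       + u ![x0, x1, x2, x3, x5, x6, x7]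
       - u ![x0, x1, x2, x3, x4, x6, x7]
       + u ![x0, x1, x2, x3, x4, x5, x7]
       - u ![x0, x1, x2, x3, x4, x5, x6] = 0 := by
  have h0 := h ![x0, x1, x2, x3, x4, x5, x6, x7]
  rw [Fin.sum_univ_eight] at h0
  have e0 : ![x0, x1, x2, x3, x4, x5, x6, x7] ∘ Fin.succAbove (0 : Fin 8) =
      ![x1, x2, x3, x4, x5, x6, x7] := by
    ext i; fin_cases i <;> rfl
  have e1 : ![x0, x1, x2, x3, x4, x5, x6, x7] ∘ Fin.succAbove (1 : Fin 8) =
      ![x0, x2, x3, x4, x5, x6, x7] := by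
    ext i; fin_cases i <;> rfl
  have e2 : ![x0, x1, x2, x3, x4, x5, x6, x7] ∘ Fin.succAbove (2 : Fin 8) =
      ![x0, x1, x3, x4, x5, x6, x7] := by
    ext i; fin_cases i <;> rfl
  have e3 : ![x0, x1, x2, x3, x4, x5, x6, x7] ∘ Fin.succAbove (3 : Fin 8) =
      ![x0, x1, x2, x4, x5, x6, x7] := by
    ext i; fin_cases i <;> rfl
  have e4 : ![x0, x1, x2, x3, x4, x5, x6, x7] ∘ Fin.succAbove (4 : Fin 8) =
      ![x0, x1, x2, x3, x5, x6, x7] := by
    ext i; fin_cases i <;> rfl
  have e5 : ![x0, x1, x2, x3, x4, x5, x6, x7] ∘ Fin.succAbove (5 : Fin 8) =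
      ![x0, x1, x2, x3, x4, x6, x7] := by
    ext i; fin_cases i <;> rfl
  have e6 : ![x0, x1, x2, x3, x4, x5, x6, x7] ∘ Fin.succAbove (6 : Fin 8) =
      ![x0, x1, x2, x3, x4, x5, x7] := by
    ext i; fin_cases i <;> rfl
  have e7 : ![x0, x1, x2, x3, x4, x5, x6, x7] ∘ Fin.succAbove (7 : Fin 8) =
      ![x0, x1, x2, x3, x4, x5, x6] := by
    ext i; fin_cases i <;> rfl
  rw [e0, e1, e2, e3, e4, e5, e6, e7] at h0
  simp only [Fin.val_zero, Fin.val_one, Fin.val_two] at h0
  have v3 : ((3 : Fin 8) : ℕ) = 3 := rfl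
  have v4 : ((4 : Fin 8) : ℕ) = 4 := rfl
  have v5 : ((5 : Fin 8) : ℕ) = 5 := rfl
  have v6 : ((6 : Fin 8) : ℕ) = 6 := rfl
  have v7 : ((7 : Fin 8) : ℕ) = 7 := rfl
  rw [v3, v4, v5, v6, v7] at h0
  linear_combination h0

/-- the homotopy -/
def W (u : (Fin 7 → Γ) → ℝ) (φ φ' : S → Γ) (Q : Fin 6 → S) : ℝ :=
  -(u ![φ (Q 0), φ' (Q 0), φ' (Q 1), φ' (Q 2), φ' (Q 3), φ' (Q 4), φ' (Q 5)]
     - u ![φ (Q 0), φ (Q 1), φ' (Q 1), φ' (Q 2), φ' (Q 3), φ' (Q 4), φ' (Q 5)]
     + u ![φ (Q 0), φ (Q 1), φ (Q 2), φ' (Q 2), φ' (Q 3), φ' (Q 4), φ' (Q 5)]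
     - u ![φ (Q 0), φ (Q 1), φ (Q 2), φ (Q 3), φ' (Q 3), φ' (Q 4), φ' (Q 5)]
     + u ![φ (Q 0), φ (Q 1), φ (Q 2), φ (Q 3), φ (Q 4), φ' (Q 4), φ' (Q 5)]
     - u ![φ (Q 0), φ (Q 1), φ (Q 2), φ (Q 3), φ (Q 4), φ (Q 5), φ' (Q 5)])

theorem W_eqv (u : (Fin 7 → Γ) → ℝ) (φ φ' : S → Γ) (θ : S → S) (τ : Γ → Γ)
    (h1 : ∀ v, u (τ ∘ v) = u v) (h2 : ∀ s, φ (θ s) = τ (φ s)) (h3 : ∀ s, φ' (θ s) = τ (φ' s))
    (Q : Fin 6 → S) : W u φ φ' (θ ∘ Q) = W u φ φ' Q := by
  have key : ∀ a b c d e f g : Γ, u ![τ a, τ b, τ c, τ d, τ e, τ f, τ g] =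
      u ![a, b, c, d, e, f, g] := by
    intro a b c d e f g
    rw [← h1 ![a, b, c, d, e, f, g]]
    congr 1
    ext i; fin_cases i <;> rfl
  unfold W
  simp only [Function.comp, h2, h3, key]

theorem main (u : (Fin 7 → Γ) → ℝ)
    (h : ∀ v : Fin 8 → Γ, ∑ k : Fin 8, (-1 : ℝ) ^ (k : ℕ) * u (v ∘ k.succAbove) = 0)
    (φ φ' : S → Γ) (P : Fin 7 → S) : u (φ ∘ P) - u (φ' ∘ P) =
      ∑ k : Fin 7, (-1 : ℝ) ^ (k : ℕ) * W u φ φ' (P ∘ k.succAbove) := by
  have w0 : W u φ φ' (P ∘ Fin.succAbove (0 : Fin 7)) =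
    -(u ![φ (P 1), φ' (P 1), φ' (P 2), φ' (P 3), φ' (P 4), φ' (P 5), φ' (P 6)]
     - u ![φ (P 1), φ (P 2), φ' (P 2), φ' (P 3), φ' (P 4), φ' (P 5), φ' (P 6)]
     + u ![φ (P 1), φ (P 2), φ (P 3), φ' (P 3), φ' (P 4), φ' (P 5), φ' (P 6)]
     - u ![φ (P 1), φ (P 2), φ (P 3), φ (P 4), φ' (P 4), φ' (P 5), φ' (P 6)]
     + u ![φ (P 1), φ (P 2), φ (P 3), φ (P 4), φ (P 5), φ' (P 5), φ' (P 6)]
     - u ![φ (P 1), φ (P 2), φ (P 3), φ (P 4), φ (P 5), φ (P 6), φ' (P 6)]) := rfl
  have w1 : W u φ φ' (P ∘ Fin.succAbove (1 : Fin 7)) =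
    -(u ![φ (P 0), φ' (P 0), φ' (P 2), φ' (P 3), φ' (P 4), φ' (P 5), φ' (P 6)]
     - u ![φ (P 0), φ (P 2), φ' (P 2), φ' (P 3), φ' (P 4), φ' (P 5), φ' (P 6)]
     + u ![φ (P 0), φ (P 2), φ (P 3), φ' (P 3), φ' (P 4), φ' (P 5), φ' (P 6)]
     - u ![φ (P 0), φ (P 2), φ (P 3), φ (P 4), φ' (P 4), φ' (P 5), φ' (P 6)]
     + u ![φ (P 0), φ (P 2), φ (P 3), φ (P 4), φ (P 5), φ' (P 5), φ' (P 6)]
     - u ![φ (P 0), φ (P 2), φ (P 3), φ (P 4), φ (P 5), φ (P 6), φ' (P 6)]) := rfl
  have w2 : W u φ φ' (P ∘ Fin.succAbove (2 : Fin 7)) =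
    -(u ![φ (P 0), φ' (P 0), φ' (P 1), φ' (P 3), φ' (P 4), φ' (P 5), φ' (P 6)]
     - u ![φ (P 0), φ (P 1), φ' (P 1), φ' (P 3), φ' (P 4), φ' (P 5), φ' (P 6)]
     + u ![φ (P 0), φ (P 1), φ (P 3), φ' (P 3), φ' (P 4), φ' (P 5), φ' (P 6)]
     - u ![φ (P 0), φ (P 1), φ (P 3), φ (P 4), φ' (P 4), φ' (P 5), φ' (P 6)]
     + u ![φ (P 0), φ (P 1), φ (P 3), φ (P 4), φ (P 5), φ' (P 5), φ' (P 6)]
     - u ![φ (P 0), φ (P 1), φ (P 3), φ (P 4), φ (P 5), φ (P 6), φ' (P 6)]) := rfl
  have w3 : W u φ φ' (P ∘ Fin.succAbove (3 : Fin 7)) =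
    -(u ![φ (P 0), φ' (P 0), φ' (P 1), φ' (P 2), φ' (P 4), φ' (P 5), φ' (P 6)]
     - u ![φ (P 0), φ (P 1), φ' (P 1), φ' (P 2), φ' (P 4), φ' (P 5), φ' (P 6)]
     + u ![φ (P 0), φ (P 1), φ (P 2), φ' (P 2), φ' (P 4), φ' (P 5), φ' (P 6)]
     - u ![φ (P 0), φ (P 1), φ (P 2), φ (P 4), φ' (P 4), φ' (P 5), φ' (P 6)]
     + u ![φ (P 0), φ (P 1), φ (P 2), φ (P 4), φ (P 5), φ' (P 5), φ' (P 6)]
     - u ![φ (P 0), φ (P 1), φ (P 2), φ (P 4), φ (P 5), φ (P 6), φ' (P 6)]) := rfl
  have w4 : W u φ φ' (P ∘ Fin.succAbove (4 : Fin 7)) =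
    -(u ![φ (P 0), φ' (P 0), φ' (P 1), φ' (P 2), φ' (P 3), φ' (P 5), φ' (P 6)]
     - u ![φ (P 0), φ (P 1), φ' (P 1), φ' (P 2), φ' (P 3), φ' (P 5), φ' (P 6)]
     + u ![φ (P 0), φ (P 1), φ (P 2), φ' (P 2), φ' (P 3), φ' (P 5), φ' (P 6)]
     - u ![φ (P 0), φ (P 1), φ (P 2), φ (P 3), φ' (P 3), φ' (P 5), φ' (P 6)]
     + u ![φ (P 0), φ (P 1), φ (P 2), φ (P 3), φ (P 5), φ' (P 5), φ' (P 6)]
     - u ![φ (P 0), φ (P 1), φ (P 2), φ (P 3), φ (P 5), φ (P 6), φ' (P 6)]) := rfl
  have w5 : W u φ φ' (P ∘ Fin.succAbove (5 : Fin 7)) =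
    -(u ![φ (P 0), φ' (P 0), φ' (P 1), φ' (P 2), φ' (P 3), φ' (P 4), φ' (P 6)]
     - u ![φ (P 0), φ (P 1), φ' (P 1), φ' (P 2), φ' (P 3), φ' (P 4), φ' (P 6)]
     + u ![φ (P 0), φ (P 1), φ (P 2), φ' (P 2), φ' (P 3), φ' (P 4), φ' (P 6)]
     - u ![φ (P 0), φ (P 1), φ (P 2), φ (P 3), φ' (P 3), φ' (P 4), φ' (P 6)]
     + u ![φ (P 0), φ (P 1), φ (P 2), φ (P 3), φ (P 4), φ' (P 4), φ' (P 6)]
     - u ![φ (P 0), φ (P 1), φ (P 2), φ (P 3), φ (P 4), φ (P 6), φ' (P 6)]) := rfl
  have w6 : W u φ φ' (P ∘ Fin.succAbove (6 : Fin 7)) =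
    -(u ![φ (P 0), φ' (P 0), φ' (P 1), φ' (P 2), φ' (P 3), φ' (P 4), φ' (P 5)]
     - u ![φ (P 0), φ (P 1), φ' (P 1), φ' (P 2), φ' (P 3), φ' (P 4), φ' (P 5)]
     + u ![φ (P 0), φ (P 1), φ (P 2), φ' (P 2), φ' (P 3), φ' (P 4), φ' (P 5)]
     - u ![φ (P 0), φ (P 1), φ (P 2), φ (P 3), φ' (P 3), φ' (P 4), φ' (P 5)]
     + u ![φ (P 0), φ (P 1), φ (P 2), φ (P 3), φ (P 4), φ' (P 4), φ' (P 5)]
     - u ![φ (P 0), φ (P 1), φ (P 2), φ (P 3), φ (P 4), φ (P 5), φ' (P 5)]) := rfl
  have p1 : φ ∘ P = ![φ (P 0), φ (P 1), φ (P 2), φ (P 3), φ (P 4), φ (P 5), φ (P 6)] := by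
    ext i; fin_cases i <;> rfl
  have p2 : φ' ∘ P = ![φ' (P 0), φ' (P 1), φ' (P 2), φ' (P 3), φ' (P 4), φ' (P 5), φ' (P 6)] := by
    ext i; fin_cases i <;> rfl
  have c0 := coc8 u h (φ (P 0)) (φ' (P 0)) (φ' (P 1)) (φ' (P 2)) (φ' (P 3)) (φ' (P 4)) (φ' (P 5)) (φ' (P 6))
  have c1 := coc8 u h (φ (P 0)) (φ (P 1)) (φ' (P 1)) (φ' (P 2)) (φ' (P 3)) (φ' (P 4)) (φ' (P 5)) (φ' (P 6))
  have c2 := coc8 u h (φ (P 0)) (φ (P 1)) (φ (P 2)) (φ' (P 2)) (φ' (P 3)) (φ' (P 4)) (φ' (P 5)) (φ' (P 6))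
  have c3 := coc8 u h (φ (P 0)) (φ (P 1)) (φ (P 2)) (φ (P 3)) (φ' (P 3)) (φ' (P 4)) (φ' (P 5)) (φ' (P 6))
  have c4 := coc8 u h (φ (P 0)) (φ (P 1)) (φ (P 2)) (φ (P 3)) (φ (P 4)) (φ' (P 4)) (φ' (P 5)) (φ' (P 6))
  have c5 := coc8 u h (φ (P 0)) (φ (P 1)) (φ (P 2)) (φ (P 3)) (φ (P 4)) (φ (P 5)) (φ' (P 5)) (φ' (P 6))
  have c6 := coc8 u h (φ (P 0)) (φ (P 1)) (φ (P 2)) (φ (P 3)) (φ (P 4)) (φ (P 5)) (φ (P 6)) (φ' (P 6))
  rw [Fin.sum_univ_seven, p1, p2, w0, w1, w2, w3, w4, w5, w6]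
  have v3 : ((3 : Fin 7) : ℕ) = 3 := rfl
  have v4 : ((4 : Fin 7) : ℕ) = 4 := rfl
  have v5 : ((5 : Fin 7) : ℕ) = 5 := rfl
  have v6 : ((6 : Fin 7) : ℕ) = 6 := rfl
  simp only [Fin.val_zero, Fin.val_one, Fin.val_two, v3, v4, v5, v6]
  linear_combination -c0 + c1 - c2 + c3 - c4 + c5 - c6

end Pri

/-- PRI -/
theorem specPri : SpecPri := by
  intro S Γ u h φ φ'
  exact ⟨Pri.W u φ φ', fun P => Pri.main u h φ φ' P,
    fun θ τ h1 h2 h3 Q => Pri.W_eqv u φ φ' θ τ h1 h2 h3 Q⟩

end TCMM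
end

section
set_option autoImplicit false

namespace TCMM
namespace TreeM

/-- tree distance of two lists -/
def dl {α : Type} [DecidableEq α] : List α → List α → ℕ
  | [], m => m.length
  | a :: l, [] => (a :: l).length
  | a :: l, b :: m => if a = b then dl l m else l.length + m.length + 2

/-- length of the longest common prefix -/
def lcp {α : Type} [DecidableEq α] : List α → List α → ℕ
  | [], _ => 0
  | _ :: _, [] => 0
  | a :: l, b :: m => if a = b then lcp l m + 1 else 0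

variable {α : Type} [DecidableEq α]

theorem dl_lcp (l m : List α) : dl l m + 2 * lcp l m = l.length + m.length := by
  induction l generalizing m with
  | nil => simp [dl, lcp]
  | cons a l ih =>
    cases m with
    | nil => simp [dl, lcp]
    | cons b m =>
      by_cases h : a = b
      · simp only [dl, lcp, h, if_true, List.length_cons]
        have := ih m
        omega
      · simp only [dl, lcp, h, if_false, List.length_cons]
        omega

theorem lcp_le_left (l m : List α) : lcp l m ≤ l.length := by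
  induction l generalizing m with
  | nil => simp [lcp]
  | cons a l ih =>
    cases m with
    | nil => simp [lcp]
    | cons b m =>
      simp only [lcp, List.length_cons]
      split_ifs
      · have := ih m
        omega
      · omega

theorem lcp_comm (l m : List α) : lcp l m = lcp m l := by
  induction l generalizing m with
  | nil => cases m <;> simp [lcp]
  | cons a l ih =>
    cases m with
    | nil => simp [lcp]
    | cons b m =>
      simp only [lcp]
      by_cases h : a = b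
      · subst h
        simp [ih m]
      · have h' : b ≠ a := fun e => h e.symm
        simp [h, h']

theorem lcp_le_right (l m : List α) : lcp l m ≤ m.length := by
  rw [lcp_comm]
  exact lcp_le_left m l

theorem lcp_ultra (l m n : List α) : min (lcp l m) (lcp m n) ≤ lcp l n := by
  induction l generalizing m n with
  | nil => simp [lcp]
  | cons a l ih =>
    cases m with
    | nil => simp [lcp]
    | cons b m =>
      cases n with
      | nil => simp [lcp]
      | cons c n =>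
        simp only [lcp]
        by_cases h : a = b
        · by_cases h' : b = c
          · subst h; subst h'
            have := ih m n
            simp only [if_true]
            omega
          · simp [h']
        · simp [h]

theorem dl_comm (l m : List α) : dl l m = dl m l := by
  have h1 := dl_lcp l m
  have h2 := dl_lcp m l
  have h3 := lcp_comm l m
  omega

theorem dl_self (l : List α) : dl l l = 0 := by
  induction l with
  | nil => simp [dl]
  | cons a l ih => simp [dl, ih]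

theorem eq_of_dl (l m : List α) (h : dl l m = 0) : l = m := by
  induction l generalizing m with
  | nil =>
    cases m with
    | nil => rfl
    | cons b m => simp [dl] at h
  | cons a l ih =>
    cases m with
    | nil => simp [dl] at h
    | cons b m =>
      simp only [dl] at h
      split_ifs at h with hab
      rw [hab, ih m h]

theorem dl_tri (l m n : List α) : dl l n ≤ dl l m + dl m n := by
  have h1 := dl_lcp l m
  have h2 := dl_lcp m n
  have h3 := dl_lcp l n
  have h4 := lcp_ultra l m n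
  have h5 := lcp_le_right l m
  have h6 := lcp_le_left m n
  omega

theorem dl_four (x y z t : List α) :
    dl x y + dl z t ≤ max (dl x z + dl y t) (dl x t + dl y z) := by
  have a1 := dl_lcp x y
  have a2 := dl_lcp z t
  have a3 := dl_lcp x z
  have a4 := dl_lcp y t
  have a5 := dl_lcp x t
  have a6 := dl_lcp y z
  have b1 := lcp_ultra x z y
  have b2 := lcp_ultra x t y
  have b3 := lcp_ultra z x t
  have b4 := lcp_ultra z y t
  rw [lcp_comm z y] at b1
  rw [lcp_comm t y] at b2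
  rw [lcp_comm z x] at b3
  rw [lcp_comm z y] at b4
  omega

theorem mem_inits_of_lcp (z x : List α) (h : lcp z x = z.length) : z <+: x := by
  induction z generalizing x with
  | nil => exact List.nil_prefix
  | cons a z ih =>
    cases x with
    | nil => simp [lcp] at h
    | cons b x =>
      simp only [lcp, List.length_cons] at h
      split_ifs at h with hab
      · rw [hab]
        exact List.cons_prefix_cons.2 ⟨rfl, ih x (by omega)⟩

theorem between (x y z : List α) (h : dl x z + dl z y = dl x y) :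
    z ∈ x.inits ∨ z ∈ y.inits := by
  have h1 := dl_lcp x z
  have h2 := dl_lcp z y
  have h3 := dl_lcp x y
  have h4 := lcp_ultra x z y
  have h5 := lcp_le_right x z
  have h6 := lcp_le_left z y
  rw [List.mem_inits, List.mem_inits]
  by_cases hx : lcp x z = z.length
  · left
    rw [lcp_comm] at hx
    exact mem_inits_of_lcp _ _ hx
  · right
    exact mem_inits_of_lcp _ _ (by omega)

theorem dl_head_ne {a b : α} (h : a ≠ b) (l m : List α) :
    dl (a :: l) (b :: m) = (a :: l).length + (b :: m).length := by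
  simp only [dl, h, if_false, List.length_cons]
  omega

theorem dl_cons (a : α) (l m : List α) : dl (a :: l) (a :: m) = dl l m := by
  simp [dl]

end TreeM

namespace TreeM
open Monoid.CoprodI

section
open Classical
variable {G : Bool → Type} [∀ i, Group (G i)]

/-- list of the (half) steps from the base edge to the vertex of type `i` of a word -/
noncomputable def Vl (i : Bool) : List (Σ i, G i) → List (Bool ⊕ (Σ i, G i))
  | [] => [Sum.inl i]
  | l :: ls => if ls = [] ∧ l.1 = i then [Sum.inl i] else Sum.inl l.1 :: Sum.inr l :: Vl i ls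

theorem Vl_odd (i : Bool) (l : List (Σ i, G i)) : (Vl i l).length % 2 = 1 := by
  induction l with
  | nil => simp [Vl]
  | cons a l ih =>
    simp only [Vl]
    split_ifs
    · simp
    · simp only [List.length_cons]
      omega

theorem Vl_head (i : Bool) (l : List (Σ i, G i)) :
    ∃ t, Vl i l = Sum.inl ((l.head?.map Sigma.fst).getD i) :: t := by
  cases l with
  | nil => exact ⟨[], by simp [Vl]⟩
  | cons a l =>
    by_cases h : l = [] ∧ a.1 = i
    · refine ⟨[], ?_⟩
      simp [Vl, h]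
    · refine ⟨Sum.inr a :: Vl i l, ?_⟩
      rw [Vl, if_neg h]
      simp

/-- the normal form of a vertex seen from the vertex `(h, 1)` -/
noncomputable def N (h i : Bool) (W : Word G) : Option (G h × List (Bool ⊕ (Σ i, G i))) :=
  if (Word.equivPair h W).tail.toList = [] ∧ i = h then none
  else some ((Word.equivPair h W).head, Vl i (Word.equivPair h W).tail.toList)

theorem N_smul (h i : Bool) (g : G h) (W : Word G) :
    N h i (of g • W) = (N h i W).map (fun q => (g * q.1, q.2)) := by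
  unfold N
  rw [Word.equivPair_smul_same]
  by_cases hc : (Word.equivPair h W).tail.toList = [] ∧ i = h
  · rw [if_pos hc, if_pos hc]; rfl
  · rw [if_neg hc, if_neg hc]; rfl

/-- the list of a normal form -/
noncomputable def LN (h : Bool) : Option (G h × List (Bool ⊕ (Σ i, G i))) →
    List (Bool ⊕ (Σ i, G i))
  | none => [Sum.inl h]
  | some q => if q.1 = 1 then q.2 else Sum.inl h :: Sum.inr ⟨h, q.1⟩ :: q.2

theorem Vl_eq (h i : Bool) (W : Word G) : Vl i W.toList = LN h (N h i W) := by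
  have e : W = Word.rcons (Word.equivPair h W) := by
    rw [← Word.equivPair_symm, Equiv.symm_apply_apply]
  generalize hp : Word.equivPair h W = p at e
  unfold N
  rw [hp]
  subst e
  unfold Word.rcons
  by_cases h1 : p.head = 1
  · rw [dif_pos h1]
    by_cases hc : p.tail.toList = [] ∧ i = h
    · rw [if_pos hc, hc.1, hc.2]; rfl
    · rw [if_neg hc]
      simp only [LN]
      rw [if_pos h1]
  · rw [dif_neg h1]
    simp only [Word.cons, Vl]
    by_cases hc : p.tail.toList = [] ∧ i = h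
    · rw [if_pos hc, if_pos ⟨hc.1, hc.2.symm⟩, hc.2]; rfl
    · rw [if_neg hc, if_neg (fun q => hc ⟨q.1, q.2.symm⟩)]
      simp only [LN]
      rw [if_neg h1]

theorem N_head (h i : Bool) (W : Word G) (q) (hq : N h i W = some q) :
    ∃ k t, k ≠ h ∧ q.2 = Sum.inl k :: t := by
  unfold N at hq
  split_ifs at hq with hc
  injection hq with hq
  subst hq
  obtain ⟨t, ht⟩ := Vl_head i (Word.equivPair h W).tail.toList
  refine ⟨_, t, ?_, ht⟩
  have hf := (Word.equivPair h W).fstIdx_ne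
  unfold Word.fstIdx at hf
  intro e
  cases hl : (Word.equivPair h W).tail.toList with
  | nil =>
    rw [hl] at e hc
    simp only [List.head?_nil, Option.map_none, Option.getD_none] at e
    exact hc ⟨rfl, e⟩
  | cons a l =>
    rw [hl] at e hf
    simp only [List.head?_cons, Option.map_some, Option.getD_some] at e
    apply hf
    simp [e]

/-- the distance of normal forms -/
noncomputable def dN {h : Bool} : Option (G h × List (Bool ⊕ (Σ i, G i))) →
    Option (G h × List (Bool ⊕ (Σ i, G i))) → ℕ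
  | none, none => 0
  | none, some q => q.2.length + 1
  | some q, none => q.2.length + 1
  | some q, some r => if q.1 = r.1 then dl q.2 r.2 else q.2.length + r.2.length + 2

theorem dl_LN (h i j : Bool) (W W' : Word G) :
    dl (Vl i W.toList) (Vl j W'.toList) = dN (N h i W) (N h j W') := by
  rw [Vl_eq h i W, Vl_eq h j W']
  rcases hN : N h i W with _ | ⟨a, T⟩ <;> rcases hN' : N h j W' with _ | ⟨a', T'⟩
  · simp [LN, dN, dl_self]
  · obtain ⟨k, t, hk, ht⟩ := N_head h j W' _ hN'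
    simp only at ht
    subst ht
    simp only [LN, dN]
    by_cases h1 : a' = 1
    · rw [if_pos h1, dl_head_ne]
      · simp only [List.length_cons, List.length_nil]; omega
      · intro e; exact hk (Sum.inl.inj e).symm
    · rw [if_neg h1, dl_cons]
      simp only [dl, List.length_cons]
  · obtain ⟨k, t, hk, ht⟩ := N_head h i W _ hN
    simp only at ht
    subst ht
    simp only [LN, dN]
    by_cases h1 : a = 1
    · rw [if_pos h1, dl_head_ne]
      · simp only [List.length_cons, List.length_nil]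
      · intro e; exact hk (Sum.inl.inj e)
    · rw [if_neg h1, dl_cons]
      simp only [dl, List.length_cons]
  · obtain ⟨k, t, hk, ht⟩ := N_head h i W _ hN
    obtain ⟨k', t', hk', ht'⟩ := N_head h j W' _ hN'
    simp only at ht ht'
    simp only [LN, dN]
    by_cases h1 : a = 1
    · by_cases h1' : a' = 1
      · rw [if_pos h1, if_pos h1', if_pos (h1.trans h1'.symm)]
      · rw [if_pos h1, if_neg h1', if_neg (fun e => h1' (e.symm.trans h1))]
        subst ht
        rw [dl_head_ne]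
        · simp only [List.length_cons]; omega
        · intro e; exact hk (Sum.inl.inj e)
    · by_cases h1' : a' = 1
      · rw [if_neg h1, if_pos h1', if_neg (fun e => h1 (e.trans h1'))]
        subst ht'
        rw [dl_head_ne]
        · simp only [List.length_cons]; omega
        · intro e; exact hk' (Sum.inl.inj e).symm
      · rw [if_neg h1, if_neg h1', dl_cons]
        by_cases haa : a = a'
        · subst haa
          rw [dl_cons, if_pos rfl]
        · rw [if_neg haa, dl_head_ne]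
          · simp only [List.length_cons]; omega
          · intro e
            have := Sum.inr.inj e
            simp only [Sigma.mk.injEq, heq_eq_eq, true_and] at this
            exact haa this

theorem dN_map (h : Bool) (g : G h) (A B : Option (G h × List (Bool ⊕ (Σ i, G i)))) :
    dN (A.map (fun q => (g * q.1, q.2))) (B.map (fun q => (g * q.1, q.2))) = dN A B := by
  rcases A with _ | ⟨a, T⟩ <;> rcases B with _ | ⟨a', T'⟩ <;> simp [dN]

/-- the list of a vertex -/
noncomputable def V (x : Vx G) : List (Bool ⊕ (Σ i, G i)) := Vl x.1 (Word.equiv x.2).toList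

/-- the distance -/
noncomputable def dd (x y : Vx G) : ℕ := dl (V x) (V y)

theorem equiv_of_mul (h : Bool) (m : G h) (u : FP G) :
    Word.equiv (of m * u) = of m • Word.equiv u := by
  change (of m * u) • (Word.empty : Word G) = of m • (u • (Word.empty : Word G))
  rw [mul_smul]

theorem dd_inv (g : FP G) (i j : Bool) (w w' : FP G) :
    dd (i, g * w) (j, g * w') = dd (i, w) (j, w') := by
  induction g using Monoid.CoprodI.induction_left generalizing w w' with
  | one => simp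
  | mul m x ih =>
    rename_i h
    have key : ∀ u u' : FP G, dd (i, of m * u) (j, of m * u') = dd (i, u) (j, u') := by
      intro u u'
      unfold dd V
      simp only
      rw [equiv_of_mul, equiv_of_mul, dl_LN h, dl_LN h, N_smul, N_smul, dN_map]
    rw [mul_assoc, mul_assoc, key, ih]


theorem dd_comm (x y : Vx G) : dd x y = dd y x := dl_comm _ _

theorem dd_even (x y : Vx G) : dd x y % 2 = 0 := by
  have h := dl_lcp (V x) (V y)
  have h1 := Vl_odd x.1 (Word.equiv x.2).toList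
  have h2 := Vl_odd y.1 (Word.equiv y.2).toList
  unfold dd
  unfold V at *
  omega

theorem equiv_one : Word.equiv (1 : FP G) = Word.empty := by
  change (1 : FP G) • (Word.empty : Word G) = Word.empty
  rw [one_smul]

theorem V_one (i : Bool) : V (i, (1 : FP G)) = [Sum.inl i] := by
  unfold V
  rw [equiv_one]
  simp [Vl]

theorem N_one (h i : Bool) (hih : i ≠ h) :
    N h i (Word.equiv (1 : FP G)) = some (1, [Sum.inl i]) := by
  rw [equiv_one]
  unfold N
  have : Word.equivPair h (Word.empty : Word G) = ⟨1, Word.empty, by simp [Word.fstIdx]⟩ :=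
    Word.equivPair_eq_of_fstIdx_ne (by simp [Word.fstIdx])
  rw [this]
  rw [if_neg (fun q => hih q.2)]
  simp [Vl]

theorem N_one_self (h : Bool) : N h h (Word.equiv (1 : FP G)) = none := by
  rw [equiv_one]
  unfold N
  have : Word.equivPair h (Word.empty : Word G) = ⟨1, Word.empty, by simp [Word.fstIdx]⟩ :=
    Word.equivPair_eq_of_fstIdx_ne (by simp [Word.fstIdx])
  rw [this]
  simp

theorem dd_coset (i : Bool) (w : FP G) (g : G i) : dd (i, w) (i, w * inc i g) = 0 := by
  have := dd_inv w i i (1 : FP G) (inc i g)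
  rw [mul_one] at this
  rw [this]
  unfold dd V
  simp only
  rw [dl_LN i, N_one_self]
  have e := equiv_of_mul i g (1 : FP G)
  rw [mul_one] at e
  change dN none (N i i (Word.equiv (of g))) = 0
  rw [e, N_smul, N_one_self]
  rfl

/-- the value of a list of steps -/
noncomputable def val : List (Bool ⊕ (Σ i, G i)) → FP G
  | [] => 1
  | Sum.inl _ :: l => val l
  | Sum.inr a :: l => of a.2 * val l

theorem val_Vl (i : Bool) (l : List (Σ i, G i)) :
    ∃ g : G i, (l.map fun a => of a.2).prod = val (Vl i l) * inc i g := by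
  induction l with
  | nil => exact ⟨1, by simp [Vl, val]⟩
  | cons a l ih =>
    simp only [Vl]
    split_ifs with hc
    · obtain ⟨hc1, hc2⟩ := hc
      subst hc1
      obtain ⟨k, g⟩ := a
      simp only at hc2
      subst hc2
      exact ⟨g, by simp [val]⟩
    · obtain ⟨g, hg⟩ := ih
      refine ⟨g, ?_⟩
      simp only [val, List.map_cons, List.prod_cons]
      rw [hg, mul_assoc]

theorem last_Vl (i : Bool) (l : List (Σ i, G i)) :
    (Vl i l).getLast? = some (Sum.inl i) := by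
  induction l with
  | nil => simp [Vl]
  | cons a l ih =>
    simp only [Vl]
    split_ifs with hc
    · simp
    · obtain ⟨t, ht⟩ := Vl_head i l
      rw [ht] at ih ⊢
      simpa using ih

theorem dd_zero (i j : Bool) (w w' : FP G) :
    dd (i, w) (j, w') = 0 ↔ i = j ∧ ∃ g : G i, w' = w * inc i g := by
  constructor
  · intro h
    have h := eq_of_dl _ _ h
    have hij : i = j := by
      have h1 := last_Vl i (Word.equiv w).toList
      have h2 := last_Vl j (Word.equiv w').toList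
      unfold V at h
      rw [h, h2] at h1
      simpa using h1.symm
    subst hij
    refine ⟨rfl, ?_⟩
    obtain ⟨g, hg⟩ := val_Vl i (Word.equiv w).toList
    obtain ⟨g', hg'⟩ := val_Vl i (Word.equiv w').toList
    have ew : ∀ u : FP G, ((Word.equiv u).toList.map fun a => of a.2).prod = u := fun u =>
      (Word.equiv (M := G)).symm_apply_apply u
    rw [ew] at hg hg'
    unfold V at h
    simp only at h
    refine ⟨g⁻¹ * g', ?_⟩
    rw [hg', ← h]
    rw [map_mul, ← mul_assoc]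
    congr 1
    rw [map_inv, eq_mul_inv_iff_mul_eq]
    exact hg.symm
  · rintro ⟨rfl, g, rfl⟩
    exact dd_coset _ _ _

theorem dd_sep (i : Bool) (g : FP G) (j k : Bool) (x y : FP G)
    (hx : dd (i, g) (j, x) ≠ 0) (hy : dd (i, g) (k, y) ≠ 0) :
    (dd (j, x) (k, y) = dd (j, x) (i, g) + dd (i, g) (k, y) ↔
      hd i (g⁻¹ * x) ≠ hd i (g⁻¹ * y)) := by
  have e1 := dd_inv g⁻¹ i j g x
  have e2 := dd_inv g⁻¹ i k g y
  have e3 := dd_inv g⁻¹ j k x y
  have e4 := dd_inv g⁻¹ j i x g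
  rw [← e1] at hx
  rw [← e2] at hy
  rw [← e3, ← e4, ← e2]
  rw [inv_mul_cancel] at *
  generalize g⁻¹ * x = x at *
  generalize g⁻¹ * y = y at *
  unfold dd V at hx hy ⊢
  simp only at hx hy ⊢
  rw [dl_LN i, N_one_self] at hx hy
  rw [dl_LN i, dl_LN i, dl_LN i, N_one_self]
  rcases hN : N i j (Word.equiv x) with _ | ⟨a, T⟩
  · rw [hN] at hx; exact absurd rfl hx
  rcases hN' : N i k (Word.equiv y) with _ | ⟨a', T'⟩
  · rw [hN'] at hy; exact absurd rfl hy
  have ha : hd i x = a := by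
    unfold N at hN
    split_ifs at hN
    have := Option.some.inj hN
    exact congrArg Prod.fst this
  have ha' : hd i y = a' := by
    unfold N at hN'
    split_ifs at hN'
    have := Option.some.inj hN'
    exact congrArg Prod.fst this
  rw [ha, ha']
  obtain ⟨l, t, hl, ht⟩ := N_head i j (Word.equiv x) _ hN
  obtain ⟨l', t', hl', ht'⟩ := N_head i k (Word.equiv y) _ hN'
  simp only at ht ht'
  subst ht ht'
  simp only [dN]
  by_cases haa : a = a'
  · subst haa
    rw [if_pos rfl]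
    simp only [ne_eq, not_true, iff_false]
    have : l = l' := by
      cases l <;> cases l' <;> cases i <;> simp_all
    subst this
    rw [dl_cons]
    have := dl_lcp t t'
    simp only [List.length_cons]
    omega
  · rw [if_neg haa]
    simp only [ne_eq, haa, not_false_eq_true, iff_true]
    simp only [List.length_cons]
    omega

theorem dd_fin (x y : Vx G) :
    ∃ S : Finset (Vx G), ∀ z, dd x z + dd z y = dd x y → ∃ s ∈ S, dd s z = 0 := by
  let f : List (Bool ⊕ (Σ i, G i)) → Vx G := fun l =>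
    if h : ∃ z : Vx G, V z = l then h.choose else x
  have hf : ∀ z : Vx G, V (f (V z)) = V z := by
    intro z
    have h : ∃ z' : Vx G, V z' = V z := ⟨z, rfl⟩
    simp only [f]
    rw [dif_pos h]
    exact h.choose_spec
  refine ⟨((V x).inits ++ (V y).inits).toFinset.image f, ?_⟩
  intro z hz
  refine ⟨f (V z), ?_, ?_⟩
  · apply Finset.mem_image_of_mem
    rw [List.mem_toFinset, List.mem_append]
    exact between _ _ _ hz
  · unfold dd
    rw [hf, dl_self]

theorem specTree' : SpecTree := by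
  intro G _
  refine ⟨dd, ?_⟩
  refine ⟨dd_comm, fun x y z => dl_tri _ _ _, ?_, dd_inv, dd_zero, ?_, ?_, dd_sep, dd_fin⟩
  · intro x y z t
    exact dl_four _ _ _ _
  · intro x y h
    have := dd_even x y
    omega
  · unfold dd
    rw [V_one, V_one]
    rfl

end
end TreeM

/-- module TREE -/
theorem specTree : SpecTree := TreeM.specTree'

/-- module HD -/
theorem specHD : SpecHD := by
  classical
  intro G _
  refine ⟨?_, ?_, ?_⟩
  · intro i g w
    unfold hd
    rw [show inc (G := G) i g = Monoid.CoprodI.of g from rfl, TreeM.equiv_of_mul,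
      Monoid.CoprodI.Word.equivPair_smul_same]
  · intro i j hij k w
    by_contra hne
    obtain ⟨d, hd'⟩ := specTree G
    have h0 : ∀ u : FP G, d (i, 1) (j, u) ≠ 0 := fun u h => hij ((hd'.zero _ _ _ _).1 h).1.symm
    have := (hd'.sep i 1 j j (w * inc j k) w (h0 _) (h0 _)).2 (by simpa using hne)
    have h1 : d (j, w * inc j k) (j, w) = 0 := by
      rw [hd'.symm]
      exact (hd'.zero _ _ _ _).2 ⟨rfl, k, rfl⟩
    have h2 := h0 w
    omega
  · intro i
    unfold hd
    rw [TreeM.equiv_one]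
    have : Monoid.CoprodI.Word.equivPair i (Monoid.CoprodI.Word.empty (M := G)) =
      ⟨1, Monoid.CoprodI.Word.empty, by simp [Monoid.CoprodI.Word.fstIdx]⟩ :=
      Monoid.CoprodI.Word.equivPair_eq_of_fstIdx_ne (by simp [Monoid.CoprodI.Word.fstIdx])
    rw [this]

end TCMM
end

section
set_option autoImplicit false

/-!
# MP_ab96eb_gt : module UC
-/

namespace TCMM

open MPb00168

namespace UCM

variable {G : Bool → Type} [∀ i, Group (G i)]

/-- `Fc` is invariant under left multiplication by `G false` and right multiplication by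
`G true`. -/
theorem Fc_inv (hH : SpecHD) {α : (Fin 4 → G false) → ℝ} {β : (Fin 4 → G true) → ℝ}
    (hα : Coc 3 α) (hβ : Coc 3 β) (a : G false) (b : G true) (w : Fin 7 → FP G) :
    Fc α β (fun m => inc (G := G) false a * w m * inc (G := G) true b) = Fc α β w := by
  obtain ⟨h1, h2, -⟩ := hH G
  have e1 : ∀ m, hd false (inc (G := G) false a * w m * inc (G := G) true b) =
      a * hd false (w m) := by
    intro m
    rw [h2 false true (by decide), h1]
  have e2 : ∀ m, hd true (inc (G := G) false a * w m * inc (G := G) true b)⁻¹ =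
      b⁻¹ * hd true (w m)⁻¹ := by
    intro m
    have : (inc (G := G) false a * w m * inc (G := G) true b)⁻¹ =
        inc (G := G) true b⁻¹ * ((w m)⁻¹ * inc (G := G) false a⁻¹) := by
      rw [map_inv, map_inv]; group
    rw [this, h1, h2 true false (by decide)]
  unfold Fc
  simp only [e1, e2]
  rw [hα.inv, hβ.inv]

/-- The summand does not depend on the representatives. -/
theorem Fc_rep (hH : SpecHD) {α : (Fin 4 → G false) → ℝ} {β : (Fin 4 → G true) → ℝ}
    (hα : Coc 3 α) (hβ : Coc 3 β) (g b : FP G) (w : Fin 7 → FP G) :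
    Fc α β (fun m => ((g : FP G ⧸ HH (G := G) false).out)⁻¹ * w m *
      (b : FP G ⧸ HH (G := G) true).out) = Fc α β (fun m => g⁻¹ * w m * b) := by
  obtain ⟨⟨x, hx⟩, h1⟩ := QuotientGroup.mk_out_eq_mul (HH (G := G) false) g
  obtain ⟨⟨y, hy⟩, h2⟩ := QuotientGroup.mk_out_eq_mul (HH (G := G) true) b
  obtain ⟨x', rfl⟩ := hx
  obtain ⟨y', rfl⟩ := hy
  rw [← Fc_inv hH hα hβ x'⁻¹ y' (fun m => g⁻¹ * w m * b)]
  congr 1
  funext m
  rw [h1, h2, map_inv]
  simp only [mul_inv_rev, mul_assoc]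

theorem coc_zero {H : Type} [Group H] {n : ℕ} {α : (Fin (n + 1) → H) → ℝ} (h : Coc n α)
    {x : Fin (n + 1) → H} {i j : Fin (n + 1)} (hij : i ≠ j) (he : x i = x j) : α x = 0 := by
  have h1 := h.alt (Equiv.swap i j) x
  have h2 : x ∘ (Equiv.swap i j) = x := by
    funext k
    simp only [Function.comp]
    rcases eq_or_ne k i with rfl | hi
    · rw [Equiv.swap_apply_left, he]
    · rcases eq_or_ne k j with rfl | hj
      · rw [Equiv.swap_apply_right, he]
      · rw [Equiv.swap_apply_of_ne_of_ne hi hj]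
  rw [h2, Equiv.Perm.sign_swap hij] at h1
  simp at h1
  linarith

theorem support_finite (hF : SpecFin) {α : (Fin 4 → G false) → ℝ} {β : (Fin 4 → G true) → ℝ}
    (hα : Coc 3 α) (hβ : Coc 3 β) (v : Fin 7 → FP G) :
    (Function.support fun q : (FP G ⧸ HH (G := G) false) × (FP G ⧸ HH (G := G) true) =>
      Fc α β (fun m => (q.1.out)⁻¹ * v m * q.2.out)).Finite := by
  refine (hF G v).subset ?_
  intro q hq
  simp only [Function.mem_support, Fc] at hq
  refine ⟨?_, ?_⟩
  · intro m n hmn he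
    exact hq (by rw [coc_zero hα hmn he, zero_mul])
  · intro m n hmn he
    exact hq (by rw [coc_zero hβ hmn he, mul_zero])

/-- the pointwise cocycle identity -/
theorem Fc_coc {α : (Fin 4 → G false) → ℝ} {β : (Fin 4 → G true) → ℝ}
    (hα : Coc 3 α) (hβ : Coc 3 β) (w : Fin 8 → FP G) :
    ∑ k : Fin 8, (-1 : ℝ) ^ (k : ℕ) * Fc α β (w ∘ k.succAbove) = 0 := by
  have hL := hα.coc ![hd false (w 0), hd false (w 1), hd false (w 2), hd false (w 3),
    hd false (w 4)]
  have hR := hβ.coc ![hd true (w 3)⁻¹, hd true (w 4)⁻¹, hd true (w 5)⁻¹, hd true (w 6)⁻¹,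
    hd true (w 7)⁻¹]
  have key : ∀ k : Fin 8, Fc α β (w ∘ k.succAbove) =
      α ![hd false (w (k.succAbove 0)), hd false (w (k.succAbove 1)),
        hd false (w (k.succAbove 2)), hd false (w (k.succAbove 3))] *
      β ![hd true (w (k.succAbove 3))⁻¹, hd true (w (k.succAbove 4))⁻¹,
        hd true (w (k.succAbove 5))⁻¹, hd true (w (k.succAbove 6))⁻¹] := by
    intro k
    unfold Fc
    congr 1
    · congr 1
      funext m
      fin_cases m <;> rfl
    · congr 1
      funext m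
      fin_cases m <;> rfl
  have a0 : (![hd false (w 0), hd false (w 1), hd false (w 2), hd false (w 3),
      hd false (w 4)] : Fin 5 → G false) ∘ (0 : Fin 5).succAbove =
      ![hd false (w 1), hd false (w 2), hd false (w 3), hd false (w 4)] := by
    funext m; fin_cases m <;> rfl
  have a1 : (![hd false (w 0), hd false (w 1), hd false (w 2), hd false (w 3),
      hd false (w 4)] : Fin 5 → G false) ∘ (1 : Fin 5).succAbove =
      ![hd false (w 0), hd false (w 2), hd false (w 3), hd false (w 4)] := by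
    funext m; fin_cases m <;> rfl
  have a2 : (![hd false (w 0), hd false (w 1), hd false (w 2), hd false (w 3),
      hd false (w 4)] : Fin 5 → G false) ∘ (2 : Fin 5).succAbove =
      ![hd false (w 0), hd false (w 1), hd false (w 3), hd false (w 4)] := by
    funext m; fin_cases m <;> rfl
  have a3 : (![hd false (w 0), hd false (w 1), hd false (w 2), hd false (w 3),
      hd false (w 4)] : Fin 5 → G false) ∘ (3 : Fin 5).succAbove =
      ![hd false (w 0), hd false (w 1), hd false (w 2), hd false (w 4)] := by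
    funext m; fin_cases m <;> rfl
  have a4 : (![hd false (w 0), hd false (w 1), hd false (w 2), hd false (w 3),
      hd false (w 4)] : Fin 5 → G false) ∘ (4 : Fin 5).succAbove =
      ![hd false (w 0), hd false (w 1), hd false (w 2), hd false (w 3)] := by
    funext m; fin_cases m <;> rfl
  have b0 : (![hd true (w 3)⁻¹, hd true (w 4)⁻¹, hd true (w 5)⁻¹, hd true (w 6)⁻¹,
      hd true (w 7)⁻¹] : Fin 5 → G true) ∘ (0 : Fin 5).succAbove =
      ![hd true (w 4)⁻¹, hd true (w 5)⁻¹, hd true (w 6)⁻¹, hd true (w 7)⁻¹] := by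
    funext m; fin_cases m <;> rfl
  have b1 : (![hd true (w 3)⁻¹, hd true (w 4)⁻¹, hd true (w 5)⁻¹, hd true (w 6)⁻¹,
      hd true (w 7)⁻¹] : Fin 5 → G true) ∘ (1 : Fin 5).succAbove =
      ![hd true (w 3)⁻¹, hd true (w 5)⁻¹, hd true (w 6)⁻¹, hd true (w 7)⁻¹] := by
    funext m; fin_cases m <;> rfl
  have b2 : (![hd true (w 3)⁻¹, hd true (w 4)⁻¹, hd true (w 5)⁻¹, hd true (w 6)⁻¹,
      hd true (w 7)⁻¹] : Fin 5 → G true) ∘ (2 : Fin 5).succAbove =
      ![hd true (w 3)⁻¹, hd true (w 4)⁻¹, hd true (w 6)⁻¹, hd true (w 7)⁻¹] := by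
    funext m; fin_cases m <;> rfl
  have b3 : (![hd true (w 3)⁻¹, hd true (w 4)⁻¹, hd true (w 5)⁻¹, hd true (w 6)⁻¹,
      hd true (w 7)⁻¹] : Fin 5 → G true) ∘ (3 : Fin 5).succAbove =
      ![hd true (w 3)⁻¹, hd true (w 4)⁻¹, hd true (w 5)⁻¹, hd true (w 7)⁻¹] := by
    funext m; fin_cases m <;> rfl
  have b4 : (![hd true (w 3)⁻¹, hd true (w 4)⁻¹, hd true (w 5)⁻¹, hd true (w 6)⁻¹,
      hd true (w 7)⁻¹] : Fin 5 → G true) ∘ (4 : Fin 5).succAbove =
      ![hd true (w 3)⁻¹, hd true (w 4)⁻¹, hd true (w 5)⁻¹, hd true (w 6)⁻¹] := by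
    funext m; fin_cases m <;> rfl
  rw [Fin.sum_univ_five, a0, a1, a2, a3, a4] at hL
  rw [Fin.sum_univ_five, b0, b1, b2, b3, b4] at hR
  rw [Fin.sum_univ_eight]
  simp only [key]
  have s : ∀ (k : Fin 8) (j : Fin 7) (r : Fin 8), k.succAbove j = r → w (k.succAbove j) = w r := by
    intro k j r h; rw [h]
  rw [s 0 0 1 rfl, s 0 1 2 rfl, s 0 2 3 rfl, s 0 3 4 rfl, s 0 4 5 rfl, s 0 5 6 rfl, s 0 6 7 rfl,
    s 1 0 0 rfl, s 1 1 2 rfl, s 1 2 3 rfl, s 1 3 4 rfl, s 1 4 5 rfl, s 1 5 6 rfl, s 1 6 7 rfl,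
    s 2 0 0 rfl, s 2 1 1 rfl, s 2 2 3 rfl, s 2 3 4 rfl, s 2 4 5 rfl, s 2 5 6 rfl, s 2 6 7 rfl,
    s 3 0 0 rfl, s 3 1 1 rfl, s 3 2 2 rfl, s 3 3 4 rfl, s 3 4 5 rfl, s 3 5 6 rfl, s 3 6 7 rfl,
    s 4 0 0 rfl, s 4 1 1 rfl, s 4 2 2 rfl, s 4 3 3 rfl, s 4 4 5 rfl, s 4 5 6 rfl, s 4 6 7 rfl,
    s 5 0 0 rfl, s 5 1 1 rfl, s 5 2 2 rfl, s 5 3 3 rfl, s 5 4 4 rfl, s 5 5 6 rfl, s 5 6 7 rfl,
    s 6 0 0 rfl, s 6 1 1 rfl, s 6 2 2 rfl, s 6 3 3 rfl, s 6 4 4 rfl, s 6 5 5 rfl, s 6 6 7 rfl,
    s 7 0 0 rfl, s 7 1 1 rfl, s 7 2 2 rfl, s 7 3 3 rfl, s 7 4 4 rfl, s 7 5 5 rfl, s 7 6 6 rfl]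
  generalize α ![hd false (w 1), hd false (w 2), hd false (w 3), hd false (w 4)] = A0 at *
  generalize α ![hd false (w 0), hd false (w 2), hd false (w 3), hd false (w 4)] = A1 at *
  generalize α ![hd false (w 0), hd false (w 1), hd false (w 3), hd false (w 4)] = A2 at *
  generalize α ![hd false (w 0), hd false (w 1), hd false (w 2), hd false (w 4)] = A3 at *
  generalize α ![hd false (w 0), hd false (w 1), hd false (w 2), hd false (w 3)] = A4 at *
  generalize β ![hd true (w 4)⁻¹, hd true (w 5)⁻¹, hd true (w 6)⁻¹, hd true (w 7)⁻¹] = B0 at *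
  generalize β ![hd true (w 3)⁻¹, hd true (w 5)⁻¹, hd true (w 6)⁻¹, hd true (w 7)⁻¹] = B1 at *
  generalize β ![hd true (w 3)⁻¹, hd true (w 4)⁻¹, hd true (w 6)⁻¹, hd true (w 7)⁻¹] = B2 at *
  generalize β ![hd true (w 3)⁻¹, hd true (w 4)⁻¹, hd true (w 5)⁻¹, hd true (w 7)⁻¹] = B3 at *
  generalize β ![hd true (w 3)⁻¹, hd true (w 4)⁻¹, hd true (w 5)⁻¹, hd true (w 6)⁻¹] = B4 at *
  norm_num [Fin.val_zero] at hL hR ⊢
  linear_combination B0 * hL - A4 * hR

end UCM

open UCM in
theorem specUC (hH : SpecHD) (hF : SpecFin) : SpecUC := by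
  intro G _ α β hα hβ
  refine ⟨?_, ?_⟩
  · intro g h v
    unfold uc
    let e : (FP G ⧸ HH (G := G) false) × (FP G ⧸ HH (G := G) true) ≃
        (FP G ⧸ HH (G := G) false) × (FP G ⧸ HH (G := G) true) :=
      Equiv.prodCongr (MulAction.toPerm g) (MulAction.toPerm h⁻¹)
    rw [← finsum_comp_equiv e]
    refine finsum_congr fun q => ?_
    obtain ⟨q1, q2⟩ := q
    obtain ⟨a, rfl⟩ := QuotientGroup.mk_surjective q1
    obtain ⟨b, rfl⟩ := QuotientGroup.mk_surjective q2
    have e1 : e ((a : FP G ⧸ HH (G := G) false), (b : FP G ⧸ HH (G := G) true)) =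
        (((g * a : FP G) : FP G ⧸ HH (G := G) false),
          ((h⁻¹ * b : FP G) : FP G ⧸ HH (G := G) true)) := rfl
    rw [e1, Fc_rep hH hα hβ, Fc_rep hH hα hβ]
    congr 1
    funext m
    group
  · intro v
    unfold uc
    have h1 : ∀ k : Fin 8, (-1 : ℝ) ^ (k : ℕ) *
        ∑ᶠ q : (FP G ⧸ HH (G := G) false) × (FP G ⧸ HH (G := G) true),
          Fc α β (fun m => (q.1.out)⁻¹ * (v ∘ k.succAbove) m * q.2.out) =
        ∑ᶠ q : (FP G ⧸ HH (G := G) false) × (FP G ⧸ HH (G := G) true), (-1 : ℝ) ^ (k : ℕ) *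
          Fc α β (fun m => (q.1.out)⁻¹ * (v ∘ k.succAbove) m * q.2.out) := by
      intro k
      exact mul_finsum _ _
    rw [Finset.sum_congr rfl fun k _ => h1 k, ← finsum_sum_comm]
    · rw [← finsum_zero (α := (FP G ⧸ HH (G := G) false) × (FP G ⧸ HH (G := G) true))]
      refine finsum_congr fun q => ?_
      exact Fc_coc hα hβ (fun m => (q.1.out)⁻¹ * v m * q.2.out)
    · intro k _
      refine (support_finite hF hα hβ (v ∘ k.succAbove)).subset ?_
      intro q hq
      simp only [Function.mem_support] at hq ⊢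
      exact fun h => hq (by rw [h, mul_zero])

end TCMM
end
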