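import Pool.Agent.Lib.MP_ab96eb_gt.Statement

section
/-!
MP_ab96eb_gt: general topology of compact connected 3-manifolds.
-/
set_option autoImplicit false

namespace TCMM

variable {X : Type} [TopologicalSpace X]

theorem pathConnected_of_charts [ConnectedSpace X]
    (hX : ∀ x : X, ∃ f : R3 → X, Topology.IsOpenEmbedding f ∧ x ∈ Set.range f) :
    PathConnectedSpace X := by
  have hj : ∀ x y : X, ∀ f : R3 → X, Topology.IsOpenEmbedding f → x ∈ Set.range f →
      y ∈ Set.range f → Joined x y := by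
    rintro _ _ f hf ⟨a, rfl⟩ ⟨b, rfl⟩
    obtain ⟨γ⟩ := PathConnectedSpace.joined a b
    exact ⟨γ.map hf.continuous⟩
  obtain ⟨x0⟩ : Nonempty X := inferInstance
  have hclopen : IsClopen (pathComponent x0) := by
    constructor
    · rw [← isOpen_compl_iff, isOpen_iff_forall_mem_open]
      intro y hy
      obtain ⟨f, hf, hy'⟩ := hX y
      refine ⟨Set.range f, fun z hz hz' => hy ?_, hf.isOpen_range, hy'⟩
      exact Joined.trans hz' (hj z y f hf hz hy')
    · rw [isOpen_iff_forall_mem_open]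
      intro y hy
      obtain ⟨f, hf, hy'⟩ := hX y
      exact ⟨Set.range f, fun z hz => Joined.trans hy (hj y z f hf hy' hz), hf.isOpen_range, hy'⟩
  have h : pathComponent x0 = Set.univ := hclopen.eq_univ ⟨x0, mem_pathComponent_self x0⟩
  rw [pathConnectedSpace_iff_eq]
  exact ⟨x0, h⟩

theorem metrizable_of_charts [T2Space X] [CompactSpace X]
    (hX : ∀ x : X, ∃ f : R3 → X, Topology.IsOpenEmbedding f ∧ x ∈ Set.range f) :
    TopologicalSpace.MetrizableSpace X := by
  choose f hf hx using hX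
  obtain ⟨t, ht⟩ := isCompact_univ.elim_finite_subcover (fun x => Set.range (f x))
    (fun x => (hf x).isOpen_range) (fun x _ => Set.mem_iUnion.2 ⟨x, hx x⟩)
  have hsc : ∀ i : t, SecondCountableTopology (Set.range (f i.1)) := fun i =>
    (hf i.1).isEmbedding.toHomeomorph.symm.isEmbedding.secondCountableTopology
  have : SecondCountableTopology X := by
    refine TopologicalSpace.secondCountableTopology_of_countable_cover
      (U := fun i : t => Set.range (f i.1)) (fun i => (hf i.1).isOpen_range) ?_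
    rw [Set.eq_univ_iff_forall]
    intro x
    obtain ⟨i, hi, hxi⟩ := Set.mem_iUnion₂.1 (ht (Set.mem_univ x))
    exact Set.mem_iUnion.2 ⟨⟨i, hi⟩, hxi⟩
  exact TopologicalSpace.metrizableSpace_of_t3_secondCountable X

end TCMM
end

section
/-!
MP_ab96eb_gt, module UPPER: the upper bound TC ≤ 7 for compact connected 3-manifolds.
-/
set_option autoImplicit false

namespace TCMM

namespace Upper

open Set Metric

/-- small coloured covers: `A` is covered by 7 families of pairwise disjoint small open sets -/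
def Dm {Z : Type} [MetricSpace Z] (A : Set Z) : Prop :=
  ∀ ε : ℝ, 0 < ε → ∃ V : Fin 7 → Set (Set Z), (∀ i, ∀ v ∈ V i, IsOpen v) ∧
    (∀ i, ∀ v ∈ V i, ∀ w ∈ V i, ∀ z, z ∈ v → z ∈ w → v = w) ∧
    (∀ i, ∀ v ∈ V i, ∀ x ∈ v, ∀ y ∈ v, dist x y < ε) ∧ ∀ a ∈ A, ∃ i, ∃ v ∈ V i, a ∈ v

variable {Z : Type} [MetricSpace Z]

theorem Dm.mono {A B : Set Z} (h : Dm B) (hAB : A ⊆ B) : Dm A := by
  intro ε hε
  obtain ⟨V, h1, h2, h3, h4⟩ := h ε hε
  exact ⟨V, h1, h2, h3, fun a ha => h4 a (hAB ha)⟩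

/-- the smaller set -/
def shr (δ : ℝ) (v : Set Z) : Set Z := {z | ∃ a, dist z a < δ / 4 ∧ ball a δ ⊆ v}

theorem shr_open (δ : ℝ) (v : Set Z) : IsOpen (shr δ v) := by
  have : shr δ v = ⋃ a ∈ {a | ball a δ ⊆ v}, ball a (δ / 4) := by
    ext z
    simp only [shr, mem_ofPred_eq, mem_iUnion, mem_ball, exists_prop]
    constructor
    · rintro ⟨a, h1, h2⟩
      exact ⟨a, h2, h1⟩
    · rintro ⟨a, h1, h2⟩
      exact ⟨a, h2, h1⟩
  rw [this]
  exact isOpen_biUnion fun a _ => isOpen_ball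

theorem shr_sub {δ : ℝ} (hδ : 0 < δ) {v : Set Z} {z : Z} (hz : z ∈ shr δ v) : z ∈ v := by
  obtain ⟨a, h1, h2⟩ := hz
  exact h2 (mem_ball.2 (by linarith))

theorem shr_far {δ : ℝ} {v : Set Z} {z z' : Z} (hz : z ∈ shr δ v)
    (hz' : z' ∉ v) : δ * (3 / 4) ≤ dist z z' := by
  obtain ⟨a, h1, h2⟩ := hz
  by_contra h
  apply hz'
  apply h2
  rw [mem_ball]
  calc dist z' a ≤ dist z' z + dist z a := dist_triangle _ _ _
    _ < δ := by
      rw [dist_comm z' z]
      linarith [not_le.1 h]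

/-- the enlarged set -/
def enl (δ : ℝ) (U : Set (Set Z)) (v : Set Z) : Set Z :=
  shr δ v ∪ ⋃₀ {u | u ∈ U ∧ ∃ p, p ∈ u ∧ p ∈ shr δ v}

theorem enl_near {δ η : ℝ} (hη : 0 < η) {U : Set (Set Z)} {v : Set Z}
    (hU : ∀ u ∈ U, ∀ x ∈ u, ∀ y ∈ u, dist x y < η) {z : Z} (hz : z ∈ enl δ U v) :
    ∃ p ∈ shr δ v, dist z p < η := by
  rcases hz with hz | ⟨u, ⟨hu, p, hp, hp'⟩, hz⟩
  · exact ⟨z, hz, by rwa [dist_self]⟩
  · exact ⟨p, hp', hU u hu z hz p hp⟩

theorem Dm.union {A B : Set Z} (hA : IsCompact A) (h : Dm A) (h' : Dm B) : Dm (A ∪ B) := by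
  intro ε hε
  obtain ⟨V, h1, h2, h3, h4⟩ := h (ε / 3) (by linarith)
  obtain ⟨δ, hδ, hL⟩ := lebesgue_number_lemma_of_metric
    (c := fun p : {p : Fin 7 × Set Z // p.2 ∈ V p.1} => p.1.2) hA
    (fun p => h1 _ _ p.2) (fun a ha => by
      obtain ⟨i, v, hv, hav⟩ := h4 a ha
      exact mem_iUnion.2 ⟨⟨(i, v), hv⟩, hav⟩)
  obtain ⟨U, k1, k2, k3, k4⟩ := h' (min (δ / 4) (ε / 3)) (by positivity)
  have hm : 0 < min (δ / 4) (ε / 3) := by positivity
  refine ⟨fun i => enl δ (U i) '' V i ∪ {u | u ∈ U i ∧ ∀ v ∈ V i, ∀ p ∈ u, p ∉ shr δ v},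
    ?_, ?_, ?_, ?_⟩
  · rintro i _ (⟨v, hv, rfl⟩ | ⟨hu, -⟩)
    · exact (shr_open δ v).union (isOpen_sUnion fun u hu => k1 i u hu.1)
    · exact k1 i _ hu
  · have key : ∀ i, ∀ v ∈ V i, ∀ w ∈ V i, ∀ z, z ∈ enl δ (U i) v → z ∈ enl δ (U i) w →
        enl δ (U i) v = enl δ (U i) w := by
      intro i v hv w hw z hzv hzw
      obtain ⟨p, hp, hzp⟩ := enl_near hm (k3 i) hzv
      obtain ⟨q, hq, hzq⟩ := enl_near hm (k3 i) hzw
      by_cases hqv : q ∈ v
      · rw [h2 i v hv w hw q hqv (shr_sub hδ hq)]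
      · exfalso
        have h5 := shr_far hp hqv
        have h6 : dist p q ≤ dist z p + dist z q := by
          rw [dist_comm z p]
          exact dist_triangle _ _ _
        have h7 := min_le_left (δ / 4) (ε / 3)
        linarith
    have key2 : ∀ i, ∀ v ∈ V i, ∀ u, u ∈ U i → (∀ v ∈ V i, ∀ p ∈ u, p ∉ shr δ v) → ∀ z,
        z ∈ enl δ (U i) v → z ∈ u → False := by
      intro i v hv u hu hu' z hz hzu
      rcases hz with hz | ⟨u', ⟨hu1, p, hp, hp'⟩, hz⟩
      · exact hu' v hv z hzu hz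
      · have : u' = u := k2 i u' hu1 u hu z hz hzu
        subst this
        exact hu' v hv p hp hp'
    rintro i _ (⟨v, hv, rfl⟩ | ⟨hu, hu'⟩) _ (⟨w, hw, rfl⟩ | ⟨hx, hx'⟩) z hz hz'
    · exact key i v hv w hw z hz hz'
    · exact absurd (key2 i v hv _ hx hx' z hz hz') id
    · exact absurd (key2 i w hw _ hu hu' z hz' hz) id
    · exact k2 i _ hu _ hx z hz hz'
  · rintro i _ (⟨v, hv, rfl⟩ | ⟨hu, -⟩) x hx y hy
    · obtain ⟨p, hp, hxp⟩ := enl_near hm (k3 i) hx
      obtain ⟨q, hq, hyq⟩ := enl_near hm (k3 i) hy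
      have h5 := h3 i v hv p (shr_sub hδ hp) q (shr_sub hδ hq)
      have h6 : dist x y ≤ dist x p + dist p q + dist q y := dist_triangle4 _ _ _ _
      rw [dist_comm q y] at h6
      have h7 := min_le_right (δ / 4) (ε / 3)
      linarith
    · exact lt_of_lt_of_le (k3 i _ hu x hx y hy) ((min_le_right _ _).trans (by linarith))
  · rintro a (ha | ha)
    · obtain ⟨⟨⟨i, v⟩, hv⟩, hav⟩ := hL a ha
      exact ⟨i, _, Or.inl ⟨v, hv, rfl⟩, Or.inl ⟨a, by rw [dist_self]; linarith, hav⟩⟩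
    · obtain ⟨i, u, hu, hau⟩ := k4 a ha
      by_cases hx : ∃ v ∈ V i, ∃ p ∈ u, p ∈ shr δ v
      · obtain ⟨v, hv, p, hp, hp'⟩ := hx
        exact ⟨i, _, Or.inl ⟨v, hv, rfl⟩, Or.inr ⟨u, ⟨hu, p, hp, hp'⟩, hau⟩⟩
      · push Not at hx
        exact ⟨i, u, Or.inr ⟨hu, hx⟩, hau⟩

/-! ## Cubes -/

/-- the coordinate space -/
abbrev P6 := (Fin 3 ⊕ Fin 3) → ℝ

/-- cubes of colour `i` -/
def cube (s : ℝ) (i : Fin 7) (m : (Fin 3 ⊕ Fin 3) → ℤ) : Set P6 :=
  {x | ∀ c, s * (m c + (i : ℕ) / 7) < x c ∧ x c < s * (m c + 1 + (i : ℕ) / 7)}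

theorem cube_open (s : ℝ) (i : Fin 7) (m : (Fin 3 ⊕ Fin 3) → ℤ) : IsOpen (cube s i m) := by
  have : cube s i m = ⋂ c, {x : P6 | s * (m c + (i : ℕ) / 7) < x c ∧
      x c < s * (m c + 1 + (i : ℕ) / 7)} := by
    ext x
    simp [cube]
  rw [this]
  refine isOpen_iInter_of_finite fun c => ?_
  exact (isOpen_lt continuous_const (continuous_apply c)).inter
    (isOpen_lt (continuous_apply c) continuous_const)

theorem cube_unique {s : ℝ} (hs : 0 < s) {i : Fin 7} {m m' : (Fin 3 ⊕ Fin 3) → ℤ} {x : P6}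
    (h : x ∈ cube s i m) (h' : x ∈ cube s i m') : m = m' := by
  funext c
  have h1 := (h c).1.trans (h' c).2
  have h2 := (h' c).1.trans (h c).2
  have h3 := lt_of_mul_lt_mul_left h1 hs.le
  have h4 := lt_of_mul_lt_mul_left h2 hs.le
  have h5 : (m c : ℝ) < m' c + 1 := by linarith
  have h6 : (m' c : ℝ) < m c + 1 := by linarith
  have h7 : m c < m' c + 1 := by exact_mod_cast h5
  have h8 : m' c < m c + 1 := by exact_mod_cast h6
  omega

theorem cube_dist {s : ℝ} (hs : 0 < s) {i : Fin 7} {m : (Fin 3 ⊕ Fin 3) → ℤ} {x y : P6}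
    (h : x ∈ cube s i m) (h' : y ∈ cube s i m) : dist x y < s := by
  rw [dist_pi_lt_iff hs]
  intro c
  rw [Real.dist_eq, abs_lt]
  have h1 := h c
  have h2 := h' c
  constructor <;> nlinarith [h1.1, h1.2, h2.1, h2.2]

theorem cube_cover {s : ℝ} (hs : 0 < s) (x : P6) : ∃ i m, x ∈ cube s i m := by
  have key : ∃ i : Fin 7, ∀ c, ∀ k : ℤ, x c ≠ s * (k + (i : ℕ) / 7) := by
    by_contra hcon
    push Not at hcon
    choose c k hck using hcon
    have hinj : Function.Injective c := by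
      intro i i' hii
      have h1 := hck i
      rw [hii, hck i'] at h1
      have h2 := mul_left_cancel₀ hs.ne' h1
      have h3 : ((7 * k i' + (i' : ℕ) : ℤ) : ℝ) = ((7 * k i + (i : ℕ) : ℤ) : ℝ) := by
        push_cast
        linarith
      have h4 : 7 * k i' + (i' : ℕ) = 7 * k i + (i : ℕ) := by exact_mod_cast h3
      have := i.2
      have := i'.2
      ext
      omega
    have := Fintype.card_le_of_injective c hinj
    simp at this
  obtain ⟨i, hi⟩ := key
  refine ⟨i, fun c => ⌊x c / s - (i : ℕ) / 7⌋, fun c => ?_⟩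
  have h1 := Int.floor_le (x c / s - (i : ℕ) / 7)
  have h2 := Int.lt_floor_add_one (x c / s - (i : ℕ) / 7)
  have h3 : s * (x c / s) = x c := mul_div_cancel₀ _ hs.ne'
  constructor
  · refine lt_of_le_of_ne ?_ (Ne.symm (hi c _))
    calc s * (⌊x c / s - (i : ℕ) / 7⌋ + (i : ℕ) / 7) ≤ s * (x c / s) :=
        mul_le_mul_of_nonneg_left (by linarith) hs.le
      _ = x c := h3
  · calc x c = s * (x c / s) := h3.symm
      _ < s * (⌊x c / s - (i : ℕ) / 7⌋ + 1 + (i : ℕ) / 7) :=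
        mul_lt_mul_of_pos_left (by linarith) hs

theorem Dm.chart {F : P6 → Z} (hF : Topology.IsOpenEmbedding F) {K : Set Z} (hK : IsCompact K)
    (hKF : K ⊆ range F) : Dm K := by
  intro ε hε
  have hK' : IsCompact (F ⁻¹' K) := hF.isEmbedding.toIsInducing.isCompact_preimage' hK hKF
  have hK2 : IsCompact (cthickening 1 (F ⁻¹' K)) := hK'.cthickening
  have huc := hK2.uniformContinuousOn_of_continuous (f := F) hF.continuous.continuousOn
  rw [Metric.uniformContinuousOn_iff] at huc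
  obtain ⟨δ, hδ, hd⟩ := huc ε hε
  set s : ℝ := min 1 δ with hs
  have hs0 : 0 < s := by positivity
  have hnear : ∀ i m, (∃ p ∈ F ⁻¹' K, p ∈ cube s i m) → ∀ x ∈ cube s i m,
      x ∈ cthickening 1 (F ⁻¹' K) := by
    rintro i m ⟨p, hp, hpc⟩ x hx
    refine mem_cthickening_of_dist_le x p 1 _ hp ?_
    exact (cube_dist hs0 hx hpc).le.trans (min_le_left _ _)
  refine ⟨fun i => {v | ∃ m, (∃ p ∈ F ⁻¹' K, p ∈ cube s i m) ∧ v = F '' cube s i m}, ?_, ?_, ?_, ?_⟩
  · rintro i _ ⟨m, -, rfl⟩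
    exact hF.isOpenMap _ (cube_open s i m)
  · rintro i _ ⟨m, -, rfl⟩ _ ⟨m', -, rfl⟩ z ⟨x, hx, rfl⟩ ⟨y, hy, hxy⟩
    have := hF.injective hxy
    subst this
    rw [cube_unique hs0 hx hy]
  · rintro i _ ⟨m, hm, rfl⟩ _ ⟨x, hx, rfl⟩ _ ⟨y, hy, rfl⟩
    exact hd x (hnear i m hm x hx) y (hnear i m hm y hy)
      ((cube_dist hs0 hx hy).trans_le (min_le_right _ _))
  · rintro a ha
    obtain ⟨x, rfl⟩ := hKF ha
    obtain ⟨i, m, hx⟩ := cube_cover hs0 x
    exact ⟨i, _, ⟨m, ⟨x, ha, hx⟩, rfl⟩, ⟨x, hx, rfl⟩⟩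

theorem Dm.all [CompactSpace Z]
    (hZ : ∀ z : Z, ∃ F : P6 → Z, Topology.IsOpenEmbedding F ∧ z ∈ range F) :
    Dm (univ : Set Z) := by
  have h : ∃ K : Set Z, univ ⊆ K ∧ IsCompact K ∧ Dm K := by
    refine isCompact_univ.induction_on (p := fun s => ∃ K : Set Z, s ⊆ K ∧ IsCompact K ∧ Dm K)
      ?_ ?_ ?_ ?_
    · refine ⟨∅, subset_rfl, isCompact_empty, fun ε _ => ⟨fun _ => ∅, ?_, ?_, ?_, ?_⟩⟩ <;> simp
    · rintro s t hst ⟨K, h1, h2, h3⟩
      exact ⟨K, hst.trans h1, h2, h3⟩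
    · rintro s t ⟨K, h1, h2, h3⟩ ⟨K', h1', h2', h3'⟩
      exact ⟨K ∪ K', union_subset_union h1 h1', h2.union h2', h3.union h2 h3'⟩
    · intro z _
      obtain ⟨F, hF, hz⟩ := hZ z
      obtain ⟨K, hK, hzK, hKF⟩ := exists_compact_subset hF.isOpen_range hz
      refine ⟨interior K, ?_, K, interior_subset, hK, Dm.chart hF hK hKF⟩
      exact nhdsWithin_le_nhds (isOpen_interior.mem_nhds hzK)
  obtain ⟨K, h1, -, h3⟩ := h
  exact h3.mono h1

/-! ## Motion planners -/

variable {X : Type} [TopologicalSpace X]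

/-- a motion planner on a set -/
def Pl (W : Set (X × X)) : Prop :=
  ∃ s : C(W, C(unitInterval, X)), ∀ z : W, s z 0 = (z : X × X).1 ∧ s z 1 = (z : X × X).2

theorem Pl.mono {W W' : Set (X × X)} (h : Pl W') (hW : W ⊆ W') : Pl W := by
  obtain ⟨s, hs⟩ := h
  refine ⟨s.comp ⟨Set.inclusion hW, continuous_inclusion hW⟩, fun z => hs _⟩

theorem Pl.of_path {W : Set (X × X)} (p : ∀ z : W, Path (z : X × X).1 (z : X × X).2)
    (hp : Continuous fun q : W × unitInterval => p q.1 q.2) : Pl W := by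
  refine ⟨(⟨_, hp⟩ : C(W × unitInterval, X)).curry, fun z => ⟨?_, ?_⟩⟩
  · exact (p z).source
  · exact (p z).target

theorem Pl.charts [PathConnectedSpace X] {f g : R3 → X} (hf : Topology.IsOpenEmbedding f)
    (hg : Topology.IsOpenEmbedding g) : Pl (range f ×ˢ range g : Set (X × X)) := by
  have hf' : ∀ z : (range f ×ˢ range g : Set (X × X)), (z : X × X).1 ∈ range f := fun z => z.2.1
  have hg' : ∀ z : (range f ×ˢ range g : Set (X × X)), (z : X × X).2 ∈ range g := fun z => z.2.2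
  set a : (range f ×ˢ range g : Set (X × X)) → R3 := fun z =>
    hf.isEmbedding.toHomeomorph.symm ⟨(z : X × X).1, hf' z⟩ with ha
  set b : (range f ×ˢ range g : Set (X × X)) → R3 := fun z =>
    hg.isEmbedding.toHomeomorph.symm ⟨(z : X × X).2, hg' z⟩ with hb
  have hac : Continuous a := by
    refine (hf.isEmbedding.toHomeomorph.symm.continuous).comp ?_
    exact (continuous_fst.comp continuous_subtype_val).subtype_mk _
  have hbc : Continuous b := by
    refine (hg.isEmbedding.toHomeomorph.symm.continuous).comp ?_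
    exact (continuous_snd.comp continuous_subtype_val).subtype_mk _
  have hfa : ∀ z, f (a z) = (z : X × X).1 := by
    intro z
    have := hf.isEmbedding.toHomeomorph.apply_symm_apply ⟨(z : X × X).1, hf' z⟩
    exact congrArg Subtype.val this
  have hgb : ∀ z, g (b z) = (z : X × X).2 := by
    intro z
    have := hg.isEmbedding.toHomeomorph.apply_symm_apply ⟨(z : X × X).2, hg' z⟩
    exact congrArg Subtype.val this
  let p1 : ∀ z : (range f ×ˢ range g : Set (X × X)), Path (z : X × X).1 (f 0) := fun z =>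
    { toFun := fun t => f ((1 - (t : ℝ)) • a z)
      continuous_toFun := hf.continuous.comp (by fun_prop)
      source' := by simp [hfa]
      target' := by simp }
  let p2 : ∀ z : (range f ×ˢ range g : Set (X × X)), Path (g 0) (z : X × X).2 := fun z =>
    { toFun := fun t => g ((t : ℝ) • b z)
      continuous_toFun := hg.continuous.comp (by fun_prop)
      source' := by simp
      target' := by simp [hgb] }
  obtain ⟨γ⟩ : Nonempty (Path (f 0) (g 0)) := PathConnectedSpace.joined (f 0) (g 0)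
  have hfin : Continuous ↿(fun z => (p1 z).trans (γ.trans (p2 z))) := by
    refine Path.trans_continuous_family p1 ?_ _ ?_
    · refine hf.continuous.comp ?_
      have : Continuous fun q : (range f ×ˢ range g : Set (X × X)) × unitInterval =>
        (1 - (q.2 : ℝ)) • a q.1 := by fun_prop
      exact this
    · refine Path.trans_continuous_family (fun _ => γ) ?_ _ ?_
      · exact γ.continuous.comp continuous_snd
      · refine hg.continuous.comp ?_
        have : Continuous fun q : (range f ×ˢ range g : Set (X × X)) × unitInterval =>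
          (q.2 : ℝ) • b q.1 := by fun_prop
        exact this
  exact Pl.of_path (fun z => (p1 z).trans (γ.trans (p2 z))) hfin

/-- planners on pairwise disjoint open sets -/
theorem Pl.sUnion {V : Set (Set (X × X))} (ho : ∀ v ∈ V, IsOpen v)
    (hd : ∀ v ∈ V, ∀ w ∈ V, ∀ z, z ∈ v → z ∈ w → v = w) (hp : ∀ v ∈ V, Pl v) : Pl (⋃₀ V) := by
  choose s hs using hp
  have hmem : ∀ z : (⋃₀ V : Set (X × X)), ∃ v, v ∈ V ∧ (z : X × X) ∈ v := fun z => z.2
  choose v hv hzv using hmem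
  let S : (⋃₀ V : Set (X × X)) → C(unitInterval, X) := fun z => s (v z) (hv z) ⟨z, hzv z⟩
  have hS : ∀ (z : (⋃₀ V : Set (X × X))) (v' : Set (X × X)) (_ : v z = v') (hv' : v' ∈ V)
      (hw : (z : X × X) ∈ v'), S z = s v' hv' ⟨z, hw⟩ := by
    rintro z _ rfl hv' hw
    rfl
  have hSc : Continuous S := by
    rw [continuous_iff_continuousAt]
    intro z
    have hopen : IsOpen {w : (⋃₀ V : Set (X × X)) | (w : X × X) ∈ v z} :=
      (ho _ (hv z)).preimage continuous_subtype_val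
    have hcon : ContinuousOn S {w : (⋃₀ V : Set (X × X)) | (w : X × X) ∈ v z} := by
      rw [continuousOn_iff_continuous_domRestrict]
      have : ({w : (⋃₀ V : Set (X × X)) | (w : X × X) ∈ v z}).domRestrict S =
          fun w : {w : (⋃₀ V : Set (X × X)) | (w : X × X) ∈ v z} =>
            s (v z) (hv z) ⟨(w.1 : X × X), w.2⟩ := by
        funext w
        exact hS w.1 _ (hd _ (hv _) _ (hv z) _ (hzv w.1) w.2) _ _
      rw [this]
      exact (s (v z) (hv z)).continuous.comp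
        ((continuous_subtype_val.comp continuous_subtype_val).subtype_mk _)
    exact hcon.continuousAt (hopen.mem_nhds (hzv z))
  exact ⟨⟨S, hSc⟩, fun z => hs _ (hv z) ⟨z, hzv z⟩⟩

/-- the coordinate space of a product of two charts -/
noncomputable def hom6 : P6 ≃ₜ R3 × R3 :=
  (Homeomorph.sumArrowHomeomorphProdArrow).trans
    ((EuclideanSpace.equiv (Fin 3) ℝ).symm.toHomeomorph.prodCongr
      (EuclideanSpace.equiv (Fin 3) ℝ).symm.toHomeomorph)

theorem hasTC_seven (X : Type) [MetricSpace X] [CompactSpace X] [PathConnectedSpace X]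
    (hX : ∀ x : X, ∃ f : R3 → X, Topology.IsOpenEmbedding f ∧ x ∈ range f) : HasTC X 7 := by
  have hD : Dm (univ : Set (X × X)) := by
    refine Dm.all fun z => ?_
    obtain ⟨f, hf, hf1⟩ := hX z.1
    obtain ⟨g, hg, hg1⟩ := hX z.2
    refine ⟨Prod.map f g ∘ hom6, (hf.prodMap hg).comp hom6.isOpenEmbedding, ?_⟩
    rw [hom6.surjective.range_comp, range_prodMap]
    exact ⟨hf1, hg1⟩
  choose f hf hfx using hX
  obtain ⟨δ, hδ, hL⟩ := lebesgue_number_lemma_of_metric (s := (univ : Set (X × X)))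
    (c := fun z : X × X => range (f z.1) ×ˢ range (f z.2)) isCompact_univ
    (fun z => (hf z.1).isOpen_range.prod (hf z.2).isOpen_range)
    (fun z _ => mem_iUnion.2 ⟨z, hfx z.1, hfx z.2⟩)
  obtain ⟨V, h1, h2, h3, h4⟩ := hD δ hδ
  have hP : ∀ i, Pl (⋃₀ V i) := by
    intro i
    refine Pl.sUnion (h1 i) (h2 i) fun v hv => ?_
    rcases v.eq_empty_or_nonempty with rfl | ⟨z, hz⟩
    · exact ⟨⟨fun z => absurd z.2 id, by fun_prop⟩, fun z => absurd z.2 id⟩
    · obtain ⟨w, hw⟩ := hL z (mem_univ z)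
      refine (Pl.charts (hf w.1) (hf w.2)).mono (Subset.trans (fun y hy => ?_) hw)
      exact h3 i v hv y hy z hz
  choose s hs using hP
  exact ⟨fun i => ⋃₀ V i, s, fun i => isOpen_sUnion fun v hv => h1 i v hv,
    fun z => h4 z (mem_univ z), hs⟩

end Upper

/-- the upper bound -/
theorem TC_le_seven (X : Type) [MetricSpace X] [CompactSpace X] [PathConnectedSpace X]
    (hX : ∀ x : X, ∃ f : R3 → X, Topology.IsOpenEmbedding f ∧ x ∈ Set.range f) : TC X ≤ 7 :=
  iInf₂_le (7 : ℕ) (Upper.hasTC_seven X hX)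

end TCMM
end
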