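import Pool.Agent.Lib.MP_ab96eb_gt.Spec
import Pool.Agent.Lib.MP_b00168_gt.ZC
import Pool.Agent.Lib.MP_ab96eb_gt.Psi
import Pool.Agent.Lib.MP_ab96eb_gt.UC
import Pool.Agent.Lib.MP_ab96eb_gt.Glue
import Pool.Agent.Lib.MP_ab96eb_gt.Hom
import Pool.Agent.Lib.MP_ab96eb_gt.Plan
import Pool.Agent.Lib.MP_ab96eb_gt.Nonbd
import Pool.Agent.Lib.MP_ab96eb_gt.Upper

section
set_option autoImplicit false

/-! # MP_ab96eb_gt : module ACY -/

namespace TCMM

open MPb00168

namespace Acy

variable {E : Type} [TopologicalSpace E]

/-- The singular 1-simplex of a path. -/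
noncomputable def arc {x y : E} (p : Path x y) : Sing E 1 :=
  ⟨fun t => p.extend ((t : Fin 2 → ℝ) 1),
    p.continuous_extend.comp ((continuous_apply 1).comp continuous_subtype_val)⟩

/-- The constant 0-simplex. -/
def pt0 (y : E) : Sing E 0 := ContinuousMap.const _ y

lemma eq_pt0 (σ : Sing E 0) : σ = pt0 (σ default) := by
  ext t
  simp only [pt0, ContinuousMap.const_apply]
  congr 1
  exact Subsingleton.elim _ _

lemma face0_arc {x y : E} (p : Path x y) : face 0 (arc p) = pt0 y := by
  ext t
  have h1 : (faceMap 0 0 t : Fin 2 → ℝ) 1 = 1 := by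
    have h := faceMap_apply (k := 0) 0 t 0
    rw [show ((0 : Fin 2).succAbove 0) = 1 from rfl] at h
    rw [h]
    have h2 := t.2.2
    rwa [Fin.sum_univ_one] at h2
  change p.extend ((faceMap 0 0 t : Fin 2 → ℝ) 1) = y
  rw [h1, Path.extend_one]

lemma face1_arc {x y : E} (p : Path x y) : face 1 (arc p) = pt0 x := by
  ext t
  have h1 : (faceMap 0 1 t : Fin 2 → ℝ) 1 = 0 := faceMap_apply_self (k := 0) 1 t
  change p.extend ((faceMap 0 1 t : Fin 2 → ℝ) 1) = x
  rw [h1, Path.extend_zero]

end Acy

open Acy in
theorem specAcy : SpecAcy := by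
  intro E _ _
  constructor
  · intro n c hc
    obtain ⟨y, ⟨H⟩⟩ := id_nullhomotopic E
    have h1 := specFamily E n c hc (fun σ => ⟨fun q => H (q.2, σ q.1), by fun_prop⟩)
      (fun σ => ⟨fun q => H (q.2, σ q.1), by fun_prop⟩)
      (by
        intro σ _ t
        simp)
      (by
        intro σ _ i t s
        rfl)
    have h2 : (c.sum fun σ a => Finsupp.single
        (⟨fun t => (⟨fun q => H (q.2, σ q.1), by fun_prop⟩ :
          C(stdSimplex ℝ (Fin (n + 2)) × unitInterval, E)) (t, 1), by fun_prop⟩ :
            Sing E (n + 1)) a) = push (ContinuousMap.const E y) c := by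
      rw [push, Finsupp.lmapDomain_apply, Finsupp.mapDomain]
      refine Finsupp.sum_congr fun σ _ => ?_
      congr 1
      ext t
      simp
    have h3 : Homologous (push (ContinuousMap.const E y) c) c := by
      rw [← h2]
      exact h1
    obtain ⟨b, hb⟩ := h3.symm.trans (specPoint E E y n c hc)
    exact ⟨b, by rw [hb, sub_zero]⟩
  · intro c hc
    have : PathConnectedSpace E := inferInstance
    obtain ⟨y⟩ : Nonempty E := inferInstance
    refine ⟨c.sum fun σ a => Finsupp.single
      (arc (PathConnectedSpace.somePath y (σ default))) a, ?_⟩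
    have h1 : ∀ (x : E) (a : ℤ), bd (Finsupp.single (arc (PathConnectedSpace.somePath y x)) a) =
        Finsupp.single (pt0 x) a - Finsupp.single (pt0 y) a := by
      intro x a
      rw [bd_single, Fin.sum_univ_two, face0_arc, face1_arc]
      simp [sub_eq_add_neg]
    rw [Finsupp.sum, map_sum, Finset.sum_congr rfl fun σ _ => h1 (σ default) (c σ),
      Finset.sum_sub_distrib]
    have h2 : ∑ σ ∈ c.support, Finsupp.single (pt0 (σ default)) (c σ) = c := by
      rw [Finset.sum_congr rfl fun σ _ => by rw [← eq_pt0 σ]]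
      exact Finsupp.sum_single c
    have h3 : ∑ σ ∈ c.support, Finsupp.single (pt0 y) (c σ) = 0 := by
      rw [← Finsupp.single_finsetSum]
      rw [show ∑ σ ∈ c.support, c σ = 0 from hc, Finsupp.single_zero]
    rw [h2, h3, sub_zero]

end TCMM
end

section
/-!
MP_ab96eb_gt: assembly of the modules.
-/
set_option autoImplicit false

namespace TCMM

theorem specMainAll : SpecMain := by
  have hFin : SpecFin := specFin specTree specHD
  have hUC : SpecUC := specUC specHD hFin
  have hAlt : SpecAlt := specAlt specPerm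
  have hEvl : SpecEvl := specEvl specLift
  exact specMain (specVan specPlan specLift) (specCyc hEvl specEZ specPri) hUC hAlt specELift
    specGlue specAfun
    (specEvx specLift hUC hAlt (specEvA specTree specHD) (specEvB specTree specHD) specConst)
    specSplit (specNonbd specAcy) (specAlpha specAcy specExt (specPsi specPerm) (specHom specLift))
    hEvl

end TCMM
end
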