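import Pool.Agent.Lib.MP_ab96eb_gt.Defs

set_option autoImplicit false

/-!
# MP_ab96eb_gt : exact statements of the modules
See /team-store/MP_ab96eb_gt_PROOF.md for the paper proof of each module.
-/

namespace TCMM

open MPb00168

/-! ## Algebra -/

/-- module HD -/
def SpecHD : Prop := ∀ (G : Bool → Type) [∀ i, Group (G i)],
  (∀ (i : Bool) (g : G i) (w : FP G), hd i (inc (G := G) i g * w) = g * hd i w) ∧
  (∀ (i j : Bool), j ≠ i → ∀ (k : G j) (w : FP G), hd i (w * inc (G := G) j k) = hd i w) ∧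
  (∀ i : Bool, hd i (1 : FP G) = 1)

/-- module TREE -/
def SpecTree : Prop := ∀ (G : Bool → Type) [∀ i, Group (G i)], ∃ d : Vx G → Vx G → ℕ, TreeD d

/-- module FIN -/
def SpecFin : Prop := ∀ (G : Bool → Type) [∀ i, Group (G i)] (v : Fin 7 → FP G),
  {q : (FP G ⧸ HH (G := G) false) × (FP G ⧸ HH (G := G) true) |
    (∀ m n : Fin 4, m ≠ n → hd false ((q.1.out)⁻¹ * v (i0 m) * q.2.out) ≠
      hd false ((q.1.out)⁻¹ * v (i0 n) * q.2.out)) ∧
    (∀ m n : Fin 4, m ≠ n → hd true ((q.1.out)⁻¹ * v (i3 m) * q.2.out)⁻¹ ≠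
      hd true ((q.1.out)⁻¹ * v (i3 n) * q.2.out)⁻¹)}.Finite

/-- module UC -/
def SpecUC : Prop := ∀ (G : Bool → Type) [∀ i, Group (G i)] (α : (Fin 4 → G false) → ℝ)
  (β : (Fin 4 → G true) → ℝ), Coc 3 α → Coc 3 β → BiCoc (uc α β)

/-- module EVA -/
def SpecEvA : Prop := ∀ (G : Bool → Type) [∀ i, Group (G i)] (α : (Fin 4 → G false) → ℝ)
  (β : (Fin 4 → G true) → ℝ), Coc 3 α → Coc 3 β →
  (∀ (x : Fin 7 → G false) (y : Fin 7 → G true),
    uc α β (fun m => inc (G := G) false (x m) * (inc (G := G) true (y m))⁻¹) =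
      α (x ∘ i0) * β (y ∘ i3)) ∧
  (∀ (i : Bool) (z : Fin 7 → G i), uc α β (fun m => inc (G := G) i (z m)) = 0)

/-- module EVB -/
def SpecEvB : Prop := ∀ (G : Bool → Type) [∀ i, Group (G i)] (α : (Fin 4 → G false) → ℝ)
  (β : (Fin 4 → G true) → ℝ), Coc 3 α → Coc 3 β →
  ∀ (x : Fin 4 → G true) (y : Fin 4 → G false) (π : Equiv.Perm (Fin 7)),
    ∑ s ∈ Sh 3 6, (sg s : ℝ) * uc α β ((fun m => inc (G := G) true (x (px 3 s m)) *
      (inc (G := G) false (y (py 3 s m)))⁻¹) ∘ π) = 0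

/-- module PERM: permutations and faces -/
def SpecPerm : Prop := ∀ (n : ℕ) (π : Equiv.Perm (Fin (n + 1))) (k : Fin (n + 1)),
  ∃ π' : Equiv.Perm (Fin n), (∀ m, π (k.succAbove m) = (π k).succAbove (π' m)) ∧
    (Equiv.Perm.sign π' : ℤ) = (Equiv.Perm.sign π : ℤ) * (-1) ^ ((k : ℕ) + (π k : ℕ))

/-- module ALT -/
def SpecAlt : Prop := ∀ (Γ : Type) [Group Γ] (u : (Fin 7 → Γ) → ℝ), BiCoc u →
  BiCoc (Alt u) ∧ ∀ v : Fin 7 → Γ, (∃ m n, m ≠ n ∧ v m = v n) → Alt u v = 0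

/-- module CONST -/
def SpecConst : Prop := ∀ (H H' : Type) [Group H] [Group H'] (α : (Fin 4 → H) → ℝ)
  (β : (Fin 4 → H') → ℝ), Coc 3 α → Coc 3 β → ∀ (x : Fin 4 → H) (y : Fin 4 → H'),
  ∑ s ∈ Sh 3 6, (sg s : ℝ) * ∑ π : Equiv.Perm (Fin 7), ((Equiv.Perm.sign π : ℤ) : ℝ) *
    (α (fun m => x (px 3 s (π (i0 m)))) * β (fun m => y (py 3 s (π (i3 m))))) =
  5040 * (α x * β y)

/-- module EZ: the boundary of the product of two 3-simplices -/
def SpecEZ : Prop := ∀ (S S' : Type) (w : (Fin 6 → S × S') → ℝ) (x : Fin 4 → S) (y : Fin 4 → S'),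
  ∑ s ∈ Sh 3 6, (sg s : ℝ) * ∑ k : Fin 7, (-1 : ℝ) ^ (k : ℕ) *
      w (fun m => (x (px 3 s (k.succAbove m)), y (py 3 s (k.succAbove m)))) =
    (∑ j : Fin 4, (-1 : ℝ) ^ (j : ℕ) * ∑ s ∈ Sh 2 5, (sg s : ℝ) *
      w (fun m => (x (j.succAbove (px 2 s m)), y (py 3 s m)))) -
    ∑ j : Fin 4, (-1 : ℝ) ^ (j : ℕ) * ∑ s ∈ Sh 3 5, (sg s : ℝ) *
      w (fun m => (x (px 3 s m), y (j.succAbove (py 2 s m))))

/-- module PRI: the prism identity -/
def SpecPri : Prop := ∀ (S Γ : Type) (u : (Fin 7 → Γ) → ℝ),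
  (∀ v : Fin 8 → Γ, ∑ k : Fin 8, (-1 : ℝ) ^ (k : ℕ) * u (v ∘ k.succAbove) = 0) →
  ∀ φ φ' : S → Γ, ∃ W : (Fin 6 → S) → ℝ,
    (∀ P : Fin 7 → S, u (φ ∘ P) - u (φ' ∘ P) =
      ∑ k : Fin 7, (-1 : ℝ) ^ (k : ℕ) * W (P ∘ k.succAbove)) ∧
    (∀ (θ : S → S) (τ : Γ → Γ), (∀ v, u (τ ∘ v) = u v) → (∀ s, φ (θ s) = τ (φ s)) →
      (∀ s, φ' (θ s) = τ (φ' s)) → ∀ Q, W (θ ∘ Q) = W Q)

/-! ## Coverings and cycles -/

/-- module LIFT -/
def SpecLift : Prop := ∀ (H : Type) [Group H] (X : Type) [TopologicalSpace X] (C : GCov H X)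
  (k : ℕ), (∀ σ : Sing X k, ∃ τ : Sing C.T k, C.p.comp τ = σ) ∧
  ∀ τ τ' : Sing C.T k, C.p.comp τ = C.p.comp τ' → ∃ g : H, ∀ t, τ' t = g • τ t

/-- module EVL -/
def SpecEvl : Prop := ∀ (H : Type) [Group H] (X : Type) [TopologicalSpace X] (C : GCov H X)
  (k : ℕ) (W : (Fin (k + 1) → C.T) → ℝ), (∀ (g : H) x, W (fun m => g • x m) = W x) →
  (∀ τ : Sing C.T k, W (lft C (C.p.comp τ)) = W (vt τ)) ∧
  (∀ c : Chain X (k + 1), evl C W (bd c) =
    evl C (fun x : Fin (k + 2) → C.T => ∑ i : Fin (k + 2), (-1 : ℝ) ^ (i : ℕ) *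
      W (x ∘ i.succAbove)) c)

/-- module CYC -/
def SpecCyc : Prop := ∀ (H : Type) [Group H] (X : Type) [TopologicalSpace X] (C : GCov H X)
  (u : (Fin 7 → H) → ℝ), BiCoc u → ∀ φ φ' : C.T → C.T → H,
  (∀ g h x y, φ (g • x) (h • y) = g * φ x y * h⁻¹) →
  (∀ g h x y, φ' (g • x) (h • y) = g * φ' x y * h⁻¹) →
  ∀ c : Chain X 3, bd c = 0 → ev2 C (Om u φ) c c = ev2 C (Om u φ') c c

/-- module PLAN -/
def SpecPlan : Prop := ∀ (H : Type) [Group H] (X : Type) [MetricSpace X] [CompactSpace X]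
  (C : GCov H X), HasTC X 6 → ∃ (φ : C.T → C.T → H) (ε : ℝ) (col : X × X → Fin 6), 0 < ε ∧
  (∀ g h x y, φ (g • x) (h • y) = g * φ x y * h⁻¹) ∧
  ∀ σ τ : Sing C.T 3, (∀ s t, dist (C.p (σ s)) (C.p (σ t)) < ε) →
    (∀ s t, dist (C.p (τ s)) (C.p (τ t)) < ε) → ∀ s s' t t',
    col (C.p (σ s), C.p (τ t)) = col (C.p (σ s'), C.p (τ t')) →
    φ (σ s) (τ t) = φ (σ s') (τ t')

/-- module VAN -/
def SpecVan : Prop := ∀ (H : Type) [Group H] (X : Type) [MetricSpace X] [CompactSpace X]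
  (C : GCov H X), HasTC X 6 → ∃ (φ : C.T → C.T → H) (ε : ℝ), 0 < ε ∧
  (∀ g h x y, φ (g • x) (h • y) = g * φ x y * h⁻¹) ∧
  ∀ u : (Fin 7 → H) → ℝ, (∀ v : Fin 7 → H, (∃ m n, m ≠ n ∧ v m = v n) → u v = 0) →
    ∀ c : Chain X 3, SmallCh ε c → ev2 C (Om u φ) c c = 0

/-- module ELIFT -/
def SpecELift : Prop := ∀ (H : Type) [Group H] (X : Type) [TopologicalSpace X] (C : GCov H X)
  (e : C(R3, X)), ∃ el : C(R3, C.T), ∀ v, C.p (el v) = e v

/-- module GLUE -/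
def SpecGlue : Prop := ∀ (G : Bool → Type) [∀ i, Group (G i)] (M : Bool → Type)
  [∀ i, TopologicalSpace (M i)] [∀ i, T2Space (M i)] (X : Type) [TopologicalSpace X]
  (S : ConnSum M X) (A : ∀ i, GCov (G i) (M i)) (el : ∀ i, C(R3, (A i).T)),
  (∀ i v, (A i).p (el i v) = S.e i v) → Nonempty (Glued S A el)

/-- module AFUN -/
def SpecAfun : Prop := ∀ (G : Bool → Type) [∀ i, Group (G i)] (M : Bool → Type)
  [∀ i, TopologicalSpace (M i)] (X : Type) [TopologicalSpace X]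
  (S : ConnSum M X) (A : ∀ i, GCov (G i) (M i)) (el : ∀ i, C(R3, (A i).T)),
  (∀ i v, (A i).p (el i v) = S.e i v) → ∀ D : Glued S A el,
  ∃ (ai : ∀ i, (A i).T → G i) (a : D.C.T → FP G),
    (∀ i (g : G i) t, ai i (g • t) = g * ai i t) ∧ (∀ i v, ai i (el i v) = 1) ∧
    (∀ (g : FP G) t, a (g • t) = g * a t) ∧
    ∀ i (t : Pre S A i), a (D.J i t) = inc (G := G) i (ai i t)

/-- module EVX: evaluation on the product of a cycle of the connected sum with itself -/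
def SpecEvx : Prop := ∀ (G : Bool → Type) [∀ i, Group (G i)] (M : Bool → Type)
  [∀ i, TopologicalSpace (M i)] (X : Type) [TopologicalSpace X]
  (S : ConnSum M X) (A : ∀ i, GCov (G i) (M i)) (el : ∀ i, C(R3, (A i).T)) (D : Glued S A el)
  (ai : ∀ i, (A i).T → G i) (a : D.C.T → FP G),
  (∀ i (g : G i) t, ai i (g • t) = g * ai i t) →
  (∀ (g : FP G) t, a (g • t) = g * a t) →
  (∀ i (t : Pre S A i), a (D.J i t) = inc (G := G) i (ai i t)) →
  ∀ (α : (Fin 4 → G false) → ℝ) (β : (Fin 4 → G true) → ℝ), Coc 3 α → Coc 3 β →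
  ∀ k : ∀ i, Chain (Dom (S.e i)) 3,
  ev2 D.C (Om (Alt (uc α β)) (fun x y => a x * (a y)⁻¹))
      (push (jC S false) (k false) + push (jC S true) (k true))
      (push (jC S false) (k false) + push (jC S true) (k true)) =
    5040 * (evl (A false) (fun x => α (ai false ∘ x)) (push (incD (S.e false)) (k false)) *
      evl (A true) (fun x => β (ai true ∘ x)) (push (incD (S.e true)) (k true)))

/-- module SPLIT -/
def SpecSplit : Prop := ∀ (M : Bool → Type) [∀ i, TopologicalSpace (M i)] (X : Type)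
  [MetricSpace X] [CompactSpace X] (S : ConnSum M X) (c : Chain X 3), IsOrient c →
  ∀ ε : ℝ, 0 < ε → ∃ k : ∀ i, Chain (Dom (S.e i)) 3,
    IsOrient (push (jC S false) (k false) + push (jC S true) (k true)) ∧
    SmallCh ε (push (jC S false) (k false) + push (jC S true) (k true))

/-- module NONBD -/
def SpecNonbd : Prop := ∀ (M : Bool → Type) [∀ i, TopologicalSpace (M i)] [∀ i, T2Space (M i)]
  (X : Type) [TopologicalSpace X] (S : ConnSum M X) (k : ∀ i, Chain (Dom (S.e i)) 3),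
  IsOrient (push (jC S false) (k false) + push (jC S true) (k true)) →
  ∀ i, ∃ b : Chain R3 3, bd (push (incD (S.e i)) (k i) + push (eC S i) b) = 0 ∧
    ∀ n : ℤ, n ≠ 0 → ¬ ∃ t : Chain (M i) 4,
      bd t = n • (push (incD (S.e i)) (k i) + push (eC S i) b)

/-! ## Classes of aspherical spaces -/

/-- the conclusion of module ACY -/
def Acyc (E : Type) [TopologicalSpace E] : Prop :=
  (∀ (n : ℕ) (c : Chain E (n + 1)), bd c = 0 → ∃ b, bd b = c) ∧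
  (∀ c : Chain E 0, (c.sum fun _ a => a) = 0 → ∃ b : Chain E 1, bd b = c)

/-- module ACY -/
def SpecAcy : Prop := ∀ (E : Type) [TopologicalSpace E] [ContractibleSpace E], Acyc E

/-- module EXT -/
def SpecExt : Prop := ∀ (X : Type) [TopologicalSpace X] (z : Chain X 3),
  (∀ n : ℤ, n ≠ 0 → ¬ ∃ t, bd t = n • z) →
  ∃ μ : Chain X 3 →ₗ[ℤ] ℝ, (∀ t, μ (bd t) = 0) ∧ μ z ≠ 0

/-- equivariant alternating maps from tuples of group elements to chains -/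
structure Psi {H : Type} [Group H] {X : Type} [TopologicalSpace X] (C : GCov H X)
    (ψ : ∀ n : ℕ, (Fin (n + 1) → H) → Chain C.T n) : Prop where
  eqv : ∀ (n : ℕ) (g : H) (x : Fin (n + 1) → H),
    ψ n (fun m => g * x m) = push (smC C g) (ψ n x)
  alt : ∀ (n : ℕ) (π : Equiv.Perm (Fin (n + 1))) (x : Fin (n + 1) → H),
    ψ n (x ∘ π) = (Equiv.Perm.sign π : ℤ) • ψ n x
  aug : ∀ x, ((ψ 0 x).sum fun _ a => a) = 1
  bdy : ∀ (n : ℕ) (x : Fin (n + 2) → H), bd (ψ (n + 1) x) =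
    ((n + 2).factorial : ℤ) • ∑ k : Fin (n + 2), (-1 : ℤ) ^ (k : ℕ) • ψ n (x ∘ k.succAbove)

/-- module PSI -/
def SpecPsi : Prop := ∀ (H : Type) [Group H] (X : Type) [TopologicalSpace X] [Nonempty X]
  (C : GCov H X), Acyc C.T → ∃ ψ, Psi C ψ

/-- module HOM -/
def SpecHom : Prop := ∀ (H : Type) [Group H] (X : Type) [TopologicalSpace X] (C : GCov H X),
  Acyc C.T → ∀ (ψ : ∀ n : ℕ, (Fin (n + 1) → H) → Chain C.T n), Psi C ψ →
  ∀ a : C.T → H, (∀ g t, a (g • t) = g * a t) → ∀ z : Chain X 3, bd z = 0 →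
  ∃ t : Chain X 4, Finsupp.linearCombination ℤ
    (fun σ : Sing X 3 => push C.p (ψ 3 (a ∘ lft C σ))) z = (288 : ℤ) • z + bd t

/-- module ALPHA -/
def SpecAlpha : Prop := ∀ (H : Type) [Group H] (X : Type) [TopologicalSpace X] (C : GCov H X)
  [ContractibleSpace C.T] (a : C.T → H), (∀ g t, a (g • t) = g * a t) →
  ∀ z : Chain X 3, bd z = 0 → (∀ n : ℤ, n ≠ 0 → ¬ ∃ t, bd t = n • z) →
  ∃ α : (Fin 4 → H) → ℝ, Coc 3 α ∧ evl C (fun x => α (a ∘ x)) z ≠ 0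

/-! ## Main theorem -/

/-- module MAIN -/
def SpecMain : Prop := ∀ (G : Bool → Type) [∀ i, Group (G i)] (M : Bool → Type)
  [∀ i, TopologicalSpace (M i)] [∀ i, T2Space (M i)] (A : ∀ i, GCov (G i) (M i))
  [∀ i, ContractibleSpace (A i).T] (X : Type) [MetricSpace X] [CompactSpace X]
  (_ : ConnSum M X) (c : Chain X 3), IsOrient c → 7 ≤ TC X

end TCMM
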