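import Pool.Agent.Lib.MP_b00168_gt.Statement

set_option autoImplicit false

/-!
# MP_ab96eb_gt : the definitions used in the statement of the result

Topological complexity, coverings with a group of deck transformations, connected sums of
3-manifolds. Singular chains with integer coefficients (`Sing`, `Chain`, `bd`, `push`, `Avoids`) are
those of `Pool.Agent.Lib.MP_b00168_gt.Statement`.
-/

namespace TCMM

open MPb00168

/-! ## Topological complexity -/

/-- `X × X` is covered by `k` open sets, each carrying a continuous motion planner; i.e.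
`TC(X) ≤ k` (non-reduced normalisation: `HasTC point 1`). -/
def HasTC (X : Type) [TopologicalSpace X] (k : ℕ) : Prop :=
  ∃ (U : Fin k → Set (X × X)) (s : ∀ j, C(U j, C(unitInterval, X))),
    (∀ j, IsOpen (U j)) ∧ (∀ z, ∃ j, z ∈ U j) ∧
    ∀ (j : Fin k) (z : U j), s j z 0 = (z : X × X).1 ∧ s j z 1 = (z : X × X).2

/-- The topological complexity (non-reduced), `⊤` if there is no finite cover. -/
noncomputable def TC (X : Type) [TopologicalSpace X] : ℕ∞ :=
  ⨅ (k : ℕ) (_ : HasTC X k), (k : ℕ∞)

/-! ## Coverings -/

/-- A covering of `X` with a group `G` acting freely by homeomorphisms on the total space, simply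
transitively on the fibres (a regular covering with group `G`). -/
structure GCov (G : Type) [Group G] (X : Type) [TopologicalSpace X] where
  /-- the total space -/
  T : Type
  [top : TopologicalSpace T]
  [act : MulAction G T]
  [cont : ContinuousConstSMul G T]
  /-- the projection -/
  p : C(T, X)
  cov : IsCoveringMap p
  surj : Function.Surjective p
  orbit : ∀ x y : T, p x = p y ↔ ∃ g : G, g • x = y
  free : ∀ (g : G) (x : T), g • x = x → g = 1

attribute [instance] GCov.top GCov.act GCov.cont

/-! ## Connected sums of 3-manifolds -/

/-- Euclidean 3-space. -/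
abbrev R3 := EuclideanSpace ℝ (Fin 3)

/-- The inversion `v ↦ v / |v|²`. -/
noncomputable def inv3 (v : R3) : R3 := (‖v‖ ^ 2)⁻¹ • v

/-- The complement in `M` of the closed ball of radius `1/2` of a chart `e`. -/
def Dom {M : Type} (e : R3 → M) : Set M := (e '' Metric.closedBall 0 (1 / 2))ᶜ

/-- `X` is a connected sum of `M false` and `M true`: it is the union of two open subsets
homeomorphic to the complements `Dom (e i)` of closed balls of radius `1/2` in charts
`e i : ℝ³ → M i`, glued along the annuli `1/2 < |v| < 2` by `v ↦ v / |v|²` (equivalently, the open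
unit balls are removed and the boundary spheres `|v| = 1` are identified). -/
structure ConnSum (M : Bool → Type) [∀ i, TopologicalSpace (M i)] (X : Type)
    [TopologicalSpace X] where
  /-- the charts -/
  e : ∀ i, R3 → M i
  emb : ∀ i, Topology.IsOpenEmbedding (e i)
  /-- the inclusions of the two pieces -/
  j : ∀ i, Dom (e i) → X
  jemb : ∀ i, Topology.IsOpenEmbedding (j i)
  cover : ∀ x : X, ∃ i m, j i m = x
  glue : ∀ (m : Dom (e false)) (m' : Dom (e true)), j false m = j true m' ↔
    ∃ v : R3, 1 / 2 < ‖v‖ ∧ ‖v‖ < 2 ∧ (m : M false) = e false v ∧ (m' : M true) = e true (inv3 v)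

/-! ## Orientation -/

/-- `c` is a 3-cycle whose class in `H₃(X, X \ {x}; ℤ)` has infinite order for every point `x`; for
instance a fundamental cycle of a closed oriented 3-manifold. -/
def IsOrient {X : Type} [TopologicalSpace X] (c : Chain X 3) : Prop :=
  bd c = 0 ∧ ∀ (x : X) (k : ℤ), k ≠ 0 →
    ¬ ∃ (b : Chain X 4) (e : Chain X 3), Avoids x e ∧ k • c = bd b + e

end TCMM
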